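import Pool.Agent.Work.MP_c58d8b_pr.FC.Stmts

/-! Item [c58d8b FC FA1] (helper3): basic facts on nonbacktracking walks. -/

set_option autoImplicit false

namespace Pool.Agent.Work.MP_c58d8b_pr.FC

open Pool.Agent.Work.MP_c58d8b_pr.SO
open MeasureTheory ProbabilityTheory Set
open scoped ENNReal unitInterval Classical

universe u

namespace IX_FA1

theorem nf0 {V : Type u} (H : SimpleGraph V) (u x y : V) :
    NF H 0 u x y = if x = y then 1 else 0 := rfl

theorem nfs {V : Type u} (H : SimpleGraph V) (n : ℕ) (u x y : V) :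
    NF H (n + 1) u x y = ∑ z ∈ (nb H x).erase u, NF H n x z y := rfl

theorem nw0 {V : Type u} (H : SimpleGraph V) (x y : V) :
    NW H 0 x y = if x = y then 1 else 0 := rfl

theorem nws {V : Type u} (H : SimpleGraph V) (n : ℕ) (x y : V) :
    NW H (n + 1) x y = ∑ z ∈ nb H x, NF H n x z y := rfl

theorem nf_nonneg {V : Type u} (H : SimpleGraph V) (n : ℕ) : ∀ u x y : V, 0 ≤ NF H n u x y := by
  induction n with
  | zero =>
    intro u x y
    rw [nf0]
    split_ifs
    · exact zero_le_one
    · exact le_rfl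
  | succ n ih =>
    intro u x y
    rw [nfs]
    exact Finset.sum_nonneg fun z _ => ih x z y

theorem nf_le {V : Type u} (H : SimpleGraph V) (n : ℕ) (u x y : V) :
    NF H n u x y ≤ NW H n x y := by
  cases n with
  | zero => rw [nf0, nw0]
  | succ n =>
    rw [nfs, nws]
    exact Finset.sum_le_sum_of_subset_of_nonneg (Finset.erase_subset _ _)
      fun z _ _ => nf_nonneg H n x z y

theorem nw_nonneg {V : Type u} (H : SimpleGraph V) (n : ℕ) (x y : V) : 0 ≤ NW H n x y :=
  (nf_nonneg H n x x y).trans (nf_le H n x x y)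

theorem dist_nf {V : Type u} (H : SimpleGraph V) (hL : LocFinite H) (hWB : StWB.{u})
    (hc : H.Connected) (n : ℕ) : ∀ u x y : V, NF H n u x y ≠ 0 → H.dist x y ≤ n := by
  induction n with
  | zero =>
    intro u x y h
    rw [nf0] at h
    by_cases hxy : x = y
    · rw [hxy, SimpleGraph.dist_self]
    · rw [if_neg hxy] at h
      exact absurd rfl h
  | succ n ih =>
    intro u x y h
    rw [nfs] at h
    obtain ⟨z, hz, hne⟩ := Finset.exists_ne_zero_of_sum_ne_zero h
    have h1 := ih x z y hne
    have h2 : H.Adj x z := ((hWB V H hL).1 x z).1 (Finset.mem_of_mem_erase hz)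
    have h3 : H.dist x z = 1 := SimpleGraph.dist_eq_one_iff_adj.2 h2
    have h4 : H.dist x y ≤ H.dist x z + H.dist z y := hc.dist_triangle
    omega

end IX_FA1

open IX_FA1 in
theorem pr_FA1 (hWB : StWB.{u}) : StFA1.{u} := by
  intro V H hL
  refine ⟨fun n x y => nw_nonneg H n x y, fun n u x y => ⟨nf_nonneg H n u x y, nf_le H n u x y⟩,
    fun x y => nw0 H x y, fun x y => rfl, fun hc n x y h => ?_⟩
  cases n with
  | zero =>
    rw [nw0] at h
    by_cases hxy : x = y
    · rw [hxy, SimpleGraph.dist_self]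
    · rw [if_neg hxy] at h
      exact absurd rfl h
  | succ n =>
    rw [nws] at h
    obtain ⟨z, hz, hne⟩ := Finset.exists_ne_zero_of_sum_ne_zero h
    have h1 := dist_nf H hL hWB hc n x z y hne
    have h2 : H.Adj x z := ((hWB V H hL).1 x z).1 hz
    have h3 : H.dist x z = 1 := SimpleGraph.dist_eq_one_iff_adj.2 h2
    have h4 : H.dist x y ≤ H.dist x z + H.dist z y := hc.dist_triangle
    omega

end Pool.Agent.Work.MP_c58d8b_pr.FC
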