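import Pool.Agent.Work.MP_c58d8b_pr.FC.Stmts

/-! Item [c58d8b FC FA2] (helper51): the recursion of the numbers of nonbacktracking walks in a regular
graph. -/

set_option autoImplicit false

namespace Pool.Agent.Work.MP_c58d8b_pr.FC

open Pool.Agent.Work.MP_c58d8b_pr.SO
open MeasureTheory ProbabilityTheory Set
open scoped ENNReal unitInterval Classical

universe u

namespace IX_FA2

theorem mem {V : Type u} (H : SimpleGraph V) (hL : LocFinite H) (x y : V) : y ∈ nb H x ↔ H.Adj x y := by
  have h : (H.neighborSet x).Finite := hL x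
  unfold nb
  rw [dif_pos h, Set.Finite.mem_toFinset, SimpleGraph.mem_neighborSet]

theorem split {V : Type u} (H : SimpleGraph V) (hL : LocFinite H) (m : ℕ) (x y z : V) (hz : z ∈ nb H x) :
    NF H (m + 1) x z y = NW H (m + 1) z y - NF H m z x y := by
  have hx : x ∈ nb H z := (mem H hL z x).2 ((mem H hL x z).1 hz).symm
  have h := Finset.add_sum_erase (nb H z) (fun v => NF H m z v y) hx
  have h1 : NF H (m + 1) x z y = ∑ v ∈ (nb H z).erase x, NF H m z v y := rfl
  have h2 : NW H (m + 1) z y = ∑ v ∈ nb H z, NF H m z v y := rfl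
  rw [h1, h2, ← h]
  ring

theorem split2 {V : Type u} (H : SimpleGraph V) (hL : LocFinite H) (m : ℕ) (x y z : V) (hz : z ∈ nb H x) :
    NF H (m + 1) z x y = NW H (m + 1) x y - NF H m x z y :=
  split H hL m z y x ((mem H hL z x).2 ((mem H hL x z).1 hz).symm)

theorem rec1 {V : Type u} (H : SimpleGraph V) (hL : LocFinite H) (m : ℕ) (x y : V) :
    NW H (m + 2) x y = ∑ z ∈ nb H x, NW H (m + 1) z y - ∑ z ∈ nb H x, NF H m z x y := by
  have h1 : NW H (m + 2) x y = ∑ z ∈ nb H x, NF H (m + 1) x z y := rfl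
  rw [h1, ← Finset.sum_sub_distrib]
  exact Finset.sum_congr rfl fun z hz => split H hL m x y z hz

end IX_FA2

theorem pr_FA2 : StFA2.{u} := by
  intro V H hL d hd
  refine ⟨fun x y => ?_, fun n x y => ?_⟩
  · have h := IX_FA2.rec1 H hL 0 x y
    have h2 : ∑ z ∈ nb H x, NF H 0 z x y = d * NW H 0 x y := by
      have h3 : ∀ z ∈ nb H x, NF H 0 z x y = NW H 0 x y := fun z _ => rfl
      rw [Finset.sum_congr rfl h3, Finset.sum_const, hd x, nsmul_eq_mul]
    rw [h2] at h
    exact h
  · have h := IX_FA2.rec1 H hL (n + 1) x y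
    have h2 : ∑ z ∈ nb H x, NF H (n + 1) z x y = ((d : ℝ) - 1) * NW H (n + 1) x y := by
      rw [Finset.sum_congr rfl fun z hz => IX_FA2.split2 H hL n x y z hz, Finset.sum_sub_distrib,
        Finset.sum_const, hd x, nsmul_eq_mul]
      have h3 : NW H (n + 1) x y = ∑ z ∈ nb H x, NF H n x z y := rfl
      rw [← h3]
      ring
    rw [h2] at h
    exact h

end Pool.Agent.Work.MP_c58d8b_pr.FC
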