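import Pool.Agent.Work.MP_c58d8b_pr.FC.Stmts

/-!
# MP_c58d8b_pr, block FC, item FA3: `NW n` is a polynomial of the adjacency matrix
-/

set_option autoImplicit false

namespace Pool.Agent.Work.MP_c58d8b_pr.FC

open Pool.Agent.Work.MP_c58d8b_pr.SO
open MeasureTheory ProbabilityTheory Set
open scoped ENNReal unitInterval Classical

universe u

namespace IX_FA3

variable {V : Type u}

/-- the entry of a polynomial of the adjacency matrix, cut off -/
noncomputable def GG (H : SimpleGraph V) (N : ℕ) (q : Polynomial ℝ) (x y : V) : ℝ :=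
  ∑ k ∈ Finset.range N, q.coeff k * Wk H k x y

theorem GG_sub (H : SimpleGraph V) (N : ℕ) (p q : Polynomial ℝ) (x y : V) :
    GG H N (p - q) x y = GG H N p x y - GG H N q x y := by
  unfold GG
  rw [← Finset.sum_sub_distrib]
  refine Finset.sum_congr rfl fun k _ => ?_
  rw [Polynomial.coeff_sub, sub_mul]

theorem GG_C (H : SimpleGraph V) (N : ℕ) (c : ℝ) (q : Polynomial ℝ) (x y : V) :
    GG H N (Polynomial.C c * q) x y = c * GG H N q x y := by
  unfold GG
  rw [Finset.mul_sum]
  refine Finset.sum_congr rfl fun k _ => ?_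
  rw [Polynomial.coeff_C_mul, mul_assoc]

theorem GG_X (H : SimpleGraph V) (N : ℕ) (q : Polynomial ℝ) (x y : V) :
    GG H (N + 1) (Polynomial.X * q) x y = ∑ z ∈ nb H x, GG H N q z y := by
  unfold GG
  rw [Finset.sum_range_succ', Polynomial.coeff_X_mul_zero, zero_mul, add_zero, Finset.sum_comm]
  refine Finset.sum_congr rfl fun k _ => ?_
  rw [Polynomial.coeff_X_mul, Wk, Finset.mul_sum]

theorem GG_succ (H : SimpleGraph V) (N : ℕ) (q : Polynomial ℝ) (hq : q.natDegree < N) (x y : V) :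
    GG H (N + 1) q x y = GG H N q x y := by
  unfold GG
  rw [Finset.sum_range_succ, Polynomial.coeff_eq_zero_of_natDegree_lt hq, zero_mul, add_zero]

theorem deg (d : ℝ) : ∀ n, (qp d n).natDegree ≤ n
  | 0 => by
    rw [qp]
    simp
  | 1 => by
    rw [qp]
    exact Polynomial.natDegree_X_le
  | 2 => by
    rw [qp]
    refine (Polynomial.natDegree_sub_le _ _).trans ?_
    rw [Polynomial.natDegree_X_pow, Polynomial.natDegree_C]
    simp
  | n + 3 => by
    have h1 := deg d (n + 2)
    have h2 := deg d (n + 1)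
    rw [qp]
    refine (Polynomial.natDegree_sub_le _ _).trans ?_
    refine max_le ?_ ?_
    · refine Polynomial.natDegree_mul_le.trans ?_
      have h3 : (Polynomial.X : Polynomial ℝ).natDegree ≤ 1 := Polynomial.natDegree_X_le
      omega
    · refine Polynomial.natDegree_mul_le.trans ?_
      rw [Polynomial.natDegree_C]
      omega

theorem key (hWB : StWB.{u}) (hFA1 : StFA1.{u}) (hFA2 : StFA2.{u}) (H : SimpleGraph V)
    (hH : LocFinite H) (d : ℕ) (hd : ∀ x, (nb H x).card = d) :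
    ∀ n x y, NW H n x y = GG H (n + 1) (qp d n) x y
  | 0, x, y => by
    obtain ⟨-, -, h0, -, -⟩ := hFA1 V H hH
    rw [h0, qp, GG]
    simp [Wk]
  | 1, x, y => by
    obtain ⟨-, -, h0, h1, -⟩ := hFA1 V H hH
    rw [h1, qp, GG, Finset.sum_range_succ, Finset.sum_range_one, Polynomial.coeff_X_zero,
      Polynomial.coeff_X_one, zero_mul, zero_add, one_mul, Wk]
    refine Finset.sum_congr rfl fun z _ => ?_
    rw [h0, Wk]
  | 2, x, y => by
    obtain ⟨-, -, h0, h1, -⟩ := hFA1 V H hH
    obtain ⟨h2, -⟩ := hFA2 V H hH d hd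
    have e1 : ∀ z, NW H 1 z y = Wk H 1 z y := by
      intro z
      rw [h1, Wk]
      refine Finset.sum_congr rfl fun z' _ => ?_
      rw [h0, Wk]
    have e2 : NW H 0 x y = Wk H 0 x y := by rw [h0, Wk]
    have e3 : ∑ z ∈ nb H x, NW H 1 z y = Wk H 2 x y := by
      rw [show Wk H 2 x y = ∑ z ∈ nb H x, Wk H 1 z y from rfl]
      exact Finset.sum_congr rfl fun z _ => e1 z
    rw [h2, e3, e2, qp, GG_sub, GG, GG, Finset.sum_range_succ, Finset.sum_range_succ,
      Finset.sum_range_one, Finset.sum_range_succ, Finset.sum_range_succ, Finset.sum_range_one]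
    simp [Polynomial.coeff_X_pow]
  | n + 3, x, y => by
    obtain ⟨-, h3⟩ := hFA2 V H hH d hd
    have e1 : ∑ z ∈ nb H x, NW H (n + 2) z y = ∑ z ∈ nb H x, GG H (n + 3) (qp d (n + 2)) z y :=
      Finset.sum_congr rfl fun z _ => key hWB hFA1 hFA2 H hH d hd (n + 2) z y
    have e2 := key hWB hFA1 hFA2 H hH d hd (n + 1) x y
    have hdeg := deg (d : ℝ) (n + 1)
    rw [h3, e1, e2, qp, GG_sub, GG_C, GG_X,
      GG_succ H (n + 3) (qp d (n + 1)) (by omega), GG_succ H (n + 2) (qp d (n + 1)) (by omega)]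

end IX_FA3

open IX_FA3 in
theorem pr_FA3 (hWB : StWB.{u}) (hFA1 : StFA1.{u}) (hFA2 : StFA2.{u}) : StFA3.{u} := by
  intro V H hH d hd
  have h := key hWB hFA1 hFA2 H hH d hd
  refine ⟨deg d, h, fun n x y => ?_⟩
  rw [h n x y, h n y x, GG, GG]
  refine Finset.sum_congr rfl fun k _ => ?_
  rw [(hWB V H hH).2.2.1 k x y]

end Pool.Agent.Work.MP_c58d8b_pr.FC
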