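import Pool.Agent.Work.MP_c58d8b_pr.FC.Stmts

/-!
# MP_c58d8b_pr, block FC, item FA4: remove the first and the last step of a nonbacktracking walk
-/

set_option autoImplicit false

namespace Pool.Agent.Work.MP_c58d8b_pr.FC

open Pool.Agent.Work.MP_c58d8b_pr.SO
open MeasureTheory ProbabilityTheory Set
open scoped ENNReal unitInterval Classical

universe u

theorem pr_FA4 (hFA1 : StFA1.{u}) (hFA3 : StFA3.{u}) : StFA4.{u} := by
  intro V H hH d hd n x y
  obtain ⟨-, hNF, -, -, -⟩ := hFA1 V H hH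
  obtain ⟨-, -, hsym⟩ := hFA3 V H hH d hd
  have h1 : NW H (n + 2) x y = ∑ z ∈ nb H x, NF H (n + 1) x z y := rfl
  rw [h1]
  refine Finset.sum_le_sum fun z _ => ?_
  refine le_trans (hNF (n + 1) x z y).2 ?_
  rw [hsym (n + 1) z y]
  have h2 : NW H (n + 1) y z = ∑ z' ∈ nb H y, NF H n y z' z := rfl
  rw [h2]
  refine Finset.sum_le_sum fun z' _ => ?_
  refine le_trans (hNF n y z' z).2 ?_
  rw [hsym n z' z]

end Pool.Agent.Work.MP_c58d8b_pr.FC
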