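import Pool.Agent.Work.MP_c58d8b_pr.FC.Stmts

/-!
# MP_c58d8b_pr, block FC, item FB1: polynomials of a symmetric matrix
-/

set_option autoImplicit false

namespace Pool.Agent.Work.MP_c58d8b_pr.FC

open Pool.Agent.Work.MP_c58d8b_pr.SO
open MeasureTheory ProbabilityTheory Set
open scoped ENNReal unitInterval Classical

universe u

namespace IX_FB1

open Matrix

variable {ι : Type u} [Fintype ι] [DecidableEq ι]

/-- diagonalisation of a real symmetric matrix by an orthogonal matrix -/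
theorem diag (M : Matrix ι ι ℝ) (hM : M.IsSymm) : ∃ (Q : Matrix ι ι ℝ) (l : ι → ℝ),
    Qᵀ * Q = 1 ∧ Q * Qᵀ = 1 ∧ M = Q * diagonal l * Qᵀ := by
  have hH : M.IsHermitian := by
    rw [Matrix.IsHermitian, conjTranspose_eq_transpose_of_trivial]
    exact hM
  have hs : ∀ X : Matrix ι ι ℝ, star X = Xᵀ := fun X => by
    rw [star_eq_conjTranspose, conjTranspose_eq_transpose_of_trivial]
  refine ⟨(hH.eigenvectorUnitary : Matrix ι ι ℝ), hH.eigenvalues, ?_, ?_, ?_⟩
  · rw [← hs]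
    exact Unitary.coe_star_mul_self hH.eigenvectorUnitary
  · rw [← hs]
    exact Unitary.coe_mul_star_self hH.eigenvectorUnitary
  · conv_lhs => rw [hH.spectral_theorem, Unitary.conjStarAlgAut_apply, hs]
    rfl

/-- powers -/
theorem pow_eq (M Q : Matrix ι ι ℝ) (l : ι → ℝ) (h1 : Qᵀ * Q = 1) (h2 : Q * Qᵀ = 1)
    (hM : M = Q * diagonal l * Qᵀ) (n : ℕ) : M ^ n = Q * diagonal (fun i => l i ^ n) * Qᵀ := by
  induction n with
  | zero =>
    have : diagonal (fun i => l i ^ 0) = (1 : Matrix ι ι ℝ) := by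
      simp
    rw [this, mul_one, h2, pow_zero]
  | succ n ih =>
    rw [pow_succ, ih, hM]
    have e1 : Q * diagonal (fun i => l i ^ n) * Qᵀ * (Q * diagonal l * Qᵀ) =
        Q * (diagonal (fun i => l i ^ n) * ((Qᵀ * Q) * diagonal l)) * Qᵀ := by
      simp only [Matrix.mul_assoc]
    rw [e1, h1, Matrix.one_mul, diagonal_mul_diagonal]
    simp only [pow_succ]

/-- polynomials -/
theorem aeval_eq (M Q : Matrix ι ι ℝ) (l : ι → ℝ) (h1 : Qᵀ * Q = 1) (h2 : Q * Qᵀ = 1)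
    (hM : M = Q * diagonal l * Qᵀ) (q : Polynomial ℝ) :
    Polynomial.aeval M q = Q * diagonal (fun i => q.eval (l i)) * Qᵀ := by
  induction q using Polynomial.induction_on' with
  | add a b ha hb =>
    rw [map_add, ha, hb, ← Matrix.add_mul, ← Matrix.mul_add, diagonal_add]
    simp only [Polynomial.eval_add]
  | monomial n a =>
    rw [Polynomial.aeval_monomial, pow_eq M Q l h1 h2 hM n]
    have e1 : diagonal (fun i => (Polynomial.monomial n a).eval (l i)) =
        a • diagonal (fun i => l i ^ n) := by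
      rw [← diagonal_smul]
      congr 1
      funext i
      simp [Polynomial.eval_monomial]
    rw [e1, Matrix.mul_smul, Matrix.smul_mul, ← Algebra.smul_def]

/-- the quadratic form in the eigenbasis -/
theorem dot_eq (Q : Matrix ι ι ℝ) (c f g : ι → ℝ) :
    f ⬝ᵥ (Q * diagonal c * Qᵀ).mulVec g =
      ∑ i, Qᵀ.mulVec f i * (c i * Qᵀ.mulVec g i) := by
  rw [← Matrix.mulVec_mulVec, ← Matrix.mulVec_mulVec, Matrix.dotProduct_mulVec,
    ← Matrix.mulVec_transpose, dotProduct]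
  refine Finset.sum_congr rfl (fun i _ => ?_)
  rw [Matrix.mulVec_diagonal]

theorem norm_eq (Q : Matrix ι ι ℝ) (h2 : Q * Qᵀ = 1) (f : ι → ℝ) :
    ∑ i, Qᵀ.mulVec f i ^ 2 = f ⬝ᵥ f := by
  have h := dot_eq Q (fun _ => 1) f f
  have e : (Q * Matrix.diagonal (fun _ => (1 : ℝ)) * Qᵀ) = 1 := by
    rw [diagonal_one, mul_one, h2]
  rw [e, Matrix.one_mulVec] at h
  rw [h]
  refine Finset.sum_congr rfl (fun i _ => ?_)
  ring

end IX_FB1

open Matrix in
theorem pr_FB1 : StFB1.{u} := by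
  intro ι _ _ M hM A B hA hB hform q hq f g
  obtain ⟨Q, l, h1, h2, hMQ⟩ := IX_FB1.diag M hM
  have hl : ∀ i, |l i| ≤ A := by
    intro i
    have h := hform (Q.mulVec (Pi.single i 1))
    have e0 : Qᵀ.mulVec (Q.mulVec (Pi.single i 1)) = Pi.single i (1 : ℝ) := by
      rw [Matrix.mulVec_mulVec, h1, Matrix.one_mulVec]
    have e1 : Q.mulVec (Pi.single i 1) ⬝ᵥ M.mulVec (Q.mulVec (Pi.single i 1)) = l i := by
      rw [hMQ, IX_FB1.dot_eq, e0]
      rw [Finset.sum_eq_single i]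
      · simp
      · intro j _ hj
        simp [hj]
      · intro h
        exact absurd (Finset.mem_univ i) h
    have e2 : Q.mulVec (Pi.single i 1) ⬝ᵥ Q.mulVec (Pi.single i (1 : ℝ)) = 1 := by
      rw [← IX_FB1.norm_eq Q h2, e0]
      rw [Finset.sum_eq_single i]
      · simp
      · intro j _ hj
        simp [hj]
      · intro h
        exact absurd (Finset.mem_univ i) h
    rw [e1, e2, mul_one] at h
    exact h
  rw [IX_FB1.aeval_eq M Q l h1 h2 hMQ q, IX_FB1.dot_eq]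
  have hc : ∀ i, |q.eval (l i)| ≤ B := fun i => hq _ (hl i)
  calc |∑ i, Qᵀ.mulVec f i * (q.eval (l i) * Qᵀ.mulVec g i)|
      ≤ ∑ i, |Qᵀ.mulVec f i * (q.eval (l i) * Qᵀ.mulVec g i)| :=
        Finset.abs_sum_le_sum_abs _ _
    _ ≤ ∑ i, B * (|Qᵀ.mulVec f i| * |Qᵀ.mulVec g i|) := by
        refine Finset.sum_le_sum (fun i _ => ?_)
        rw [abs_mul, abs_mul]
        have h3 := mul_le_mul_of_nonneg_right (hc i)
          (mul_nonneg (abs_nonneg (Qᵀ.mulVec f i)) (abs_nonneg (Qᵀ.mulVec g i)))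
        calc |Qᵀ.mulVec f i| * (|q.eval (l i)| * |Qᵀ.mulVec g i|)
            = |q.eval (l i)| * (|Qᵀ.mulVec f i| * |Qᵀ.mulVec g i|) := by ring
          _ ≤ _ := h3
    _ = B * ∑ i, |Qᵀ.mulVec f i| * |Qᵀ.mulVec g i| := by rw [Finset.mul_sum]
    _ ≤ B * (√(∑ i, |Qᵀ.mulVec f i| ^ 2) * √(∑ i, |Qᵀ.mulVec g i| ^ 2)) :=
        mul_le_mul_of_nonneg_left (Real.sum_mul_le_sqrt_mul_sqrt _ _ _) hB
    _ = B * √(f ⬝ᵥ f) * √(g ⬝ᵥ g) := by
        simp only [sq_abs]
        rw [IX_FB1.norm_eq Q h2, IX_FB1.norm_eq Q h2, mul_assoc]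

end Pool.Agent.Work.MP_c58d8b_pr.FC
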