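import Pool.Agent.Work.MP_c58d8b_pr.FC.Stmts

/-!
# MP_c58d8b_pr, block FC, item FB2: polynomials of the adjacency matrix, in terms of walks
-/

set_option autoImplicit false

namespace Pool.Agent.Work.MP_c58d8b_pr.FC

open Pool.Agent.Work.MP_c58d8b_pr.SO
open MeasureTheory ProbabilityTheory Set
open scoped ENNReal unitInterval Classical

universe u

namespace IX_FB2

variable {V : Type u}

/-- The set `F` and the vertices which can be reached from it by at most `j` steps. -/
noncomputable def FF (H : SimpleGraph V) (F : Finset V) : ℕ → Finset V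
  | 0 => F
  | j + 1 => Fn H (FF H F j)

theorem FF_mono (H : SimpleGraph V) (F : Finset V) : Monotone (FF H F) :=
  monotone_nat_of_le_succ fun _ => Finset.subset_union_left

theorem nb_sub (H : SimpleGraph V) (F : Finset V) (j : ℕ) (x : V) (hx : x ∈ FF H F j) :
    nb H x ⊆ FF H F (j + 1) := by
  intro y hy
  exact Finset.mem_union_right _ (Finset.mem_biUnion.2 ⟨x, hx, hy⟩)

/-- The adjacency matrix of `H` on the finite set `F`. -/
noncomputable def ad (H : SimpleGraph V) (F : Finset V) : Matrix F F ℝ :=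
  Matrix.of fun x y => if (y : V) ∈ nb H (x : V) then 1 else 0

theorem ad_apply (H : SimpleGraph V) (F : Finset V) (x y : F) :
    ad H F x y = if (y : V) ∈ nb H (x : V) then 1 else 0 := rfl

/-- Row sums of the adjacency matrix. -/
theorem row (H : SimpleGraph V) (F : Finset V) (x : V) (φ : V → ℝ) :
    ∑ y : F, (if (y : V) ∈ nb H x then (1 : ℝ) else 0) * φ y =
      ∑ y ∈ (nb H x).filter (· ∈ F), φ y := by
  rw [Finset.sum_coe_sort F fun y => (if y ∈ nb H x then (1 : ℝ) else 0) * φ y]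
  have h1 : (nb H x).filter (· ∈ F) = F.filter (· ∈ nb H x) := by
    ext y
    rw [Finset.mem_filter, Finset.mem_filter, and_comm]
  rw [h1, Finset.sum_filter]
  refine Finset.sum_congr rfl fun y _ => ?_
  split_ifs
  · rw [one_mul]
  · rw [zero_mul]

/-- Powers of the adjacency matrix count walks. -/
theorem pow_eq (H : SimpleGraph V) (F : Finset V) (n : ℕ) : ∀ (k j : ℕ), j + k ≤ n →
    ∀ x y : (FF H F n : Finset V), (x : V) ∈ FF H F j →
      (ad H (FF H F n) ^ k) x y = Wk H k (x : V) (y : V) := by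
  intro k
  induction k with
  | zero =>
    intro j _ x y _
    rw [pow_zero, Matrix.one_apply]
    show _ = if (x : V) = (y : V) then (1 : ℝ) else 0
    by_cases h : x = y
    · rw [if_pos h, if_pos (congrArg Subtype.val h)]
    · rw [if_neg h, if_neg fun h' => h (Subtype.ext h')]
  | succ k ih =>
    intro j hj x y hx
    have hsub : nb H (x : V) ⊆ FF H F (j + 1) := nb_sub H F j x hx
    have hsub' : nb H (x : V) ⊆ FF H F n := hsub.trans (FF_mono H F (by omega))
    rw [pow_succ', Matrix.mul_apply]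
    have h1 : ∀ z : (FF H F n : Finset V), ad H (FF H F n) x z * (ad H (FF H F n) ^ k) z y =
        (if (z : V) ∈ nb H (x : V) then (1 : ℝ) else 0) * Wk H k (z : V) (y : V) := by
      intro z
      rw [ad_apply]
      split_ifs with hz
      · rw [ih (j + 1) (by omega) z y (hsub hz)]
      · rw [zero_mul, zero_mul]
    rw [Finset.sum_congr rfl fun z _ => h1 z, row H (FF H F n) x fun z => Wk H k z (y : V)]
    show _ = ∑ z ∈ nb H (x : V), Wk H k z (y : V)
    rw [Finset.filter_true_of_mem fun z hz => hsub' hz]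

/-- The quadratic form of the adjacency matrix. -/
theorem quad (H : SimpleGraph V) (F : Finset V) (G : V → ℝ) :
    (fun x : F => G x) ⬝ᵥ (ad H F).mulVec (fun x : F => G x) =
      ∑ x ∈ F, ∑ y ∈ (nb H x).filter (· ∈ F), G x * G y := by
  show ∑ x : F, G x * ∑ y : F, ad H F x y * G y = _
  have h1 : ∀ x : F, G x * ∑ y : F, ad H F x y * G y =
      G x * ∑ y ∈ (nb H (x : V)).filter (· ∈ F), G y := by
    intro x
    congr 1
    exact row H F x G
  rw [Finset.sum_congr rfl fun x _ => h1 x,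
    Finset.sum_coe_sort F fun x => G x * ∑ y ∈ (nb H x).filter (· ∈ F), G y]
  exact Finset.sum_congr rfl fun x _ => Finset.mul_sum _ _ _

theorem norm_eq (F : Finset V) (G : V → ℝ) :
    (fun x : F => G x) ⬝ᵥ (fun x : F => G x) = ∑ x ∈ F, G x ^ 2 := by
  show ∑ x : F, G x * G x = _
  rw [Finset.sum_coe_sort F fun x => G x * G x]
  exact Finset.sum_congr rfl fun x _ => (sq (G x)).symm

/-- The bound for the quadratic form. -/
theorem form_le (H : SimpleGraph V) (F : Finset V) (A : ℝ) (hA : Sp H A) (G : V → ℝ) :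
    |(fun x : F => G x) ⬝ᵥ (ad H F).mulVec (fun x : F => G x)| ≤
      A * ((fun x : F => G x) ⬝ᵥ (fun x : F => G x)) := by
  rw [quad, norm_eq, abs_le]
  constructor
  · have h1 := hA F fun x => |G x|
    have h2 : ∑ x ∈ F, |G x| ^ 2 = ∑ x ∈ F, G x ^ 2 :=
      Finset.sum_congr rfl fun x _ => sq_abs (G x)
    rw [h2] at h1
    have h3 : -∑ x ∈ F, ∑ y ∈ (nb H x).filter (· ∈ F), G x * G y ≤
        ∑ x ∈ F, ∑ y ∈ (nb H x).filter (· ∈ F), |G x| * |G y| := by
      rw [← Finset.sum_neg_distrib]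
      refine Finset.sum_le_sum fun x _ => ?_
      rw [← Finset.sum_neg_distrib]
      refine Finset.sum_le_sum fun y _ => ?_
      rw [← abs_mul]
      exact neg_le_abs _
    linarith
  · exact hA F G

theorem ad_symm (hWB : StWB.{u}) (H : SimpleGraph V) (hl : LocFinite H) (F : Finset V) :
    (ad H F).IsSymm := by
  have h := (hWB V H hl).1
  refine Matrix.IsSymm.ext fun x y => ?_
  rw [ad_apply, ad_apply]
  have h1 : (x : V) ∈ nb H (y : V) ↔ (y : V) ∈ nb H (x : V) := by
    rw [h, h, H.adj_comm]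
  by_cases h2 : (y : V) ∈ nb H (x : V)
  · rw [if_pos h2, if_pos (h1.2 h2)]
  · rw [if_neg h2, if_neg fun h3 => h2 (h1.1 h3)]

/-- The bilinear form of indicator functions. -/
theorem ind_form (F F₁ F₂ : Finset V) (h1 : F₁ ⊆ F) (h2 : F₂ ⊆ F) (M : Matrix F F ℝ)
    (N : V → V → ℝ) (hMN : ∀ x y : F, (x : V) ∈ F₁ → M x y = N x y) :
    (fun x : F => if (x : V) ∈ F₁ then (1 : ℝ) else 0) ⬝ᵥ
      M.mulVec (fun y : F => if (y : V) ∈ F₂ then (1 : ℝ) else 0) =
      ∑ x ∈ F₁, ∑ y ∈ F₂, N x y := by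
  show ∑ x : F, (if (x : V) ∈ F₁ then (1 : ℝ) else 0) *
    ∑ y : F, M x y * (if (y : V) ∈ F₂ then (1 : ℝ) else 0) = _
  have e1 : ∀ x : F, (if (x : V) ∈ F₁ then (1 : ℝ) else 0) *
      ∑ y : F, M x y * (if (y : V) ∈ F₂ then (1 : ℝ) else 0) =
      if (x : V) ∈ F₁ then ∑ y ∈ F₂, N x y else 0 := by
    intro x
    by_cases hx : (x : V) ∈ F₁
    · rw [if_pos hx, if_pos hx, one_mul]
      have e2 : ∀ y : F, M x y * (if (y : V) ∈ F₂ then (1 : ℝ) else 0) =
          if (y : V) ∈ F₂ then N x y else 0 := by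
        intro y
        by_cases hy : (y : V) ∈ F₂
        · rw [if_pos hy, if_pos hy, mul_one, hMN x y hx]
        · rw [if_neg hy, if_neg hy, mul_zero]
      rw [Finset.sum_congr rfl fun y _ => e2 y,
        Finset.sum_coe_sort F fun y => if y ∈ F₂ then N x y else 0, ← Finset.sum_filter]
      congr 1
      ext y
      rw [Finset.mem_filter]
      exact ⟨fun h => h.2, fun h => ⟨h2 h, h⟩⟩
    · rw [if_neg hx, if_neg hx, zero_mul]
  rw [Finset.sum_congr rfl fun x _ => e1 x,
    Finset.sum_coe_sort F fun x => if x ∈ F₁ then ∑ y ∈ F₂, N x y else 0, ← Finset.sum_filter]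
  congr 1
  ext x
  rw [Finset.mem_filter]
  exact ⟨fun h => h.2, fun h => ⟨h1 h, h⟩⟩

theorem ind_norm (F F₁ : Finset V) (h1 : F₁ ⊆ F) :
    (fun x : F => if (x : V) ∈ F₁ then (1 : ℝ) else 0) ⬝ᵥ
      (fun x : F => if (x : V) ∈ F₁ then (1 : ℝ) else 0) = (F₁.card : ℝ) := by
  rw [norm_eq F fun x => if x ∈ F₁ then (1 : ℝ) else 0]
  have e1 : ∀ x ∈ F, (if x ∈ F₁ then (1 : ℝ) else 0) ^ 2 = if x ∈ F₁ then (1 : ℝ) else 0 := by
    intro x _
    split_ifs <;> norm_num
  rw [Finset.sum_congr rfl e1, ← Finset.sum_filter]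
  have e2 : F.filter (· ∈ F₁) = F₁ := by
    ext x
    rw [Finset.mem_filter]
    exact ⟨fun h => h.2, fun h => ⟨h1 h, h⟩⟩
  rw [e2, Finset.sum_const, nsmul_eq_mul, mul_one]

end IX_FB2

open IX_FB2 in
theorem pr_FB2 (hFB1 : StFB1.{u}) (hWB : StWB.{u}) : StFB2.{u} := by
  intro V H hl A B hA hB hSp q n hq hqB F₁ F₂
  set F : Finset V := FF H (F₁ ∪ F₂) n with hF
  have hF0 : F₁ ∪ F₂ ⊆ F := FF_mono H (F₁ ∪ F₂) (Nat.zero_le n)
  have hF1 : F₁ ⊆ F := Finset.subset_union_left.trans hF0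
  have hF2 : F₂ ⊆ F := Finset.subset_union_right.trans hF0
  have hform : ∀ g : F → ℝ, |g ⬝ᵥ (ad H F).mulVec g| ≤ A * (g ⬝ᵥ g) := by
    intro g
    have h1 : g = fun x : F => (fun v : V => if h : v ∈ F then g ⟨v, h⟩ else 0) x := by
      funext x
      show g x = if h : (x : V) ∈ F then g ⟨x, h⟩ else 0
      rw [dif_pos x.2]
    rw [h1]
    exact form_le H F A hSp fun v : V => if h : v ∈ F then g ⟨v, h⟩ else 0
  have key := hFB1 F (ad H F) (ad_symm hWB H hl F) A B hA hB hform q hqB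
    (fun x : F => if (x : V) ∈ F₁ then (1 : ℝ) else 0)
    (fun y : F => if (y : V) ∈ F₂ then (1 : ℝ) else 0)
  rw [ind_norm F F₁ hF1, ind_norm F F₂ hF2, ind_form F F₁ F₂ hF1 hF2 _
    (fun x y => ∑ k ∈ Finset.range (n + 1), q.coeff k * Wk H k x y) ?_] at key
  · exact key
  · intro x y hx
    rw [Polynomial.aeval_eq_sum_range' (Nat.lt_succ_of_le hq), Matrix.sum_apply]
    refine Finset.sum_congr rfl fun k hk => ?_
    rw [Matrix.smul_apply, smul_eq_mul]
    congr 1
    refine pow_eq H (F₁ ∪ F₂) n k 0 ?_ x y ?_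
    · rw [Finset.mem_range] at hk
      omega
    · exact Finset.mem_union_left _ hx

end Pool.Agent.Work.MP_c58d8b_pr.FC
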