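import Pool.Agent.Work.MP_c58d8b_pr.FC.Stmts

/-!
# MP_c58d8b_pr, block FC, item FB3: bound for the polynomials `q_n`
-/

set_option autoImplicit false

namespace Pool.Agent.Work.MP_c58d8b_pr.FC

open Pool.Agent.Work.MP_c58d8b_pr.SO
open MeasureTheory ProbabilityTheory Set
open scoped ENNReal unitInterval Classical

namespace IX_FB3

/-- the roots of `z² - t z + e` -/
theorem roots (e t a : ℝ) (ha : 1 ≤ a) (he : e ≤ a ^ 2)
    (ht : |t| ≤ a + e / a) : ∃ z₁ z₂ : ℂ, z₁ + z₂ = (t : ℂ) ∧ z₁ * z₂ = (e : ℂ) ∧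
      ‖z₁‖ ≤ a ∧ ‖z₂‖ ≤ a := by
  have ha0 : 0 < a := by linarith
  rcases lt_or_ge (t ^ 2) (4 * e) with h | h
  · obtain ⟨s, hs⟩ : ∃ s : ℝ, s ^ 2 = 4 * e - t ^ 2 :=
      ⟨√(4 * e - t ^ 2), Real.sq_sqrt (by linarith)⟩
    have hn : ∀ r : ℝ, r ^ 2 = s ^ 2 → ‖(⟨t / 2, r / 2⟩ : ℂ)‖ ≤ a := by
      intro r hr
      have h1 : ‖(⟨t / 2, r / 2⟩ : ℂ)‖ ^ 2 ≤ a ^ 2 := by
        rw [Complex.sq_norm, Complex.normSq_mk]
        nlinarith
      exact (pow_le_pow_iff_left₀ (norm_nonneg _) ha0.le two_ne_zero).mp h1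
    refine ⟨⟨t / 2, s / 2⟩, ⟨t / 2, -s / 2⟩, ?_, ?_, hn s rfl, hn (-s) (by ring)⟩
    · apply Complex.ext
      · show t / 2 + t / 2 = t
        ring
      · show s / 2 + -s / 2 = 0
        ring
    · apply Complex.ext
      · show t / 2 * (t / 2) - s / 2 * (-s / 2) = e
        nlinarith
      · show t / 2 * (-s / 2) + s / 2 * (t / 2) = 0
        ring
  · obtain ⟨s, hs⟩ : ∃ s : ℝ, s = √(t ^ 2 - 4 * e) := ⟨_, rfl⟩
    have hs2 : s ^ 2 = t ^ 2 - 4 * e := by
      rw [hs]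
      exact Real.sq_sqrt (by linarith)
    have hs0 : 0 ≤ s := by
      rw [hs]
      exact Real.sqrt_nonneg _
    have h1 : e / a * a = e := div_mul_cancel₀ e ha0.ne'
    have h2 : e / a ≤ a := by
      rw [div_le_iff₀ ha0]
      nlinarith
    have h3 : |t| * a ≤ a ^ 2 + e := by
      have := mul_le_mul_of_nonneg_right ht ha0.le
      rw [add_mul, h1] at this
      nlinarith
    have h4 : s ≤ 2 * a - |t| := by
      rw [hs, Real.sqrt_le_iff]
      refine ⟨by linarith, ?_⟩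
      have h5 : |t| ^ 2 = t ^ 2 := sq_abs t
      nlinarith
    have h6 := neg_abs_le t
    have h7 := le_abs_self t
    have hn1 : ‖(((t + s) / 2 : ℝ) : ℂ)‖ ≤ a := by
      rw [Complex.norm_real, Real.norm_eq_abs, abs_le]
      constructor
      · linarith
      · linarith
    have hn2 : ‖(((t - s) / 2 : ℝ) : ℂ)‖ ≤ a := by
      rw [Complex.norm_real, Real.norm_eq_abs, abs_le]
      constructor
      · linarith
      · linarith
    refine ⟨(((t + s) / 2 : ℝ) : ℂ), (((t - s) / 2 : ℝ) : ℂ), ?_, ?_, hn1, hn2⟩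
    · rw [← Complex.ofReal_add]
      congr 1
      ring
    · rw [← Complex.ofReal_mul]
      congr 1
      nlinarith

/-- the sequence `u_n` -/
noncomputable def us (e t : ℝ) : ℕ → ℝ
  | 0 => 1
  | 1 => t
  | n + 2 => t * us e t (n + 1) - e * us e t n

theorem us_bound (e t a : ℝ) (ha : 1 ≤ a) (he : e ≤ a ^ 2) (ht : |t| ≤ a + e / a) (n : ℕ) :
    |us e t n| ≤ (n + 1) * a ^ n := by
  obtain ⟨z₁, z₂, hsum, hprod, hz1, hz2⟩ := roots e t a ha he ht
  have ha0 : 0 ≤ a := by linarith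
  have key : ∀ n, (us e t (n + 1) : ℂ) = z₁ * us e t n + z₂ ^ (n + 1) := by
    intro n
    induction n with
    | zero =>
      show ((t : ℝ) : ℂ) = z₁ * ((1 : ℝ) : ℂ) + z₂ ^ (0 + 1)
      rw [Complex.ofReal_one, mul_one, zero_add, pow_one, hsum]
    | succ n ih =>
      have h1 : us e t (n + 1 + 1) = t * us e t (n + 1) - e * us e t n := rfl
      rw [h1, Complex.ofReal_sub, Complex.ofReal_mul, Complex.ofReal_mul, ← hsum, ← hprod, ih]
      ring
  induction n with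
  | zero =>
    show |(1 : ℝ)| ≤ _
    simp
  | succ n ih =>
    have h1 : |us e t (n + 1)| = ‖(us e t (n + 1) : ℂ)‖ := by
      rw [Complex.norm_real, Real.norm_eq_abs]
    rw [h1, key]
    have h2 : ‖(us e t n : ℂ)‖ ≤ (n + 1) * a ^ n := by
      rw [Complex.norm_real, Real.norm_eq_abs]
      exact ih
    calc ‖z₁ * us e t n + z₂ ^ (n + 1)‖ ≤ ‖z₁ * us e t n‖ + ‖z₂ ^ (n + 1)‖ := norm_add_le _ _
      _ = ‖z₁‖ * ‖(us e t n : ℂ)‖ + ‖z₂‖ ^ (n + 1) := by rw [norm_mul, norm_pow]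
      _ ≤ a * ((n + 1) * a ^ n) + a ^ (n + 1) := by
          refine add_le_add (mul_le_mul hz1 h2 (norm_nonneg _) ha0) ?_
          exact pow_le_pow_left₀ (norm_nonneg _) hz2 _
      _ = (((n + 1 : ℕ) : ℝ) + 1) * a ^ (n + 1) := by
          push_cast
          ring

theorem qp_us (d t : ℝ) : ∀ n, (qp d (n + 2)).eval t = us (d - 1) t (n + 2) - us (d - 1) t n
  | 0 => by
    show (Polynomial.X ^ 2 - Polynomial.C d : Polynomial ℝ).eval t =
      (t * t - (d - 1) * 1) - 1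
    rw [Polynomial.eval_sub, Polynomial.eval_pow, Polynomial.eval_X, Polynomial.eval_C]
    ring
  | 1 => by
    have h0 := qp_us d t 0
    show (Polynomial.X * qp d (0 + 2) - Polynomial.C (d - 1) * Polynomial.X : Polynomial ℝ).eval t =
      (t * us (d - 1) t (0 + 2) - (d - 1) * t) - t
    rw [Polynomial.eval_sub, Polynomial.eval_mul, Polynomial.eval_mul, Polynomial.eval_X,
      Polynomial.eval_C, h0]
    have : us (d - 1) t 0 = 1 := rfl
    rw [this]
    ring
  | n + 2 => by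
    have h0 := qp_us d t n
    have h1 := qp_us d t (n + 1)
    have e1 : qp d (n + 2 + 2) = Polynomial.X * qp d (n + 1 + 2) -
      Polynomial.C (d - 1) * qp d (n + 2) := rfl
    have e2 : us (d - 1) t (n + 2 + 2) = t * us (d - 1) t (n + 1 + 2) -
      (d - 1) * us (d - 1) t (n + 2) := rfl
    have e3 : us (d - 1) t (n + 2) = t * us (d - 1) t (n + 1) - (d - 1) * us (d - 1) t n := rfl
    rw [e1, Polynomial.eval_sub, Polynomial.eval_mul, Polynomial.eval_mul, Polynomial.eval_X,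
      Polynomial.eval_C, h0, h1, e2]
    linear_combination e3

end IX_FB3

open IX_FB3 in
/-- item FB3 -/
theorem pr_FB3 : StFB3 := by
  intro d a hd ha he n t ht
  have ha0 : 0 < a := by linarith
  have hb := us_bound ((d : ℝ) - 1) t a ha he ht
  match n with
  | 0 =>
    show |(1 : Polynomial ℝ).eval t| ≤ _
    simp
  | 1 =>
    show |(Polynomial.X : Polynomial ℝ).eval t| ≤ _
    have h1 := hb 1
    have h2 : us ((d : ℝ) - 1) t 1 = t := rfl
    rw [h2] at h1
    rw [Polynomial.eval_X]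
    push_cast at h1 ⊢
    rw [pow_one] at h1 ⊢
    linarith
  | n + 2 =>
    rw [qp_us]
    have h1 := hb (n + 2)
    have h2 := hb n
    have h3 : a ^ n ≤ a ^ (n + 2) := pow_le_pow_right₀ ha (by omega)
    have h4 : |us ((d : ℝ) - 1) t (n + 2) - us ((d : ℝ) - 1) t n| ≤
        |us ((d : ℝ) - 1) t (n + 2)| + |us ((d : ℝ) - 1) t n| := abs_sub _ _
    have h5 : ((n : ℝ) + 1) * a ^ n ≤ ((n : ℝ) + 1) * a ^ (n + 2) :=
      mul_le_mul_of_nonneg_left h3 (by positivity)
    have h6 : 0 ≤ a ^ (n + 2) := by positivity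
    push_cast at h1 ⊢
    nlinarith

end Pool.Agent.Work.MP_c58d8b_pr.FC
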