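import Pool.Agent.Work.MP_c58d8b_pr.FC.Stmts

/-!
# MP_c58d8b_pr, block FC, item FB4: bounds for the number of nonbacktracking walks
-/

set_option autoImplicit false

namespace Pool.Agent.Work.MP_c58d8b_pr.FC

open Pool.Agent.Work.MP_c58d8b_pr.SO
open MeasureTheory ProbabilityTheory Set
open scoped ENNReal unitInterval Classical

universe u

namespace IX_FB4

/-- The sum of the numbers of nonbacktracking walks between two finite sets. -/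
theorem sum_le (hFA3 : StFA3.{u}) (hFB2 : StFB2.{u}) (hFB3 : StFB3)
    (V : Type u) (H : SimpleGraph V) (hH : LocFinite H) (d : ℕ)
    (hd : ∀ x, (nb H x).card = d) (hd1 : 1 ≤ d) (a : ℝ) (ha : 1 ≤ a) (hda : (d : ℝ) - 1 ≤ a ^ 2)
    (hS : Sp H (a + ((d : ℝ) - 1) / a)) (n : ℕ) (F₁ F₂ : Finset V) :
    ∑ x ∈ F₁, ∑ y ∈ F₂, NW H n x y ≤
      2 * (n + 1) * a ^ n * √(F₁.card : ℝ) * √(F₂.card : ℝ) := by
  obtain ⟨h1, h2, _⟩ := hFA3 V H hH d hd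
  have hd0 : (0 : ℝ) ≤ (d : ℝ) - 1 := by
    have : (1 : ℝ) ≤ (d : ℝ) := by exact_mod_cast hd1
    linarith
  have ha0 : (0 : ℝ) < a := by linarith
  have hA : (0 : ℝ) ≤ a + ((d : ℝ) - 1) / a := by positivity
  have hB : (0 : ℝ) ≤ 2 * ((n : ℝ) + 1) * a ^ n := by positivity
  have key := hFB2 V H hH (a + ((d : ℝ) - 1) / a) (2 * ((n : ℝ) + 1) * a ^ n) hA hB hS
    (qp d n) n (h1 n) (fun t ht => hFB3 d a hd1 ha hda n t ht) F₁ F₂
  have e : ∑ x ∈ F₁, ∑ y ∈ F₂, NW H n x y =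
      ∑ x ∈ F₁, ∑ y ∈ F₂, ∑ k ∈ Finset.range (n + 1), (qp d n).coeff k * Wk H k x y :=
    Finset.sum_congr rfl fun x _ => Finset.sum_congr rfl fun y _ => h2 n x y
  rw [e]
  exact (le_abs_self _).trans key

end IX_FB4

open IX_FB4 in
/-- [FB4] Bounds for the number of nonbacktracking walks. -/
theorem pr_FB4 (hFA3 : StFA3.{u}) (hFA4 : StFA4.{u}) (hFB2 : StFB2.{u}) (hFB3 : StFB3) :
    StFB4.{u} := by
  intro V H hH d hd hd1 a ha hda hS
  have ha0 : (0 : ℝ) < a := by linarith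
  refine ⟨fun n x y => ?_, fun n hn x y => ?_⟩
  · have h := sum_le hFA3 hFB2 hFB3 V H hH d hd hd1 a ha hda hS n {x} {y}
    simpa using h
  · obtain ⟨m, rfl⟩ : ∃ m, n = m + 2 := ⟨n - 2, by omega⟩
    have h := sum_le hFA3 hFB2 hFB3 V H hH d hd hd1 a ha hda hS m (nb H x) (nb H y)
    rw [hd x, hd y] at h
    have h4 := hFA4 V H hH d hd m x y
    have hs : √(d : ℝ) * √(d : ℝ) = d := Real.mul_self_sqrt (Nat.cast_nonneg d)
    have e1 : 2 * ((m : ℝ) + 1) * a ^ m * √(d : ℝ) * √(d : ℝ) =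
        2 * ((m : ℝ) + 1) * d * a ^ m := by
      calc 2 * ((m : ℝ) + 1) * a ^ m * √(d : ℝ) * √(d : ℝ)
          = 2 * ((m : ℝ) + 1) * a ^ m * (√(d : ℝ) * √(d : ℝ)) := by ring
        _ = 2 * ((m : ℝ) + 1) * d * a ^ m := by rw [hs]; ring
    have e2 : m + 2 - 2 = m := by omega
    rw [e2]
    have e3 : 2 * ((m : ℝ) + 1) * d * a ^ m ≤ 2 * (((m + 2 : ℕ) : ℝ) + 1) * d * a ^ m := by
      have hp : (0 : ℝ) ≤ d * a ^ m := by positivity
      push_cast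
      nlinarith
    calc NW H (m + 2) x y ≤ ∑ z ∈ nb H x, ∑ z' ∈ nb H y, NW H m z z' := h4
      _ ≤ 2 * ((m : ℝ) + 1) * a ^ m * √(d : ℝ) * √(d : ℝ) := h
      _ = 2 * ((m : ℝ) + 1) * d * a ^ m := e1
      _ ≤ _ := e3

end Pool.Agent.Work.MP_c58d8b_pr.FC
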