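import Pool.Agent.Work.MP_c58d8b_pr.FC.Stmts

/-!
# MP_c58d8b_pr, block FC, item FC2
-/

set_option autoImplicit false

namespace Pool.Agent.Work.MP_c58d8b_pr.FC

open Pool.Agent.Work.MP_c58d8b_pr.SO
open MeasureTheory ProbabilityTheory Set
open scoped ENNReal unitInterval Classical

universe u

namespace IX_FC2

/-- the difference `s_(n+1) - α s_n` -/
theorem diff (e α γ : ℝ) (h : α * γ = e - 1) (n : ℕ) :
    (qp e (n + 2)).eval (α + γ) - α * (qp e (n + 1)).eval (α + γ) = γ ^ n * (γ ^ 2 - 1) := by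
  induction n with
  | zero =>
    have h2 : (qp e 2).eval (α + γ) = (α + γ) ^ 2 - e := by
      simp [qp]
    have h1 : (qp e 1).eval (α + γ) = α + γ := by
      simp [qp]
    show (qp e 2).eval (α + γ) - α * (qp e 1).eval (α + γ) = γ ^ 0 * (γ ^ 2 - 1)
    rw [h2, h1]
    linear_combination h
  | succ n ih =>
    have h3 : (qp e (n + 3)).eval (α + γ) = (α + γ) * (qp e (n + 2)).eval (α + γ) -
        (e - 1) * (qp e (n + 1)).eval (α + γ) := by
      simp [qp]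
    show (qp e (n + 3)).eval (α + γ) - α * (qp e (n + 2)).eval (α + γ) =
      γ ^ (n + 1) * (γ ^ 2 - 1)
    rw [h3, ← h]
    linear_combination γ * ih

theorem step (e α γ : ℝ) (h : α * γ = e - 1) (hγ : 0 ≤ γ) (n : ℕ) :
    (qp e (n + 1)).eval (α + γ) ≤ α * (qp e n).eval (α + γ) + γ ^ (n + 1) := by
  rcases n with _ | n
  · have h1 : (qp e 1).eval (α + γ) = α + γ := by
      simp [qp]
    have h0 : (qp e 0).eval (α + γ) = 1 := by
      simp [qp]
    show (qp e 1).eval (α + γ) ≤ α * (qp e 0).eval (α + γ) + γ ^ (0 + 1)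
    rw [h1, h0, zero_add, pow_one, mul_one]
  · have h1 := diff e α γ h n
    have h2 : 0 ≤ γ ^ n := pow_nonneg hγ n
    have h3 : γ ^ n * (γ ^ 2 - 1) ≤ γ ^ (n + 2) := by
      have : γ ^ (n + 2) = γ ^ n * γ ^ 2 := by ring
      rw [this]
      nlinarith
    show (qp e (n + 2)).eval (α + γ) ≤ α * (qp e (n + 1)).eval (α + γ) + γ ^ (n + 1 + 1)
    have h4 : γ ^ (n + 1 + 1) = γ ^ (n + 2) := rfl
    rw [h4]
    linarith

theorem bound (e α γ x : ℝ) (h : α * γ = e - 1) (hγ : 0 ≤ γ) (hα : 0 < α) (hx : γ ≤ x * α)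
    (n : ℕ) : (qp e n).eval (α + γ) ≤ α ^ n * ∑ j ∈ Finset.range (n + 1), x ^ j := by
  induction n with
  | zero =>
    simp [qp]
  | succ n ih =>
    have h1 := step e α γ h hγ n
    have h2 : γ ^ (n + 1) ≤ (x * α) ^ (n + 1) := pow_le_pow_left₀ hγ hx _
    have h3 : α * (qp e n).eval (α + γ) ≤ α * (α ^ n * ∑ j ∈ Finset.range (n + 1), x ^ j) :=
      mul_le_mul_of_nonneg_left ih hα.le
    rw [Finset.sum_range_succ]
    have h4 : α ^ (n + 1) * (∑ j ∈ Finset.range (n + 1), x ^ j + x ^ (n + 1)) =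
        α * (α ^ n * ∑ j ∈ Finset.range (n + 1), x ^ j) + (x * α) ^ (n + 1) := by
      rw [mul_pow]
      ring
    rw [h4]
    linarith

end IX_FC2

open IX_FC2 in
/-- Item FC2. -/
theorem pr_FC2 : StFC2 := by
  intro d α b hd hb hb1 hα hle n
  have hγ : (0 : ℝ) ≤ ((d : ℝ) - 1) / α := by
    have : (1 : ℝ) ≤ d := by exact_mod_cast hd
    exact div_nonneg (by linarith) hα.le
  have h : α * (((d : ℝ) - 1) / α) = (d : ℝ) - 1 := mul_div_cancel₀ _ hα.ne'
  have hx : ((d : ℝ) - 1) / α ≤ b ^ 4 * α := by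
    rw [div_le_iff₀ hα]
    linarith [hle, (by ring : b ^ 4 * α * α = b ^ 4 * α ^ 2)]
  have hb4 : b ^ 4 < 1 := pow_lt_one₀ hb.le hb1 (by norm_num)
  have h1 := bound (d : ℝ) α (((d : ℝ) - 1) / α) (b ^ 4) h hγ hα hx n
  refine h1.trans ?_
  rw [div_eq_mul_inv]
  refine mul_le_mul_of_nonneg_left ?_ (pow_nonneg hα.le n)
  rw [← one_div, le_div_iff₀ (by linarith)]
  have h2 : (∑ j ∈ Finset.range (n + 1), (b ^ 4) ^ j) * (1 - b ^ 4) = 1 - (b ^ 4) ^ (n + 1) := by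
    have := geom_sum_mul (b ^ 4) (n + 1)
    linarith
  rw [h2]
  have h3 : 0 ≤ (b ^ 4) ^ (n + 1) := pow_nonneg (pow_nonneg hb.le 4) _
  linarith

end Pool.Agent.Work.MP_c58d8b_pr.FC
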