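import Pool.Agent.Work.MP_c58d8b_pr.FC.Stmts

/-!
# MP_c58d8b_pr, block FC, item FC3: one term of the cycle sum
-/

set_option autoImplicit false

namespace Pool.Agent.Work.MP_c58d8b_pr.FC

open Pool.Agent.Work.MP_c58d8b_pr.SO
open MeasureTheory ProbabilityTheory Set
open scoped ENNReal unitInterval Classical

universe u

namespace IX_FC3

theorem key (hSM : StSM.{u}) (hFA1 : StFA1.{u}) (hFB4 : StFB4.{u}) (hFC1 : StFC1.{u})
    (hFC2 : StFC2) {V : Type u} (Γ : Subgroup (Equiv.Perm V)) (H : SimpleGraph V) (hG : Good Γ H)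
    (o z : V) (b α a' : ℝ) (hd1 : 1 ≤ (nb H o).card) (hb : 0 < b) (hb1 : b < 1) (ha' : 1 ≤ a')
    (hα : 0 < α) (hda : ((nb H o).card : ℝ) - 1 ≤ a' ^ 2) (hab : a' ≤ b ^ 2 * α)
    (hσ : sig Γ H o = α + (((nb H o).card : ℝ) - 1) / α)
    (hSp : Sp H (a' + (((nb H o).card : ℝ) - 1) / a')) (i j : ℕ) (hij : i ≤ j)
    (hj : 2 ≤ j) (F : Finset V) :
    ∑ y ∈ F, √(weight Γ y o) * (NW H j z y * NW H i z y) ≤
      √(weight Γ z o) * (2 / (1 - b ^ 4) * ((i + j : ℕ) + 1) * (b ^ (i + j) / b ^ 4) *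
        ((nb H o).card / α ^ 2) * α ^ (i + j)) := by
  have hreg : ∀ x, (nb H x).card = (nb H o).card := fun x => (hSM V Γ H hG o x).1
  have h1 := (hFB4 V H hG.lf (nb H o).card hreg hd1 a' ha' hda hSp).2 j hj
  have hnn := (hFA1 V H hG.lf).1
  set d : ℝ := ((nb H o).card : ℝ) with hd
  have hd0 : 0 ≤ d := Nat.cast_nonneg _
  have ha0 : 0 ≤ a' := by linarith
  have hb4 : 0 < 1 - b ^ 4 := by
    have : b ^ 4 < 1 := pow_lt_one₀ hb.le hb1 (by norm_num)
    linarith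
  have hdb : d - 1 ≤ b ^ 4 * α ^ 2 := by
    calc d - 1 ≤ a' ^ 2 := hda
      _ ≤ (b ^ 2 * α) ^ 2 := by gcongr
      _ = b ^ 4 * α ^ 2 := by ring
  have hq : (qp d i).eval (sig Γ H o) ≤ α ^ i / (1 - b ^ 4) := by
    rw [hσ]
    exact hFC2 (nb H o).card α b hd1 hb hb1 hα hdb i
  have hw : 0 ≤ √(weight Γ z o) := Real.sqrt_nonneg _
  have hsum : ∑ y ∈ F, √(weight Γ y o) * NW H i z y ≤ √(weight Γ z o) * (α ^ i / (1 - b ^ 4)) :=
    (hFC1 V Γ H hG o z i F).trans (mul_le_mul_of_nonneg_left hq hw)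
  have hJ : ∀ y, NW H j z y ≤ 2 * (((i + j : ℕ) : ℝ) + 1) * d * (b ^ 2 * α) ^ (j - 2) := by
    intro y
    refine (h1 z y).trans ?_
    have e1 : (j : ℝ) ≤ ((i + j : ℕ) : ℝ) := by
      push_cast
      linarith [Nat.cast_nonneg (α := ℝ) i]
    gcongr
  have hC : 0 ≤ 2 * (((i + j : ℕ) : ℝ) + 1) * d * (b ^ 2 * α) ^ (j - 2) := by positivity
  calc ∑ y ∈ F, √(weight Γ y o) * (NW H j z y * NW H i z y)
      ≤ ∑ y ∈ F, (2 * (((i + j : ℕ) : ℝ) + 1) * d * (b ^ 2 * α) ^ (j - 2)) *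
          (√(weight Γ y o) * NW H i z y) := by
        refine Finset.sum_le_sum fun y _ => ?_
        have h2 : 0 ≤ √(weight Γ y o) * NW H i z y :=
          mul_nonneg (Real.sqrt_nonneg _) (hnn i z y)
        calc √(weight Γ y o) * (NW H j z y * NW H i z y)
            = NW H j z y * (√(weight Γ y o) * NW H i z y) := by ring
          _ ≤ _ := mul_le_mul_of_nonneg_right (hJ y) h2
    _ = (2 * (((i + j : ℕ) : ℝ) + 1) * d * (b ^ 2 * α) ^ (j - 2)) *
          ∑ y ∈ F, √(weight Γ y o) * NW H i z y := by rw [Finset.mul_sum]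
    _ ≤ (2 * (((i + j : ℕ) : ℝ) + 1) * d * (b ^ 2 * α) ^ (j - 2)) *
          (√(weight Γ z o) * (α ^ i / (1 - b ^ 4))) := mul_le_mul_of_nonneg_left hsum hC
    _ = b ^ (2 * (j - 2)) * (√(weight Γ z o) * (2 / (1 - b ^ 4) * (((i + j : ℕ) : ℝ) + 1) *
          (d / α ^ 2) * α ^ (i + j))) := by
        have e2 : α ^ (i + j) = α ^ (j - 2) * α ^ i * α ^ 2 := by
          rw [← pow_add, ← pow_add]
          congr 1
          omega
        rw [e2, mul_pow, ← pow_mul]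
        field_simp
    _ ≤ (b ^ (i + j) / b ^ 4) * (√(weight Γ z o) * (2 / (1 - b ^ 4) * (((i + j : ℕ) : ℝ) + 1) *
          (d / α ^ 2) * α ^ (i + j))) := by
        refine mul_le_mul_of_nonneg_right ?_ (by positivity)
        rw [le_div_iff₀ (pow_pos hb 4), ← pow_add]
        exact pow_le_pow_of_le_one hb.le hb1.le (by omega)
    _ = _ := by ring

end IX_FC3

open IX_FC3

theorem pr_FC3 (hSM : StSM.{u}) (hFA1 : StFA1.{u}) (hFA3 : StFA3.{u}) (hFB4 : StFB4.{u})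
    (hFC1 : StFC1.{u}) (hFC2 : StFC2) : StFC3.{u} := by
  intro V Γ H hG o z b α a' hd1 hb hb1 ha' hα hda hab hσ hSp n hn i hi F
  have hreg : ∀ x, (nb H x).card = (nb H o).card := fun x => (hSM V Γ H hG o x).1
  have hsym := (hFA3 V H hG.lf _ hreg).2.2
  by_cases h : n - i ≤ i
  · have h1 := key hSM hFA1 hFB4 hFC1 hFC2 Γ H hG o z b α a' hd1 hb hb1 ha' hα hda hab hσ hSp
      (n - i) i h (by omega) F
    rw [show n - i + i = n by omega] at h1
    refine le_trans (le_of_eq ?_) h1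
    refine Finset.sum_congr rfl fun y _ => ?_
    rw [hsym i y z]
  · have h1 := key hSM hFA1 hFB4 hFC1 hFC2 Γ H hG o z b α a' hd1 hb hb1 ha' hα hda hab hσ hSp
      i (n - i) (by omega) (by omega) F
    rw [show i + (n - i) = n by omega] at h1
    refine le_trans (le_of_eq ?_) h1
    refine Finset.sum_congr rfl fun y _ => ?_
    rw [hsym i y z]
    ring

end Pool.Agent.Work.MP_c58d8b_pr.FC
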