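import Pool.Agent.Work.MP_c58d8b_pr.FC.Stmts

/-!
# MP_c58d8b_pr, block FC, item FC4: the cycle term of the test function
-/

set_option autoImplicit false

namespace Pool.Agent.Work.MP_c58d8b_pr.FC

open Pool.Agent.Work.MP_c58d8b_pr.SO
open MeasureTheory ProbabilityTheory Set
open scoped ENNReal unitInterval Classical

universe u

namespace IX_FC4

/-- the truncated parabola is Lipschitz with constant `2 L` -/
theorem par_lip (L s t : ℝ) (hL : 0 < L) :
    max (L ^ 2 - s ^ 2) 0 ≤ max (L ^ 2 - t ^ 2) 0 + 2 * L * |s - t| := by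
  have h0 : 0 ≤ 2 * L * |s - t| := by positivity
  have h1 : 0 ≤ max (L ^ 2 - t ^ 2) 0 := le_max_right _ _
  apply max_le _ (by linarith)
  rcases le_or_gt L |s| with hs | hs
  · have h2 : L ^ 2 ≤ s ^ 2 := by
      rw [← sq_abs s]
      exact pow_le_pow_left₀ hL.le hs 2
    linarith
  · rcases le_or_gt |t| L with ht | ht
    · have h2 : L ^ 2 - t ^ 2 ≤ max (L ^ 2 - t ^ 2) 0 := le_max_left _ _
      have h3 : t ^ 2 - s ^ 2 ≤ 2 * L * |s - t| := by
        have h4 : t ^ 2 - s ^ 2 = (t - s) * (t + s) := by ring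
        have h5 : (t - s) * (t + s) ≤ |t - s| * |t + s| := by
          rw [← abs_mul]
          exact le_abs_self _
        have h6 : |t + s| ≤ 2 * L := by
          have := abs_add_le t s
          linarith
        have h7 : |t - s| = |s - t| := abs_sub_comm t s
        rw [h4]
        calc (t - s) * (t + s) ≤ |t - s| * |t + s| := h5
          _ ≤ |t - s| * (2 * L) := mul_le_mul_of_nonneg_left h6 (abs_nonneg _)
          _ = 2 * L * |s - t| := by rw [h7]; ring
      linarith
    · have h2 : L - |s| ≤ |s - t| := by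
        have h3 : |t| - |s| ≤ |t - s| := abs_sub_abs_le_abs_sub t s
        rw [abs_sub_comm t s] at h3
        linarith
      have h4 : L ^ 2 - s ^ 2 = (L - |s|) * (L + |s|) := by
        rw [← sq_abs s]; ring
      have h5 : (L - |s|) * (L + |s|) ≤ |s - t| * (2 * L) := by
        apply mul_le_mul h2 (by linarith) (by linarith [abs_nonneg s]) (abs_nonneg _)
      nlinarith

end IX_FC4

theorem pr_FC4 (hW : WeightStmt.{u}) (hWB : StWB.{u}) (hFA1 : StFA1.{u}) (hFC3 : StFC3.{u}) :
    StFC4.{u} := by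
  intro V Γ H hG o z b α a' t a L K g hd1 hb hb1 ha' hα hda haa hsig hSp ht ha hL hg hna hK S
  obtain ⟨hW0, hW1, hW2⟩ := hW V H Γ hG.conn hG.lf hG.pres
  obtain ⟨wb1, -⟩ := hWB V H hG.lf
  obtain ⟨fa1, -⟩ := hFA1 V H hG.lf
  have hFCz := hFC3 V Γ H hG o z b α a' hd1 hb hb1 ha' hα hda haa hsig hSp
  -- one step
  have step : ∀ x u, H.Adj x u →
      |Real.log (weight Γ x o) - Real.log (weight Γ u o)| ≤ a := by
    intro x u hxu
    obtain ⟨γ, hγ, hγx⟩ := hG.tr u o
    have h1 : weight Γ x u = weight Γ (γ x) o := by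
      rw [← hW1 γ hγ x u, hγx]
    have h2 : γ x ∈ nb H o := by
      rw [wb1, ← hγx]
      exact ((hG.pres γ hγ u x).2 hxu.symm)
    have h3 := hna _ h2
    rw [← h1] at h3
    have h4 : Real.log (weight Γ x o) =
        Real.log (weight Γ x u) + Real.log (weight Γ u o) := by
      rw [← hW2 x u o, Real.log_mul (hW0 _ _).ne' (hW0 _ _).ne']
    rw [h4]
    have h5 : Real.log (weight Γ x u) + Real.log (weight Γ u o) - Real.log (weight Γ u o) =
        Real.log (weight Γ x u) := by ring
    rw [h5]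
    exact h3
  have step2 : ∀ (m : ℕ) (x u y : V), u ∈ nb H x →
      |Real.log (weight Γ u o) - Real.log (weight Γ y o)| ≤ a * m →
      |Real.log (weight Γ x o) - Real.log (weight Γ y o)| ≤ a * (m + 1 : ℕ) := by
    intro m x u y hu h3
    have h2 := step x u ((wb1 x u).1 hu)
    have h4 : Real.log (weight Γ x o) - Real.log (weight Γ y o) =
        (Real.log (weight Γ x o) - Real.log (weight Γ u o)) +
        (Real.log (weight Γ u o) - Real.log (weight Γ y o)) := by ring
    rw [h4]
    have h5 := abs_add_le (Real.log (weight Γ x o) - Real.log (weight Γ u o))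
      (Real.log (weight Γ u o) - Real.log (weight Γ y o))
    push_cast
    linarith
  have walkF : ∀ (m : ℕ) (v x y : V), NF H m v x y ≠ 0 →
      |Real.log (weight Γ x o) - Real.log (weight Γ y o)| ≤ a * m := by
    intro m
    induction m with
    | zero =>
      intro v x y h
      have hxy : x = y := by
        by_contra hne
        apply h
        simp [NF, hne]
      rw [hxy]
      simp
    | succ m ih =>
      intro v x y h
      have h1 : ∃ u ∈ (nb H x).erase v, NF H m x u y ≠ 0 := by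
        by_contra hcon
        push Not at hcon
        apply h
        change ∑ u ∈ (nb H x).erase v, NF H m x u y = 0
        exact Finset.sum_eq_zero hcon
      obtain ⟨u, hu, hu2⟩ := h1
      exact step2 m x u y (Finset.mem_of_mem_erase hu) (ih x u y hu2)
  have walk : ∀ (m : ℕ) (x y : V), NW H m x y ≠ 0 →
      |Real.log (weight Γ x o) - Real.log (weight Γ y o)| ≤ a * m := by
    intro m x y h
    rcases m with _ | m
    · have hxy : x = y := by
        by_contra hne
        apply h
        simp [NW, hne]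
      rw [hxy]
      simp
    · have h1 : ∃ u ∈ nb H x, NF H m x u y ≠ 0 := by
        by_contra hcon
        push Not at hcon
        apply h
        change ∑ u ∈ nb H x, NF H m x u y = 0
        exact Finset.sum_eq_zero hcon
      obtain ⟨u, hu, hu2⟩ := h1
      exact step2 m x u y hu (walkF m x u y hu2)
  set gz : ℝ := max (L ^ 2 - Real.log (weight Γ z o) ^ 2) 0 with hgz
  have hgz0 : 0 ≤ gz := le_max_right _ _
  set d : ℝ := ((nb H o).card : ℝ) with hd
  have hd0 : 0 ≤ d := Nat.cast_nonneg _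
  have hsz : 0 ≤ √(weight Γ z o) := Real.sqrt_nonneg _
  have hb4 : 0 < 1 - b ^ 4 := by
    have : b ^ 4 < 1 := pow_lt_one₀ hb.le hb1 (by norm_num)
    linarith
  -- the key inequality
  have key : ∀ (n i : ℕ), i ≤ n → ∀ y, tf Γ o L y * NW H i y z * NW H (n - i) z y ≤
      (gz + L * a * n) * (√(weight Γ y o) * (NW H i y z * NW H (n - i) z y)) := by
    intro n i hi y
    by_cases h0 : NW H i y z * NW H (n - i) z y = 0
    · have : tf Γ o L y * NW H i y z * NW H (n - i) z y =
          tf Γ o L y * (NW H i y z * NW H (n - i) z y) := by ring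
      rw [this, h0]
      simp
    · have h1 : NW H i y z ≠ 0 := left_ne_zero_of_mul h0
      have h2 : NW H (n - i) z y ≠ 0 := right_ne_zero_of_mul h0
      have h3 := walk i y z h1
      have h4 := walk (n - i) z y h2
      rw [abs_sub_comm] at h4
      have h5 : ((n - i : ℕ) : ℝ) = (n : ℝ) - i := by
        rw [Nat.cast_sub hi]
      rw [h5] at h4
      have h6 : |Real.log (weight Γ y o) - Real.log (weight Γ z o)| ≤ a * n / 2 := by
        linarith
      have h7 := IX_FC4.par_lip L (Real.log (weight Γ y o)) (Real.log (weight Γ z o)) hL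
      have h8 : 2 * L * |Real.log (weight Γ y o) - Real.log (weight Γ z o)| ≤
          L * a * n := by
        have := mul_le_mul_of_nonneg_left h6 (by positivity : (0 : ℝ) ≤ 2 * L)
        linarith
      have h9 : max (L ^ 2 - Real.log (weight Γ y o) ^ 2) 0 ≤ gz + L * a * n := by
        rw [hgz]
        linarith
      have h10 : 0 ≤ √(weight Γ y o) * (NW H i y z * NW H (n - i) z y) :=
        mul_nonneg (Real.sqrt_nonneg _) (mul_nonneg (fa1 _ _ _) (fa1 _ _ _))
      have h11 : tf Γ o L y * NW H i y z * NW H (n - i) z y =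
          max (L ^ 2 - Real.log (weight Γ y o) ^ 2) 0 *
            (√(weight Γ y o) * (NW H i y z * NW H (n - i) z y)) := by
        unfold tf
        ring
      rw [h11]
      exact mul_le_mul_of_nonneg_right h9 h10
  -- one value of `n`
  have term : ∀ n : ℕ, 3 ≤ n → (t / α) ^ n * ∑ i ∈ Finset.Icc 1 n, ∑ y ∈ S,
      tf Γ o L y * NW H i y z * NW H (n - i) z y ≤
      √(weight Γ z o) * (d / α ^ 2) * (gz + L * a) *
        (2 / (1 - b ^ 4) * ((n : ℝ) + 1) * (n : ℝ) ^ 2 * (t * b) ^ n / b ^ 4) := by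
    intro n hn
    have hn1 : (1 : ℝ) ≤ n := by exact_mod_cast (by omega : 1 ≤ n)
    have h1 : ∀ i ∈ Finset.Icc 1 n, ∑ y ∈ S, tf Γ o L y * NW H i y z * NW H (n - i) z y ≤
        (gz + L * a * n) * (√(weight Γ z o) * (2 / (1 - b ^ 4) * (n + 1) * (b ^ n / b ^ 4) *
          (d / α ^ 2) * α ^ n)) := by
      intro i hi
      have hi2 : i ≤ n := (Finset.mem_Icc.1 hi).2
      calc ∑ y ∈ S, tf Γ o L y * NW H i y z * NW H (n - i) z y
          ≤ ∑ y ∈ S, (gz + L * a * n) * (√(weight Γ y o) * (NW H i y z * NW H (n - i) z y)) :=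
            Finset.sum_le_sum fun y _ => key n i hi2 y
        _ = (gz + L * a * n) * ∑ y ∈ S, √(weight Γ y o) * (NW H i y z * NW H (n - i) z y) := by
            rw [Finset.mul_sum]
        _ ≤ _ := mul_le_mul_of_nonneg_left (hFCz n hn i hi2 S) (by positivity)
    have h2 : ∑ i ∈ Finset.Icc 1 n, ∑ y ∈ S, tf Γ o L y * NW H i y z * NW H (n - i) z y ≤
        n * ((gz + L * a * n) * (√(weight Γ z o) * (2 / (1 - b ^ 4) * (n + 1) *
          (b ^ n / b ^ 4) * (d / α ^ 2) * α ^ n))) := by
      have h3 := Finset.sum_le_card_nsmul (Finset.Icc 1 n) _ _ h1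
      rw [Nat.card_Icc, Nat.add_sub_cancel, nsmul_eq_mul] at h3
      exact h3
    have h4 : (t / α) ^ n * α ^ n = t ^ n := by
      rw [← mul_pow, div_mul_cancel₀ _ hα.ne']
    have hp0 : 0 ≤ (t / α) ^ n := by positivity
    have hc0 : 0 ≤ 2 / (1 - b ^ 4) := by positivity
    calc (t / α) ^ n * ∑ i ∈ Finset.Icc 1 n, ∑ y ∈ S,
          tf Γ o L y * NW H i y z * NW H (n - i) z y
        ≤ (t / α) ^ n * (n * ((gz + L * a * n) *
          (√(weight Γ z o) * (2 / (1 - b ^ 4) * (n + 1) *
          (b ^ n / b ^ 4) * (d / α ^ 2) * α ^ n)))) :=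
          mul_le_mul_of_nonneg_left h2 hp0
      _ = ((t / α) ^ n * α ^ n) * (n * (gz + L * a * n)) *
          (√(weight Γ z o) * (2 / (1 - b ^ 4) * (n + 1) *
          (b ^ n / b ^ 4) * (d / α ^ 2))) := by ring
      _ = (n * (gz + L * a * n)) *
          (√(weight Γ z o) * (d / α ^ 2) * (2 / (1 - b ^ 4) * (n + 1) *
            ((t * b) ^ n / b ^ 4))) := by
          rw [h4, mul_pow]; ring
      _ ≤ ((n : ℝ) ^ 2 * (gz + L * a)) *
          (√(weight Γ z o) * (d / α ^ 2) * (2 / (1 - b ^ 4) * (n + 1) *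
            ((t * b) ^ n / b ^ 4))) := by
          apply mul_le_mul_of_nonneg_right _ (by positivity)
          have h7 : (n : ℝ) * gz ≤ (n : ℝ) ^ 2 * gz := by
            apply mul_le_mul_of_nonneg_right _ hgz0
            nlinarith
          nlinarith
      _ = √(weight Γ z o) * (d / α ^ 2) * (gz + L * a) *
          (2 / (1 - b ^ 4) * ((n : ℝ) + 1) * (n : ℝ) ^ 2 * (t * b) ^ n / b ^ 4) := by ring
  have hC : 0 ≤ √(weight Γ z o) * (d / α ^ 2) * (gz + L * a) := by positivity
  calc Rn H (t / α) g S (tf Γ o L) z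
      ≤ ∑ n ∈ Finset.Icc g S.card, √(weight Γ z o) * (d / α ^ 2) * (gz + L * a) *
          (2 / (1 - b ^ 4) * ((n : ℝ) + 1) * (n : ℝ) ^ 2 * (t * b) ^ n / b ^ 4) := by
        unfold Rn
        exact Finset.sum_le_sum fun n hn => term n (hg.trans (Finset.mem_Icc.1 hn).1)
    _ = √(weight Γ z o) * (d / α ^ 2) * (gz + L * a) *
          ∑ n ∈ Finset.Icc g S.card,
            (2 / (1 - b ^ 4) * ((n : ℝ) + 1) * (n : ℝ) ^ 2 * (t * b) ^ n / b ^ 4) := by
        rw [Finset.mul_sum]
    _ ≤ √(weight Γ z o) * (d / α ^ 2) * (gz + L * a) * K :=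
        mul_le_mul_of_nonneg_left (hK _) hC
    _ = √(weight Γ z o) * (d / α ^ 2) * K * (gz + L * a) := by ring

end Pool.Agent.Work.MP_c58d8b_pr.FC
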