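import Pool.Agent.Work.MP_c58d8b_pr.FC.Stmts

/-! Block FC, item FC5: the test function satisfies the hypothesis of `StFM6`. -/

set_option autoImplicit false

namespace Pool.Agent.Work.MP_c58d8b_pr.FC

open Pool.Agent.Work.MP_c58d8b_pr.SO
open MeasureTheory ProbabilityTheory Set
open scoped ENNReal unitInterval Classical

universe u

theorem pr_FC5 (hW : WeightStmt.{u}) (hWB : StWB.{u}) (hSM : StSM.{u}) (hGA : StGA.{u})
    (hFC4 : StFC4.{u}) : StFC5.{u} := by
  intro V Γ H hG o b α a' t a L K mu g hd hb0 hb1 ha'1 hα hda' ha'b hsigα hSp ht htα ha hL hmu hg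
    hbd hKN hcon1 hcon2 z hz S
  obtain ⟨hw0, hwγ, hwm⟩ := hW V H Γ hG.conn hG.lf hG.pres
  obtain ⟨hnb, -, -, -, -⟩ := hWB V H hG.lf
  obtain ⟨hcard, hsum1, hsum2, hsum3⟩ := hSM V Γ H hG o z
  have hd1 : (1 : ℝ) ≤ ((nb H o).card : ℝ) := by exact_mod_cast hd
  have hsig : 0 < sig Γ H o := by
    rw [hsigα]
    have : 0 ≤ (((nb H o).card : ℝ) - 1) / α := div_nonneg (by linarith) hα.le
    linarith
  have hR := hFC4 V Γ H hG o z b α a' t a L K g hd hb0 hb1 ha'1 hα hda' ha'b hsigα hSp ht ha hL hg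
    hbd hKN S
  have hK : 0 ≤ K := by
    have h1 := hKN 0
    have h2 : Finset.Icc g 0 = ∅ := Finset.Icc_eq_empty (by omega)
    rw [h2, Finset.sum_empty] at h1
    exact h1
  clear hKN hSp hda' ha'b hsigα
  set sg : ℝ := sig Γ H o with hsgd
  set W : ℝ := weight Γ z o with hWdef
  set s : ℝ := Real.log W with hs
  set r : ℝ := ((nb H o).card : ℝ) / α ^ 2 with hr
  set P : ℝ := t / α with hP
  set m : ℝ := mom Γ H o / sg with hm
  have hP0 : 0 < P := div_pos ht hα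
  have hP2 : P ^ 2 ≤ 1 := pow_le_one₀ hP0.le htα
  have hP20 : 0 ≤ P ^ 2 := by positivity
  obtain ⟨lam, hlamd⟩ : ∃ lam : ℝ, lam = P * sg := ⟨_, rfl⟩
  have hlam : 0 < lam := by rw [hlamd]; exact mul_pos hP0 hsig
  rw [← hlamd] at hcon1 hcon2
  have hW0 : 0 < W := hw0 z o
  have hrW : 0 < √W := Real.sqrt_pos.2 hW0
  have hr0 : 0 ≤ r := by positivity
  have hsL : |s| < L := hz
  have hg0 : 0 ≤ L ^ 2 - s ^ 2 := by
    have := (sq_lt_sq₀ (abs_nonneg s) hL.le).2 hsL
    rw [sq_abs] at this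
    linarith
  have hgmax : max (L ^ 2 - s ^ 2) 0 = L ^ 2 - s ^ 2 := max_eq_left hg0
  -- bound of the steps
  have hva : ∀ y ∈ nb H z, |Real.log (weight Γ y z)| ≤ a := by
    intro y hy
    obtain ⟨γ, hγ, hγz⟩ := hG.tr z o
    have hadj : H.Adj z y := (hnb z y).1 hy
    have hadj' : H.Adj o (γ y) := by
      have := (hG.pres γ hγ z y).2 hadj
      rwa [hγz] at this
    have h1 := hbd (γ y) ((hnb o (γ y)).2 hadj')
    have h2 := hwγ γ hγ y z
    rw [hγz] at h2
    rwa [h2] at h1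
  have hm0 : 0 ≤ m := by
    rw [hm]
    refine div_nonneg ?_ hsig.le
    unfold mom
    exact Finset.sum_nonneg fun y _ => mul_nonneg (Real.sqrt_nonneg _) (abs_nonneg _)
  -- mu'
  set mu' : ℝ := lam - 1 - P ^ 2 * (((nb H o).card : ℝ) - 1) - r * K with hmu'
  have hmumu : mu ≤ mu' := by rw [hmu']; linarith
  have hmu'lam : mu' ≤ lam := by
    rw [hmu']
    have h1 : 0 ≤ P ^ 2 * (((nb H o).card : ℝ) - 1) := mul_nonneg hP20 (by linarith)
    have h2 : 0 ≤ r * K := mul_nonneg hr0 hK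
    linarith
  -- the distribution
  have hq0 : ∀ j ∈ nb H z, 0 ≤ √(weight Γ j z) / sg := fun j _ =>
    div_nonneg (Real.sqrt_nonneg _) hsig.le
  have hq1 : ∑ j ∈ nb H z, √(weight Γ j z) / sg = 1 := by
    rw [← Finset.sum_div, hsum1]
    exact div_self hsig.ne'
  have hqv : ∑ j ∈ nb H z, √(weight Γ j z) / sg * Real.log (weight Γ j z) = 0 := by
    have : ∀ j ∈ nb H z, √(weight Γ j z) / sg * Real.log (weight Γ j z) =
        (√(weight Γ j z) * Real.log (weight Γ j z)) / sg := fun j _ => by ring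
    rw [Finset.sum_congr rfl this, ← Finset.sum_div, hsum3, zero_div]
  have hqm : ∑ j ∈ nb H z, √(weight Γ j z) / sg * |Real.log (weight Γ j z)| = m := by
    have : ∀ j ∈ nb H z, √(weight Γ j z) / sg * |Real.log (weight Γ j z)| =
        (√(weight Γ j z) * |Real.log (weight Γ j z)|) / sg := fun j _ => by ring
    rw [Finset.sum_congr rfl this, ← Finset.sum_div, hsum2]
  have hA := hGA V (nb H z) (fun y => √(weight Γ y z) / sg) (fun y => Real.log (weight Γ y z)) a L s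
    lam mu' hq0 hq1 hqv hva hL hsL.le (hmu.le.trans hmumu) hmu'lam
  simp only [hqm] at hA
  -- the sum over the neighbours
  have hN : P * ∑ y ∈ nb H z, tf Γ o L y = √W * (lam * ∑ j ∈ nb H z,
      √(weight Γ j z) / sg * max (L ^ 2 - (s + Real.log (weight Γ j z)) ^ 2) 0) := by
    have hPl : P = lam / sg := by rw [hlamd]; field_simp
    rw [hPl, Finset.mul_sum, Finset.mul_sum, Finset.mul_sum]
    refine Finset.sum_congr rfl fun y _ => ?_
    unfold tf
    have h1 : weight Γ y o = weight Γ y z * W := (hwm y z o).symm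
    have h2 : Real.log (weight Γ y o) = s + Real.log (weight Γ y z) := by
      rw [h1, Real.log_mul (hw0 y z).ne' hW0.ne']
      ring
    rw [h2, h1, Real.sqrt_mul (hw0 y z).le]
    ring
  have htf : tf Γ o L z = √W * (L ^ 2 - s ^ 2) := by
    unfold tf
    rw [← hWdef, ← hs, hgmax]
  have hR' : Rn H P g S (tf Γ o L) z ≤ √W * r * K * ((L ^ 2 - s ^ 2) + L * a) := by
    rw [← hgmax]
    exact hR
  have hX0 : 0 ≤ √W * r * K * ((L ^ 2 - s ^ 2) + L * a) := by
    have : 0 ≤ L * a := mul_nonneg hL.le ha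
    positivity
  have hR'' : (1 - P ^ 2) * Rn H P g S (tf Γ o L) z ≤
      √W * r * K * ((L ^ 2 - s ^ 2) + L * a) := by
    calc (1 - P ^ 2) * Rn H P g S (tf Γ o L) z
        ≤ (1 - P ^ 2) * (√W * r * K * ((L ^ 2 - s ^ 2) + L * a)) :=
          mul_le_mul_of_nonneg_left hR' (by linarith)
      _ ≤ 1 * (√W * r * K * ((L ^ 2 - s ^ 2) + L * a)) :=
          mul_le_mul_of_nonneg_right (by linarith) hX0
      _ = _ := one_mul _
  rw [hN, hcard]
  have hfin : L * mu * m / 2 ≤ L * mu' * m / 2 := by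
    have : L * mu * m ≤ L * mu' * m :=
      mul_le_mul_of_nonneg_right (mul_le_mul_of_nonneg_left hmumu hL.le) hm0
    linarith
  have hkey : (L ^ 2 - s ^ 2) + P ^ 2 * (((nb H o).card : ℝ) - 1) * (L ^ 2 - s ^ 2) +
      r * K * ((L ^ 2 - s ^ 2) + L * a) ≤
      lam * ∑ j ∈ nb H z, √(weight Γ j z) / sg *
        max (L ^ 2 - (s + Real.log (weight Γ j z)) ^ 2) 0 := by
    refine le_trans ?_ hA
    have e1 : lam - mu' = 1 + P ^ 2 * (((nb H o).card : ℝ) - 1) + r * K := by rw [hmu']; ring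
    rw [e1]
    have e2 : r * K * L * a + lam * a * m ≤ L * mu * m / 2 := hcon2
    nlinarith [e2, hfin]
  calc (1 - P ^ 2) * (tf Γ o L z + Rn H P g S (tf Γ o L) z) +
        P ^ 2 * ((nb H o).card : ℝ) * tf Γ o L z
      = (1 - P ^ 2) * tf Γ o L z + P ^ 2 * ((nb H o).card : ℝ) * tf Γ o L z +
          (1 - P ^ 2) * Rn H P g S (tf Γ o L) z := by ring
    _ ≤ (1 - P ^ 2) * tf Γ o L z + P ^ 2 * ((nb H o).card : ℝ) * tf Γ o L z +
          √W * r * K * ((L ^ 2 - s ^ 2) + L * a) := by linarith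
    _ = √W * ((L ^ 2 - s ^ 2) + P ^ 2 * (((nb H o).card : ℝ) - 1) * (L ^ 2 - s ^ 2) +
          r * K * ((L ^ 2 - s ^ 2) + L * a)) := by rw [htf]; ring
    _ ≤ _ := mul_le_mul_of_nonneg_left hkey hrW.le

end Pool.Agent.Work.MP_c58d8b_pr.FC
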