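import Pool.Agent.Work.MP_c58d8b_pr.FC.Stmts

/-!
# MP_c58d8b_pr, block FC: item FC6
-/

set_option autoImplicit false

namespace Pool.Agent.Work.MP_c58d8b_pr.FC

open Pool.Agent.Work.MP_c58d8b_pr.SO
open MeasureTheory ProbabilityTheory Set
open scoped ENNReal unitInterval Classical

namespace IX_FC6

theorem summ (θ : ℝ) (h0 : 0 < θ) (h1 : θ < 1) (c : ℝ) :
    Summable (fun n : ℕ => c * (((n : ℝ) + 1) * (n : ℝ) ^ 2 * θ ^ n)) := by
  have hn : ‖θ‖ < 1 := by rw [Real.norm_of_nonneg h0.le]; exact h1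
  have s3 := summable_pow_mul_geometric_of_norm_lt_one (R := ℝ) 3 hn
  have s2 := summable_pow_mul_geometric_of_norm_lt_one (R := ℝ) 2 hn
  refine Summable.mul_left c ?_
  refine (s3.add s2).congr ?_
  intro n
  ring

end IX_FC6

theorem pr_FC6 : StFC6 := by
  intro b θ hb0 hb1 h0 h1
  have hb4 : b ^ 4 < 1 := pow_lt_one₀ hb0.le hb1 (by norm_num)
  have hb5 : 0 < 1 - b ^ 4 := by linarith
  have hb6 : 0 < b ^ 4 := pow_pos hb0 4
  set c : ℝ := 2 / (1 - b ^ 4) / b ^ 4 with hc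
  have hc0 : 0 < c := by rw [hc]; exact div_pos (div_pos (by norm_num) hb5) hb6
  have hs := IX_FC6.summ θ h0 h1 c
  have hnn : ∀ n : ℕ, 0 ≤ c * (((n : ℝ) + 1) * (n : ℝ) ^ 2 * θ ^ n) := fun n =>
    mul_nonneg hc0.le (mul_nonneg (mul_nonneg (by positivity) (by positivity))
      (pow_nonneg h0.le n))
  refine ⟨(∑' n : ℕ, c * (((n : ℝ) + 1) * (n : ℝ) ^ 2 * θ ^ n)) + 1, ?_, ?_⟩
  · have h5 : 0 ≤ ∑' n : ℕ, c * (((n : ℝ) + 1) * (n : ℝ) ^ 2 * θ ^ n) := tsum_nonneg hnn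
    linarith
  · intro g N
    have hle : ∀ n ∈ Finset.Icc g N,
        2 / (1 - b ^ 4) * ((n : ℝ) + 1) * (n : ℝ) ^ 2 * (θ ^ 2) ^ n / b ^ 4 ≤
          c * (((n : ℝ) + 1) * (n : ℝ) ^ 2 * θ ^ n) * θ ^ g := by
      intro n hn
      have hgn : g ≤ n := (Finset.mem_Icc.mp hn).1
      have e1 : 2 / (1 - b ^ 4) * ((n : ℝ) + 1) * (n : ℝ) ^ 2 * (θ ^ 2) ^ n / b ^ 4 =
          c * (((n : ℝ) + 1) * (n : ℝ) ^ 2 * θ ^ n) * θ ^ n := by
        have e2 : (θ ^ 2) ^ n = θ ^ n * θ ^ n := by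
          rw [← pow_mul, two_mul, pow_add]
        rw [e2, hc]
        ring
      rw [e1]
      exact mul_le_mul_of_nonneg_left (pow_le_pow_of_le_one h0.le h1.le hgn) (hnn n)
    calc ∑ n ∈ Finset.Icc g N,
          2 / (1 - b ^ 4) * ((n : ℝ) + 1) * (n : ℝ) ^ 2 * (θ ^ 2) ^ n / b ^ 4
        ≤ ∑ n ∈ Finset.Icc g N, c * (((n : ℝ) + 1) * (n : ℝ) ^ 2 * θ ^ n) * θ ^ g :=
          Finset.sum_le_sum hle
      _ = (∑ n ∈ Finset.Icc g N, c * (((n : ℝ) + 1) * (n : ℝ) ^ 2 * θ ^ n)) * θ ^ g := by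
          rw [Finset.sum_mul]
      _ ≤ ((∑' n : ℕ, c * (((n : ℝ) + 1) * (n : ℝ) ^ 2 * θ ^ n)) + 1) * θ ^ g := by
          refine mul_le_mul_of_nonneg_right ?_ (pow_nonneg h0.le g)
          have := hs.sum_le_tsum (Finset.Icc g N) (fun n _ => hnn n)
          linarith

end Pool.Agent.Work.MP_c58d8b_pr.FC
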