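import Pool.Agent.Work.MP_c58d8b_pr.FC.Stmts
import Pool.Agent.Work.MP_c58d8b_pr.SO.I_CO

/-!
# MP_c58d8b_pr, block FC, item FC7: the core
-/

set_option autoImplicit false

namespace Pool.Agent.Work.MP_c58d8b_pr.FC

open Pool.Agent.Work.MP_c58d8b_pr.SO
open MeasureTheory ProbabilityTheory Set
open scoped ENNReal unitInterval Classical

universe u

namespace IX_FC7

/-- the first numerical condition -/
theorem first {t₁ t₂ t b u mu₀ x mu : ℝ} (hb : 0 < b) (h1 : 1 < t₁) (h2 : t₁ ≤ t)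
    (h3 : t ≤ t₂) (h4 : t₂ * b < 1) (hu : 0 ≤ u) (hu4 : u ≤ b ^ 4)
    (hmu0 : mu₀ = (t₁ - 1) * (1 - b ^ 3)) (hb3 : b ^ 3 < 1) (hx : x ≤ mu₀ / 8)
    (hmu : mu = mu₀ / 2) (hmp : 0 < mu₀) : 1 + t ^ 2 * u + x + mu ≤ t * (1 + u) := by
  have e1 : t * u ≤ b ^ 3 := by
    have h5 : t * u ≤ t₂ * b ^ 4 := mul_le_mul h3 hu4 hu (by linarith)
    have h6 : t₂ * b ^ 4 = (t₂ * b) * b ^ 3 := by ring
    have h7 : (t₂ * b) * b ^ 3 ≤ 1 * b ^ 3 :=
      mul_le_mul_of_nonneg_right h4.le (by positivity)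
    linarith
  have e2 : mu₀ ≤ (t - 1) * (1 - t * u) := by
    rw [hmu0]
    exact mul_le_mul (by linarith) (by linarith) (by linarith) (by linarith)
  have e3 : (t - 1) * (1 - t * u) = t * (1 + u) - 1 - t ^ 2 * u := by ring
  linarith

end IX_FC7

theorem pr_FC7 (hB : Basics.{u}) (hW : WeightStmt.{u}) (hFC5 : StFC5.{u}) (hFC6 : StFC6)
    (hFM6 : StFM6.{u}) (hD5 : StD5.{u}) (hHV : StHV.{u}) : StFC7.{u} := by
  intro b t₁ t₂ hb hb1 ht1 ht12 htb
  have ht2 : 0 < t₂ := by linarith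
  have hb3 : b ^ 3 < 1 := pow_lt_one₀ hb.le hb1 (by norm_num)
  have hθ0 : 0 < √(t₂ * b) := Real.sqrt_pos.mpr (by positivity)
  have hθ1 : √(t₂ * b) < 1 := by
    rw [Real.sqrt_lt' one_pos]
    linarith
  have hθ2 : √(t₂ * b) ^ 2 = t₂ * b := Real.sq_sqrt (by positivity)
  obtain ⟨K, hK0, hK⟩ := hFC6 b (√(t₂ * b)) hb hb1 hθ0 hθ1
  obtain ⟨mu₀, hmu₀⟩ : ∃ m : ℝ, m = (t₁ - 1) * (1 - b ^ 3) := ⟨_, rfl⟩
  have hmp : 0 < mu₀ := by
    rw [hmu₀]
    exact mul_pos (by linarith) (by linarith)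
  refine ⟨mu₀ / (32 * K), √(t₂ * b), by positivity, hθ0, hθ1, ?_⟩
  intro V Γ H hG o a α a' g hg hgirth hdeg ha ha' hα hda' ha'b hσ hSp hna hd hda p' hp'
  obtain ⟨θ, hθ⟩ : ∃ x : ℝ, x = √(t₂ * b) := ⟨_, rfl⟩
  rw [← hθ] at hd hda hK hθ0 hθ1 hθ2
  have hcount : Countable V := hB.countable V H hG.conn hG.lf
  obtain ⟨hW0, -, hW2⟩ := hW V H Γ hG.conn hG.lf hG.pres
  have hdeg' : (1 : ℝ) ≤ ((nb H o).card : ℝ) := by exact_mod_cast hdeg
  set sg : ℝ := sig Γ H o with hsgd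
  set d : ℝ := ((nb H o).card : ℝ) with hdd
  set mo : ℝ := mom Γ H o with hmo
  have hmo0 : 0 ≤ mo := by
    rw [hmo]
    unfold mom
    exact Finset.sum_nonneg fun y _ => mul_nonneg (Real.sqrt_nonneg _) (abs_nonneg _)
  -- the number u
  obtain ⟨u, hu⟩ : ∃ x : ℝ, x = (d - 1) / α ^ 2 := ⟨_, rfl⟩
  have hu0 : 0 ≤ u := by
    rw [hu]
    exact div_nonneg (by linarith) (by positivity)
  have hu4 : u ≤ b ^ 4 := by
    rw [hu, div_le_iff₀ (by positivity)]
    have h1 : a' ^ 2 ≤ (b ^ 2 * α) ^ 2 := pow_le_pow_left₀ (by linarith) ha'b 2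
    have h2 : (b ^ 2 * α) ^ 2 = b ^ 4 * α ^ 2 := by ring
    linarith
  have hu1 : u ≤ 1 := hu4.trans (pow_le_one₀ hb.le hb1.le)
  have hsg : sg = α * (1 + u) := by
    rw [hσ, hu]
    field_simp
  have hsgα : α ≤ sg := by
    rw [hsg]
    nlinarith
  have hsg2 : sg ≤ 2 * α := by
    rw [hsg]
    nlinarith
  have hsg0 : 0 < sg := lt_of_lt_of_le hα hsgα
  -- the constants
  obtain ⟨K', hK'⟩ : ∃ x : ℝ, x = K * θ ^ g := ⟨_, rfl⟩
  have hK'0 : 0 < K' := by
    rw [hK']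
    positivity
  obtain ⟨mu, hmu⟩ : ∃ x : ℝ, x = mu₀ / 2 := ⟨_, rfl⟩
  have hmu0 : 0 < mu := by rw [hmu]; linarith
  obtain ⟨L, hLd⟩ : ∃ L : ℝ, L = 8 * t₂ * a / mu + 1 := ⟨_, rfl⟩
  have hL : 0 < L := by
    rw [hLd]
    have : 0 ≤ 8 * t₂ * a / mu := by positivity
    linarith
  have hLa : 2 * t₂ * a ≤ mu * L / 4 := by
    rw [hLd]
    have h1 : mu * (8 * t₂ * a / mu + 1) / 4 = 2 * t₂ * a + mu / 4 := by
      field_simp
      ring
    rw [h1]
    linarith
  have hα2 : 1 / α ^ 2 ≤ 4 / sg ^ 2 := by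
    rw [div_le_div_iff₀ (by positivity) (by positivity)]
    have : sg ^ 2 ≤ (2 * α) ^ 2 := pow_le_pow_left₀ hsg0.le hsg2 2
    linarith [this, (by ring : (2 * α) ^ 2 = 4 * α ^ 2)]
  have hm0 : 0 ≤ mo / sg := by positivity
  have hx1 : d / α ^ 2 * K' ≤ mu₀ / 8 := by
    have h1 : d / α ^ 2 * K' = (1 / α ^ 2) * (d * K') := by ring
    have h2 : (1 / α ^ 2) * (d * K') ≤ (4 / sg ^ 2) * (d * K') :=
      mul_le_mul_of_nonneg_right hα2 (by positivity)
    have h3 : (4 / sg ^ 2) * (d * K') = 4 * K * ((d * θ ^ g) / sg ^ 2) := by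
      rw [hK']; ring
    have h4 : (d * θ ^ g) / sg ^ 2 ≤ mu₀ / (32 * K) := by
      rw [div_le_iff₀ (by positivity)]
      exact hd
    have h5 : 4 * K * ((d * θ ^ g) / sg ^ 2) ≤ 4 * K * (mu₀ / (32 * K)) :=
      mul_le_mul_of_nonneg_left h4 (by positivity)
    have h6 : 4 * K * (mu₀ / (32 * K)) = mu₀ / 8 := by
      field_simp
      ring
    linarith
  have hx2 : d / α ^ 2 * K' * a ≤ mu / 4 * (mo / sg) := by
    have h1 : d / α ^ 2 * K' * a = (1 / α ^ 2) * (d * K' * a) := by ring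
    have h2 : (1 / α ^ 2) * (d * K' * a) ≤ (4 / sg ^ 2) * (d * K' * a) :=
      mul_le_mul_of_nonneg_right hα2 (by positivity)
    have h3 : (4 / sg ^ 2) * (d * K' * a) = 4 * K * ((d * θ ^ g * a) / sg ^ 2) := by
      rw [hK']; ring
    have h4 : (d * θ ^ g * a) / sg ^ 2 ≤ mu₀ / (32 * K) * (mo / sg) := by
      have h7 : mu₀ / (32 * K) * (mo / sg) = (mu₀ / (32 * K) * sg * mo) / sg ^ 2 := by
        field_simp
      rw [h7]
      exact div_le_div_of_nonneg_right hda (by positivity)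
    have h5 : 4 * K * ((d * θ ^ g * a) / sg ^ 2) ≤ 4 * K * (mu₀ / (32 * K) * (mo / sg)) :=
      mul_le_mul_of_nonneg_left h4 (by positivity)
    have h6 : 4 * K * (mu₀ / (32 * K) * (mo / sg)) = mu / 4 * (mo / sg) := by
      rw [hmu]
      field_simp
      ring
    linarith
  -- the bound of phi
  have hphi : ∀ q ∈ Set.Icc (t₁ / α) (p' : ℝ), ∀ S : Finset V, o ∈ S →
      (1 - b ^ 2) * Real.exp (-(L / 2)) ≤ phi (within H (slab Γ o L)) q S o := by
    intro q hq S hoS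
    obtain ⟨t, ht⟩ : ∃ t : ℝ, t = q * α := ⟨_, rfl⟩
    have hq' : q = t / α := by
      rw [ht]
      field_simp
    have ht1' : t₁ ≤ t := by
      have h1 := hq.1
      rw [div_le_iff₀ hα] at h1
      rw [ht]
      exact h1
    have ht2' : t ≤ t₂ := by
      have h1 := hq.2
      rw [hp', le_div_iff₀ hα] at h1
      rw [ht]
      exact h1
    have ht0 : 0 < t := by linarith
    have hq0 : 0 ≤ q := by rw [hq']; positivity
    have hq1 : q ≤ 1 := hq.2.trans p'.2.2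
    have hqb : q ≤ b := by
      have h1 : 1 ≤ b ^ 2 * α := ha'.trans ha'b
      have h2 : t ≤ b * α := by
        have h3 : t₂ * b ≤ 1 := htb.le
        have h4 : t₂ * b * (b * α) = t₂ * (b ^ 2 * α) := by ring
        have h5 : t₂ * 1 ≤ t₂ * (b ^ 2 * α) := mul_le_mul_of_nonneg_left h1 ht2.le
        have h6 : t₂ * b * (b * α) ≤ 1 * (b * α) :=
          mul_le_mul_of_nonneg_right h3 (by positivity)
        linarith
      rw [hq', div_le_iff₀ hα]
      exact h2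
    have hKl : ∀ N : ℕ, ∑ n ∈ Finset.Icc g N,
        2 / (1 - b ^ 4) * ((n : ℝ) + 1) * (n : ℝ) ^ 2 * (t * b) ^ n / b ^ 4 ≤ K' := by
      intro N
      rw [hK']
      refine le_trans (Finset.sum_le_sum ?_) (hK g N)
      intro n _
      have hb4 : b ^ 4 < 1 := pow_lt_one₀ hb.le hb1 (by norm_num)
      have h0 : 0 ≤ 2 / (1 - b ^ 4) := div_nonneg (by norm_num) (by linarith)
      have h1 : (t * b) ^ n ≤ (θ ^ 2) ^ n := by
        rw [hθ2]
        exact pow_le_pow_left₀ (by positivity) (mul_le_mul_of_nonneg_right ht2' hb.le) n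
      have h2 : 2 / (1 - b ^ 4) * ((n : ℝ) + 1) * (n : ℝ) ^ 2 * (t * b) ^ n ≤
          2 / (1 - b ^ 4) * ((n : ℝ) + 1) * (n : ℝ) ^ 2 * (θ ^ 2) ^ n :=
        mul_le_mul_of_nonneg_left h1 (by positivity)
      exact div_le_div_of_nonneg_right h2 (by positivity)
    have hc1 : 1 + (t / α) ^ 2 * (d - 1) + d / α ^ 2 * K' + mu ≤ t / α * sg := by
      have h1 : (t / α) ^ 2 * (d - 1) = t ^ 2 * u := by
        rw [hu]; ring
      have h2 : t / α * sg = t * (1 + u) := by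
        rw [hsg]
        field_simp
      rw [h1, h2]
      exact IX_FC7.first hb ht1 ht1' ht2' htb hu0 hu4 hmu₀ hb3 hx1 hmu hmp
    have hc2 : d / α ^ 2 * K' * L * a + t / α * sg * a * (mo / sg) ≤ L * mu * (mo / sg) / 2 := by
      have h1 : d / α ^ 2 * K' * L * a ≤ L * mu / 4 * (mo / sg) := by
        have h2 : d / α ^ 2 * K' * L * a = L * (d / α ^ 2 * K' * a) := by ring
        have h3 : L * (d / α ^ 2 * K' * a) ≤ L * (mu / 4 * (mo / sg)) :=
          mul_le_mul_of_nonneg_left hx2 hL.le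
        have h4 : L * (mu / 4 * (mo / sg)) = L * mu / 4 * (mo / sg) := by ring
        linarith
      have h5 : t / α * sg = t * (1 + u) := by
        rw [hsg]
        field_simp
      have h6 : t / α * sg * a * (mo / sg) ≤ mu * L / 4 * (mo / sg) := by
        have h7 : t / α * sg * a ≤ mu * L / 4 := by
          rw [h5]
          have h8 : t * (1 + u) ≤ t₂ * 2 := mul_le_mul ht2' (by linarith) (by linarith) ht2.le
          have h9 : t * (1 + u) * a ≤ t₂ * 2 * a := mul_le_mul_of_nonneg_right h8 ha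
          linarith
        exact mul_le_mul_of_nonneg_right h7 hm0
      have h10 : L * mu / 4 * (mo / sg) + mu * L / 4 * (mo / sg) =
          L * mu * (mo / sg) / 2 := by ring
      linarith
    have hmain := hFC5 V Γ H hG o b α a' t a L K' mu g hdeg hb hb1 ha' hα hda' ha'b hσ hSp ht0
      (by rw [← hq']; exact hq1) ha hL hmu0 hg hna hKl hc1 hc2
    have hwoo : weight Γ o o = 1 := by
      have h1 := hW2 o o o
      have h2 := hW0 o o
      have h3 : weight Γ o o * (weight Γ o o - 1) = 0 := by linarith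
      rcases mul_eq_zero.1 h3 with h | h
      · exact absurd h h2.ne'
      · linarith
    have hoU : o ∈ slab Γ o L := by
      change |Real.log (weight Γ o o)| < L
      rw [hwoo, Real.log_one, abs_zero]
      exact hL
    have hfo : tf Γ o L o = L ^ 2 := by
      unfold tf
      rw [hwoo, Real.log_one, Real.sqrt_one, one_mul]
      have h1 : (0 : ℝ) ≤ L ^ 2 - 0 ^ 2 := by nlinarith [sq_nonneg L]
      rw [max_eq_left h1]
      ring
    have hbp := hFM6 V H hG.lf (slab Γ o L) o q (Real.exp (L / 2) * L ^ 2) g (tf Γ o L) hg hgirth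
      hq0 hq1 (by positivity) hoU
      (fun y => mul_nonneg (Real.sqrt_nonneg _) (le_max_right _ _))
      (fun y => IX_CO.tf_le Γ o L hL y (hW0 _ _))
      (fun y hy => IX_CO.tf_zero Γ o L hL y hy)
      (by
        intro z hz S
        have := hmain z hz S
        rw [hq']
        exact this) S hoS
    have h9 : tf Γ o L o / (Real.exp (L / 2) * L ^ 2) = Real.exp (-(L / 2)) := by
      rw [hfo, Real.exp_neg]
      field_simp
    rw [h9] at hbp
    refine le_trans (mul_le_mul_of_nonneg_right ?_ (Real.exp_pos _).le) hbp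
    have : q ^ 2 ≤ b ^ 2 := pow_le_pow_left₀ hq0 hqb 2
    linarith
  have hpp : t₁ / α < (p' : ℝ) := by
    rw [hp']
    exact div_lt_div_of_pos_right ht12 hα
  have hb2 : b ^ 2 < 1 := pow_lt_one₀ hb.le hb1 (by norm_num)
  have hc0 : 0 < (1 - b ^ 2) * Real.exp (-(L / 2)) := mul_pos (by linarith) (Real.exp_pos _)
  have hfin := hD5 V (within H (slab Γ o L)) (IX_CO.within_lf H hG.lf _) o (t₁ / α) p'
    ((1 - b ^ 2) * Real.exp (-(L / 2))) (by positivity) hpp.le hc0.le hphi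
  refine lt_of_lt_of_le ?_ (hfin.trans (hHV V Γ H hG o L p' hL))
  rw [ENNReal.ofReal_pos]
  have h1 : 0 < (1 - b ^ 2) * Real.exp (-(L / 2)) * ((p' : ℝ) - t₁ / α) :=
    mul_pos hc0 (by linarith)
  have h2 : Real.exp (-((1 - b ^ 2) * Real.exp (-(L / 2)) * ((p' : ℝ) - t₁ / α))) < 1 := by
    rw [Real.exp_lt_one_iff]
    linarith
  linarith

end Pool.Agent.Work.MP_c58d8b_pr.FC
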