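import Pool.Agent.Work.MP_c58d8b_pr.FC.Stmts
import Pool.Agent.Work.MP_c58d8b_pr.SO.I_M1

/-!
# MP_c58d8b_pr, block FC, item FM1: removing an edge, sharp form
-/

set_option autoImplicit false

namespace Pool.Agent.Work.MP_c58d8b_pr.FC

open Pool.Agent.Work.MP_c58d8b_pr.SO
open MeasureTheory ProbabilityTheory Set
open scoped ENNReal unitInterval Classical

universe u

namespace IX_FM1

variable {V : Type u}

/-- The probability of an event about the configuration without the edge `xy`. -/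
noncomputable def q (E : Finset (Sym2 V)) (p : ℝ) (e : Sym2 V) (D : Set (Set (Sym2 V))) : ℝ :=
  Pr E p {s | s \ {e} ∈ D}

theorem tau_eq (hPB : StPB.{u}) (hPI : StPI.{u}) (hPL : StPL.{u}) (hPA : StPA.{u})
    (hCB : StCB.{u}) (hCR : StCR.{u}) (H : SimpleGraph V) (S : Finset V) (o x y : V) (p : ℝ)
    (h0 : 0 ≤ p) (h1 : p ≤ 1) (he : s(x, y) ∈ EI H S) :
    tau H p S o x = q (EI H S) p s(x, y) {s | x ∈ Cluster s o} +
      p * (q (EI H S) p s(x, y) {s | y ∈ Cluster s o} -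
        q (EI H S) p s(x, y) {s | x ∈ Cluster s o ∧ y ∈ Cluster s o}) := by
  have b := hPB (Sym2 V) (EI H S) p h0 h1
  -- split of the event
  have e2 := b.2.2.2.1 {s | x ∈ Cluster s o}
    {s | s \ {s(x, y)} ∈ {s : Set (Sym2 V) | x ∈ Cluster s o}}
  have e3 : ({s | x ∈ Cluster s o} : Set (Set (Sym2 V))) ∩
      {s | s \ {s(x, y)} ∈ {s : Set (Sym2 V) | x ∈ Cluster s o}} =
      {s | s \ {s(x, y)} ∈ {s : Set (Sym2 V) | x ∈ Cluster s o}} := by
    rw [inter_eq_right]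
    intro s hs
    exact (hCB V (s \ {s(x, y)})).2.2.2.1 s diff_subset o hs
  have e4 : tau H p S o x = Pr (EI H S) p {s | x ∈ Cluster s o} := rfl
  have e5 : ({s | x ∈ Cluster s o} : Set (Set (Sym2 V))) ∩
      {s | s \ {s(x, y)} ∈ {s : Set (Sym2 V) | x ∈ Cluster s o}}ᶜ =
      {s | s(x, y) ∈ s ∧ s \ {s(x, y)} ∈
        {s : Set (Sym2 V) | y ∈ Cluster s o ∧ x ∉ Cluster s o}} := by
    ext s
    constructor
    · rintro ⟨h2, h3⟩
      have h4 := hCR V s o x y h2 h3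
      exact ⟨h4.1, h4.2, h3⟩
    · rintro ⟨h2, h3, h4⟩
      refine ⟨?_, h4⟩
      have h5 : y ∈ Cluster s o := (hCB V (s \ {s(x, y)})).2.2.2.1 s diff_subset o h3
      have h6 : s(y, x) ∈ s := by
        rw [Sym2.eq_swap]
        exact h2
      exact (hCB V s).2.2.1 o y x h5 ((hCB V s).2.2.2.2.1 y x h6)
  have e6 := IX_M1.indep hPB hPI hPL hPA (Sym2 V) (EI H S) s(x, y) he p h0 h1
    {s | y ∈ Cluster s o ∧ x ∉ Cluster s o}
  have e7 := b.2.2.2.1 {s | s \ {s(x, y)} ∈ {s : Set (Sym2 V) | y ∈ Cluster s o}}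
    {s | s \ {s(x, y)} ∈ {s : Set (Sym2 V) | x ∈ Cluster s o}}
  have e8 : ({s | s \ {s(x, y)} ∈ {s : Set (Sym2 V) | y ∈ Cluster s o}} : Set (Set (Sym2 V))) ∩
      {s | s \ {s(x, y)} ∈ {s : Set (Sym2 V) | x ∈ Cluster s o}} =
      {s | s \ {s(x, y)} ∈ {s : Set (Sym2 V) | x ∈ Cluster s o ∧ y ∈ Cluster s o}} := by
    ext s
    exact and_comm
  have e9 : ({s | s \ {s(x, y)} ∈ {s : Set (Sym2 V) | y ∈ Cluster s o}} : Set (Set (Sym2 V))) ∩
      {s | s \ {s(x, y)} ∈ {s : Set (Sym2 V) | x ∈ Cluster s o}}ᶜ =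
      {s | s \ {s(x, y)} ∈ {s : Set (Sym2 V) | y ∈ Cluster s o ∧ x ∉ Cluster s o}} := rfl
  rw [e3, e5, e6] at e2
  rw [e8, e9] at e7
  rw [e4, e2]
  unfold q
  linarith [congrArg (fun t => p * t) e7]

end IX_FM1

theorem pr_FM1 (hPB : StPB.{u}) (hPI : StPI.{u}) (hPL : StPL.{u}) (hPA : StPA.{u})
    (hCB : StCB.{u}) (hCR : StCR.{u}) : StFM1.{u} := by
  intro V H S o x y p h0 h1 he
  have t1 := IX_FM1.tau_eq hPB hPI hPL hPA hCB hCR H S o x y p h0 h1 he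
  have he' : s(y, x) ∈ EI H S := by
    rw [Sym2.eq_swap]
    exact he
  have t2 := IX_FM1.tau_eq hPB hPI hPL hPA hCB hCR H S o y x p h0 h1 he'
  have sw : s(y, x) = s(x, y) := Sym2.eq_swap
  rw [sw] at t2
  have sw2 : ({s | y ∈ Cluster s o ∧ x ∈ Cluster s o} : Set (Set (Sym2 V))) =
      {s | x ∈ Cluster s o ∧ y ∈ Cluster s o} := by
    ext s
    exact and_comm
  rw [sw2] at t2
  have e1 := IX_M1.indep hPB hPI hPL hPA (Sym2 V) (EI H S) s(x, y) he p h0 h1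
    {s | x ∈ Cluster s o}
  have e1' : Pr (EI H S) p {s | s(x, y) ∈ s ∧ x ∈ Cluster (s \ {s(x, y)}) o} =
      p * IX_FM1.q (EI H S) p s(x, y) {s | x ∈ Cluster s o} := e1
  have hc : 0 ≤ IX_FM1.q (EI H S) p s(x, y) {s | x ∈ Cluster s o ∧ y ∈ Cluster s o} :=
    ((hPB (Sym2 V) (EI H S) p h0 h1).2.1 _).1
  rw [e1', t1, t2]
  set a := IX_FM1.q (EI H S) p s(x, y) {s | x ∈ Cluster s o}
  set b := IX_FM1.q (EI H S) p s(x, y) {s | y ∈ Cluster s o}
  set c := IX_FM1.q (EI H S) p s(x, y) {s | x ∈ Cluster s o ∧ y ∈ Cluster s o}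
  have h2 : 0 ≤ p ^ 2 * (1 - p) * c := by
    have : 0 ≤ 1 - p := by linarith
    positivity
  nlinarith [h2]

end Pool.Agent.Work.MP_c58d8b_pr.FC
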