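import Pool.Agent.Work.MP_c58d8b_pr.FC.Stmts

/-!
# MP_c58d8b_pr, block FC, item FM3: the number of the cycles through a vertex
-/

set_option autoImplicit false

namespace Pool.Agent.Work.MP_c58d8b_pr.FC

open Pool.Agent.Work.MP_c58d8b_pr.SO
open MeasureTheory ProbabilityTheory Set
open scoped ENNReal unitInterval Classical

universe u

namespace IX_FM3

variable {V : Type u}

/-- The nonbacktracking walks of length `n` in `S` from `a` to `b` whose first step goes to `D`. -/
noncomputable def WF (H : SimpleGraph V) (S : Finset V) (n : ℕ) (D : Finset V) (a b : V) :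
    Finset (Fin (n + 1) → V) :=
  (Fintype.piFinset fun _ : Fin (n + 1) => S).filter fun v =>
    v 0 = a ∧ v (Fin.last n) = b ∧ (∀ i : Fin n, H.Adj (v i.castSucc) (v i.succ)) ∧
      (∀ (j : ℕ) (h : j + 2 < n + 1), v ⟨j + 2, h⟩ ≠ v ⟨j, by omega⟩) ∧
      ∀ h : 1 < n + 1, v ⟨1, h⟩ ∈ D

theorem mem_WF (H : SimpleGraph V) (S : Finset V) (n : ℕ) (D : Finset V) (a b : V)
    (v : Fin (n + 1) → V) :
    v ∈ WF H S n D a b ↔ (∀ i, v i ∈ S) ∧ v 0 = a ∧ v (Fin.last n) = b ∧
      (∀ i : Fin n, H.Adj (v i.castSucc) (v i.succ)) ∧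
      (∀ (j : ℕ) (h : j + 2 < n + 1), v ⟨j + 2, h⟩ ≠ v ⟨j, by omega⟩) ∧
      ∀ h : 1 < n + 1, v ⟨1, h⟩ ∈ D := by
  rw [WF, Finset.mem_filter, Fintype.mem_piFinset]

theorem step (H : SimpleGraph V) (hnb : ∀ x y, y ∈ nb H x ↔ H.Adj x y) (S : Finset V) (n : ℕ)
    (D : Finset V) (a b : V) (P : (Fin (n + 1) → V) → Prop) :
    ((WF H S (n + 1) D a b).filter fun v => P (Fin.tail v)).card ≤
      ∑ c ∈ D, ((WF H S n ((nb H c).erase a) c b).filter P).card := by
  refine le_trans (Finset.card_le_card_of_injOn (t := D.biUnion fun c =>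
    (WF H S n ((nb H c).erase a) c b).filter P) Fin.tail ?_ ?_) Finset.card_biUnion_le
  · intro v hv
    rw [Finset.mem_coe, Finset.mem_filter, mem_WF] at hv
    obtain ⟨⟨h1, h2, h3, h4, h5, h6⟩, h7⟩ := hv
    rw [Finset.mem_coe, Finset.mem_biUnion]
    refine ⟨v 1, h6 (by omega), ?_⟩
    rw [Finset.mem_filter, mem_WF]
    refine ⟨⟨fun i => h1 i.succ, rfl, ?_, fun i => ?_, fun j hj => ?_, fun h => ?_⟩, h7⟩
    · show v (Fin.last n).succ = b
      rw [Fin.succ_last]
      exact h3
    · show H.Adj (v i.castSucc.succ) (v i.succ.succ)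
      rw [Fin.succ_castSucc]
      exact h4 i.succ
    · exact h5 (j + 1) (by omega)
    · rw [Finset.mem_erase, hnb]
      refine ⟨?_, ?_⟩
      · rw [← h2]
        exact h5 0 (by omega)
      · have := h4 ⟨1, by omega⟩
        exact this
  · intro v hv w hw hvw
    rw [Finset.mem_coe, Finset.mem_filter, mem_WF] at hv hw
    rw [← Fin.cons_self_tail v, ← Fin.cons_self_tail w, hvw, hv.1.2.1, hw.1.2.1]

theorem step' (H : SimpleGraph V) (hnb : ∀ x y, y ∈ nb H x ↔ H.Adj x y) (S : Finset V) (n : ℕ)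
    (D : Finset V) (a b : V) :
    (WF H S (n + 1) D a b).card ≤ ∑ c ∈ D, (WF H S n ((nb H c).erase a) c b).card := by
  have h1 := step H hnb S n D a b (fun _ => True)
  simpa using h1

theorem zero_le_one (H : SimpleGraph V) (S : Finset V) (D : Finset V) (a b : V) :
    ((WF H S 0 D a b).card : ℝ) ≤ if a = b then 1 else 0 := by
  by_cases hab : a = b
  · have h1 : (WF H S 0 D a b).card ≤ 1 := by
      rw [Finset.card_le_one]
      intro v hv w hw
      rw [mem_WF] at hv hw
      funext x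
      have hx : x = 0 := Fin.ext (by have := x.2; simp only [Fin.val_zero]; omega)
      rw [hx, hv.2.1, hw.2.1]
    rw [if_pos hab]
    exact_mod_cast h1
  · have h1 : WF H S 0 D a b = ∅ := by
      rw [Finset.eq_empty_iff_forall_notMem]
      intro v hv
      rw [mem_WF] at hv
      exact hab (hv.2.1.symm.trans hv.2.2.1)
    rw [h1, if_neg hab]
    simp

theorem cardA (H : SimpleGraph V) (hnb : ∀ x y, y ∈ nb H x ↔ H.Adj x y) (S : Finset V) (n : ℕ) :
    ∀ u a b : V, ((WF H S n ((nb H a).erase u) a b).card : ℝ) ≤ NF H n u a b := by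
  induction n with
  | zero =>
    intro u a b
    exact zero_le_one H S _ a b
  | succ n ih =>
    intro u a b
    have h1 := step' H hnb S n ((nb H a).erase u) a b
    calc ((WF H S (n + 1) ((nb H a).erase u) a b).card : ℝ)
        ≤ ((∑ c ∈ (nb H a).erase u, (WF H S n ((nb H c).erase a) c b).card : ℕ) : ℝ) := by
          exact_mod_cast h1
      _ = ∑ c ∈ (nb H a).erase u, ((WF H S n ((nb H c).erase a) c b).card : ℝ) := by
          push_cast; rfl
      _ ≤ ∑ c ∈ (nb H a).erase u, NF H n a c b := Finset.sum_le_sum fun c _ => ih a c b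
      _ = NF H (n + 1) u a b := rfl

theorem cardA' (H : SimpleGraph V) (hnb : ∀ x y, y ∈ nb H x ↔ H.Adj x y) (S : Finset V) (n : ℕ)
    (a b : V) : ((WF H S n (nb H a) a b).card : ℝ) ≤ NW H n a b := by
  cases n with
  | zero => exact zero_le_one H S _ a b
  | succ n =>
    have h1 := step' H hnb S n (nb H a) a b
    calc ((WF H S (n + 1) (nb H a) a b).card : ℝ)
        ≤ ((∑ c ∈ nb H a, (WF H S n ((nb H c).erase a) c b).card : ℕ) : ℝ) := by
          exact_mod_cast h1
      _ = ∑ c ∈ nb H a, ((WF H S n ((nb H c).erase a) c b).card : ℝ) := by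
          push_cast; rfl
      _ ≤ ∑ c ∈ nb H a, NF H n a c b := Finset.sum_le_sum fun c _ => cardA H hnb S n a c b
      _ = NW H (n + 1) a b := rfl

theorem mono (H : SimpleGraph V) (S : Finset V) (n : ℕ) (D D' : Finset V) (h : D ⊆ D')
    (a b : V) : (WF H S n D a b) ⊆ (WF H S n D' a b) := by
  intro v hv
  rw [mem_WF] at hv ⊢
  exact ⟨hv.1, hv.2.1, hv.2.2.1, hv.2.2.2.1, hv.2.2.2.2.1, fun h' => h (hv.2.2.2.2.2 h')⟩

theorem cardZ (H : SimpleGraph V) (hnb : ∀ x y, y ∈ nb H x ↔ H.Adj x y)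
    (S : Finset V) (n : ℕ) (D : Finset V) (a b z : V) (hD : D ⊆ nb H a) :
    (((WF H S n D a b).filter fun v => v 0 = z).card : ℝ) ≤
      (if a = z then 1 else 0) * NW H n z b := by
  by_cases haz : a = z
  · rw [if_pos haz, one_mul, ← haz]
    refine le_trans ?_ (cardA' H hnb S n a b)
    exact_mod_cast (Finset.card_filter_le _ _).trans (Finset.card_le_card (mono H S n D _ hD a b))
  · have h1 : ((WF H S n D a b).filter fun v => v 0 = z) = ∅ := by
      rw [Finset.eq_empty_iff_forall_notMem]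
      intro v hv
      rw [Finset.mem_filter, mem_WF] at hv
      exact haz (hv.1.2.1.symm.trans hv.2)
    rw [h1, if_neg haz]
    simp

theorem cardB (H : SimpleGraph V) (hnb : ∀ x y, y ∈ nb H x ↔ H.Adj x y)
    (S : Finset V) (z : V) (n : ℕ) :
    ∀ (i : Fin (n + 1)) (u a b : V),
      (((WF H S n ((nb H a).erase u) a b).filter fun v => v i = z).card : ℝ) ≤
      NF H (i : ℕ) u a z * NW H (n - (i : ℕ)) z b := by
  induction n with
  | zero =>
    intro i u a b
    have hi : i = 0 := Fin.ext (by have := i.2; simp only [Fin.val_zero]; omega)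
    rw [hi]
    exact cardZ H hnb S 0 _ a b z (Finset.erase_subset _ _)
  | succ n ih =>
    intro i u a b
    refine Fin.cases ?_ (fun j => ?_) i
    · exact cardZ H hnb S (n + 1) _ a b z (Finset.erase_subset _ _)
    · have h1 := step H hnb S n ((nb H a).erase u) a b (fun v => v j = z)
      have h3 : NF H ((j.succ : Fin (n + 2)) : ℕ) u a z =
        ∑ c ∈ (nb H a).erase u, NF H (j : ℕ) a c z := rfl
      have h4 : n + 1 - ((j.succ : Fin (n + 2)) : ℕ) = n - (j : ℕ) := by
        rw [Fin.val_succ]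
        omega
      rw [h3, h4, Finset.sum_mul]
      calc (((WF H S (n + 1) ((nb H a).erase u) a b).filter fun v => v j.succ = z).card : ℝ)
          ≤ ((∑ c ∈ (nb H a).erase u,
              ((WF H S n ((nb H c).erase a) c b).filter fun v => v j = z).card : ℕ) : ℝ) := by
            exact_mod_cast h1
        _ = ∑ c ∈ (nb H a).erase u,
              (((WF H S n ((nb H c).erase a) c b).filter fun v => v j = z).card : ℝ) := by
            push_cast
            rfl
        _ ≤ ∑ c ∈ (nb H a).erase u, NF H (j : ℕ) a c z * NW H (n - (j : ℕ)) z b :=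
            Finset.sum_le_sum fun c _ => ih j a c b

theorem cardC (H : SimpleGraph V) (hnb : ∀ x y, y ∈ nb H x ↔ H.Adj x y)
    (S : Finset V) (z : V) (n : ℕ) (i : Fin (n + 1)) (a b : V) :
      (((WF H S n (nb H a) a b).filter fun v => v i = z).card : ℝ) ≤
      NW H (i : ℕ) a z * NW H (n - (i : ℕ)) z b := by
  cases n with
  | zero =>
    have hi : i = 0 := Fin.ext (by have := i.2; simp only [Fin.val_zero]; omega)
    rw [hi]
    exact cardZ H hnb S 0 _ a b z subset_rfl
  | succ n =>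
    refine Fin.cases ?_ (fun j => ?_) i
    · exact cardZ H hnb S (n + 1) _ a b z subset_rfl
    · have h1 := step H hnb S n (nb H a) a b (fun v => v j = z)
      have h3 : NW H ((j.succ : Fin (n + 2)) : ℕ) a z =
        ∑ c ∈ nb H a, NF H (j : ℕ) a c z := rfl
      have h4 : n + 1 - ((j.succ : Fin (n + 2)) : ℕ) = n - (j : ℕ) := by
        rw [Fin.val_succ]
        omega
      rw [h3, h4, Finset.sum_mul]
      calc (((WF H S (n + 1) (nb H a) a b).filter fun v => v j.succ = z).card : ℝ)
          ≤ ((∑ c ∈ nb H a,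
              ((WF H S n ((nb H c).erase a) c b).filter fun v => v j = z).card : ℕ) : ℝ) := by
            exact_mod_cast h1
        _ = ∑ c ∈ nb H a,
              (((WF H S n ((nb H c).erase a) c b).filter fun v => v j = z).card : ℝ) := by
            push_cast
            rfl
        _ ≤ ∑ c ∈ nb H a, NF H (j : ℕ) a c z * NW H (n - (j : ℕ)) z b :=
            Finset.sum_le_sum fun c _ => cardB H hnb S z n j a c b

theorem CS_sub (H : SimpleGraph V) (hnb : ∀ x y, y ∈ nb H x ↔ H.Adj x y) (S : Finset V) (n : ℕ)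
    (hn : 3 ≤ n) (y : V) : CS H S n y ⊆ WF H S n (nb H y) y y := by
  intro v hv
  rw [CS, Finset.mem_filter, CW, Finset.mem_filter, Fintype.mem_piFinset] at hv
  obtain ⟨⟨h1, h2, h3, h4⟩, h5⟩ := hv
  rw [mem_WF]
  have key : ∀ (a b : ℕ) (ha : a < n) (hb : b < n), a ≠ b →
      v ⟨a, by omega⟩ ≠ v ⟨b, by omega⟩ := by
    intro a b ha hb hab he
    have h6 : (⟨a, ha⟩ : Fin n) = ⟨b, hb⟩ := h5 he
    exact hab (Fin.mk.inj h6)
  refine ⟨h1, h2, h3, h4, fun j hj => ?_, fun h => ?_⟩
  · by_cases hj2 : j + 2 < n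
    · exact key (j + 2) j hj2 (by omega) (by omega)
    · have hj3 : (⟨j + 2, hj⟩ : Fin (n + 1)) = Fin.last n := Fin.ext (by
        simp only [Fin.val_last]; omega)
      rw [hj3, h3, ← h2]
      exact key 0 j (by omega) (by omega) (by omega)
  · rw [hnb, ← h2]
    exact h4 ⟨0, by omega⟩

end IX_FM3

theorem pr_FM3 (hWB : StWB.{u}) : StFM3.{u} := by
  intro V H hlf S n hn y z i
  obtain ⟨hnb, _, _⟩ := hWB V H hlf
  refine le_trans ?_ (IX_FM3.cardC H hnb S z n i y y)
  exact_mod_cast Finset.card_le_card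
    (Finset.filter_subset_filter _ (IX_FM3.CS_sub H hnb S n hn y))

end Pool.Agent.Work.MP_c58d8b_pr.FC
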