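import Pool.Agent.Work.MP_c58d8b_pr.FC.Stmts
import Pool.Agent.Work.MP_c58d8b_pr.SO.I_M4

/-!
# MP_c58d8b_pr, block FC, item FM4: the cycle term
-/

set_option autoImplicit false

namespace Pool.Agent.Work.MP_c58d8b_pr.FC

open Pool.Agent.Work.MP_c58d8b_pr.SO
open MeasureTheory ProbabilityTheory Set
open scoped ENNReal unitInterval Classical

universe u

namespace IX_FM4

variable {V : Type u}

theorem mem_nb {H : SimpleGraph V} (hL : LocFinite H) (x y : V) : y ∈ nb H x ↔ H.Adj x y := by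
  unfold nb
  rw [dif_pos (hL x), Set.Finite.mem_toFinset, SimpleGraph.mem_neighborSet]

/-- one pair -/
theorem one (hPB : StPB.{u}) (hFM2 : StFM2.{u}) (hM3 : StM3.{u}) (H : SimpleGraph V)
    (hL : LocFinite H) (S : Finset V) (o : V) (g : ℕ) (hg3 : 3 ≤ g) (hg : (g : ℕ∞) ≤ H.egirth)
    (p : ℝ) (hp : 0 ≤ p) (hp1 : p ≤ 1) (y x : V) (hy : y ∈ S) (hx : x ∈ S) (hxy : x ≠ y) :
    Pr (EI H S) p {s | y ∈ Cluster s o ∧ s(x, y) ∈ s ∧ x ∈ Cluster (s \ {s(x, y)}) y} ≤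
      ∑ n ∈ Finset.Icc g S.card, ∑ v ∈ (CS H S n y).filter (fun v =>
        ∀ h : 1 < n + 1, v ⟨1, h⟩ = x), ∑ i ∈ Finset.univ.filter (fun i : Fin (n + 1) => i ≠ 0),
          p ^ n * tau H p S o (v i) := by
  let J : Finset (Σ n : ULift.{u} ℕ, (Fin (n.down + 1) → V) × Fin (n.down + 1)) :=
    ((Finset.Icc g S.card).map Equiv.ulift.symm.toEmbedding).sigma fun n =>
      ((CS H S n.down y).filter (fun v => (∀ h : 1 < n.down + 1, v ⟨1, h⟩ = x) ∧
        (edgs v).card = n.down)) ×ˢ Finset.univ.filter (fun i : Fin (n.down + 1) => i ≠ 0)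
  let B : (Σ n : ULift.{u} ℕ, (Fin (n.down + 1) → V) × Fin (n.down + 1)) → Set (Set (Sym2 V)) :=
    fun q => {s | (edgs q.2.1 : Set (Sym2 V)) ⊆ s ∧
      q.2.1 q.2.2 ∈ Cluster (s \ (edgs q.2.1 : Set (Sym2 V))) o}
  have h1 := SO.IX_M4.union_bd hPB (EI H S) p hp hp1 J
    {s | y ∈ Cluster s o ∧ s(x, y) ∈ s ∧ x ∈ Cluster (s \ {s(x, y)}) y} B (by
      intro s hs hA
      obtain ⟨n, hn, v, hv, hv1, hc, hsub, i, hi, hcl⟩ := hFM2 V H hL S o g hg3 hg s
        (by exact_mod_cast hs) y hy x hx hxy hA.2.1 hA.1 hA.2.2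
      refine ⟨⟨⟨n⟩, v, i⟩, ?_, hsub, hcl⟩
      rw [Finset.mem_sigma, Finset.mem_map]
      refine ⟨⟨n, hn, rfl⟩, ?_⟩
      rw [Finset.mem_product, Finset.mem_filter, Finset.mem_filter]
      exact ⟨⟨hv, hv1, hc⟩, Finset.mem_univ _, hi⟩)
  refine h1.trans ?_
  rw [Finset.sum_sigma, Finset.sum_map]
  refine Finset.sum_le_sum fun n _ => ?_
  rw [Finset.sum_product]
  have hT : ∀ z, 0 ≤ tau H p S o z := SO.IX_M4.tau_nn hPB H p hp hp1 S o
  have h2 : ∀ v ∈ (CS H S n y).filter (fun v => (∀ h : 1 < n + 1, v ⟨1, h⟩ = x) ∧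
      (edgs v).card = n), ∀ i : Fin (n + 1), Pr (EI H S) p {s | (edgs v : Set (Sym2 V)) ⊆ s ∧
      v i ∈ Cluster (s \ (edgs v : Set (Sym2 V))) o} ≤ p ^ n * tau H p S o (v i) := by
    intro v hv i
    rw [Finset.mem_filter] at hv
    have := hM3 V H S o (v i) p hp hp1 (edgs v) (SO.IX_M4.edgs_sub (Finset.mem_filter.1 hv.1).1)
    rwa [hv.2.2] at this
  refine (Finset.sum_le_sum fun v hv => Finset.sum_le_sum fun i _ => h2 v hv i).trans ?_
  refine Finset.sum_le_sum_of_subset_of_nonneg ?_ ?_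
  · intro v hv
    rw [Finset.mem_filter] at hv ⊢
    exact ⟨hv.1, hv.2.1⟩
  · intro v _ _
    exact Finset.sum_nonneg fun i _ => mul_nonneg (pow_nonneg hp _) (hT _)

/-- every walk is counted at most once -/
theorem once {H : SimpleGraph V} {S X : Finset V} {n : ℕ} (hn : 1 ≤ n) (y : V)
    (F : (Fin (n + 1) → V) → ℝ) (hF : ∀ v, 0 ≤ F v) :
    ∑ x ∈ X, ∑ v ∈ (CS H S n y).filter (fun v => ∀ h : 1 < n + 1, v ⟨1, h⟩ = x), F v ≤
      ∑ v ∈ CS H S n y, F v := by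
  simp_rw [Finset.sum_filter]
  rw [Finset.sum_comm]
  refine Finset.sum_le_sum fun v _ => ?_
  rw [← Finset.sum_filter, Finset.sum_const, nsmul_eq_mul]
  have hc : (X.filter fun x => ∀ h : 1 < n + 1, v ⟨1, h⟩ = x).card ≤ 1 := by
    rw [Finset.card_le_one]
    intro a ha b hb
    rw [Finset.mem_filter] at ha hb
    have h : 1 < n + 1 := by omega
    rw [← ha.2 h, ← hb.2 h]
  have : ((X.filter fun x => ∀ h : 1 < n + 1, v ⟨1, h⟩ = x).card : ℝ) ≤ 1 := by exact_mod_cast hc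
  calc _ ≤ 1 * F v := mul_le_mul_of_nonneg_right this (hF v)
    _ = F v := one_mul _

/-- the closed walks through `z` -/
theorem thr (hPB : StPB.{u}) (hFM3 : StFM3.{u}) (H : SimpleGraph V) (hL : LocFinite H)
    (S : Finset V) (o : V) (p : ℝ) (hp : 0 ≤ p) (hp1 : p ≤ 1) (y : V) (n : ℕ) (hn : 3 ≤ n) :
    ∑ v ∈ CS H S n y, ∑ i ∈ Finset.univ.filter (fun i : Fin (n + 1) => i ≠ 0),
        p ^ n * tau H p S o (v i) ≤
      p ^ n * ∑ i ∈ Finset.Icc 1 n, ∑ z ∈ S, tau H p S o z * (NW H i y z * NW H (n - i) z y) := by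
  have hT : ∀ z, 0 ≤ tau H p S o z := SO.IX_M4.tau_nn hPB H p hp hp1 S o
  rw [Finset.sum_comm]
  have h1 : ∀ i : Fin (n + 1), ∑ v ∈ CS H S n y, p ^ n * tau H p S o (v i) ≤
      p ^ n * ∑ z ∈ S, tau H p S o z * (NW H i y z * NW H (n - i) z y) := by
    intro i
    rw [← Finset.mul_sum]
    refine mul_le_mul_of_nonneg_left ?_ (pow_nonneg hp _)
    have hm : ∀ v ∈ CS H S n y, v i ∈ S := by
      intro v hv
      have hv' := (Finset.mem_filter.1 hv).1
      rw [CW, Finset.mem_filter, Fintype.mem_piFinset] at hv'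
      exact hv'.1 i
    rw [← Finset.sum_fiberwise_of_maps_to hm]
    refine Finset.sum_le_sum fun z _ => ?_
    have h2 : ∑ v ∈ (CS H S n y).filter (fun v => v i = z), tau H p S o (v i) =
        (((CS H S n y).filter fun v => v i = z).card : ℝ) * tau H p S o z := by
      rw [← nsmul_eq_mul, ← Finset.sum_const]
      refine Finset.sum_congr rfl fun v hv => ?_
      rw [(Finset.mem_filter.1 hv).2]
    rw [h2, mul_comm]
    exact mul_le_mul_of_nonneg_left (hFM3 V H hL S n hn y z i) (hT z)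
  refine (Finset.sum_le_sum fun i _ => h1 i).trans ?_
  rw [← Finset.mul_sum]
  refine mul_le_mul_of_nonneg_left (le_of_eq ?_) (pow_nonneg hp _)
  refine Finset.sum_nbij (fun i => (i : ℕ)) ?_ ?_ ?_ ?_
  · intro i hi
    rw [Finset.mem_filter] at hi
    rw [Finset.mem_Icc]
    have h1 : (i : ℕ) ≠ 0 := fun h => hi.2 (Fin.ext h)
    have h2 := i.2
    omega
  · intro i _ j _ hij
    exact Fin.ext hij
  · intro m hm
    rw [Finset.coe_Icc, Set.mem_Icc] at hm
    refine ⟨⟨m, by omega⟩, ?_, rfl⟩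
    rw [Finset.mem_coe, Finset.mem_filter]
    refine ⟨Finset.mem_univ _, fun h => ?_⟩
    have := congrArg Fin.val h
    simp only [Fin.val_zero] at this
    omega
  · intro i _
    rfl

end IX_FM4

open IX_FM4 in
theorem pr_FM4 (hPB : StPB.{u}) (hM3 : StM3.{u}) (hFM2 : StFM2.{u}) (hFM3 : StFM3.{u}) :
    StFM4.{u} := by
  intro V H hL S o p g hg3 hg hp hp1 f hf
  have hT : ∀ z, 0 ≤ tau H p S o z := SO.IX_M4.tau_nn hPB H p hp hp1 S o
  have h1 : ∀ y ∈ S, ∑ x ∈ (nb H y).filter (· ∈ S), f y * Pr (EI H S) p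
      {s | y ∈ Cluster s o ∧ s(x, y) ∈ s ∧ x ∈ Cluster (s \ {s(x, y)}) y} ≤
      f y * ∑ n ∈ Finset.Icc g S.card, p ^ n * ∑ i ∈ Finset.Icc 1 n, ∑ z ∈ S,
        tau H p S o z * (NW H i y z * NW H (n - i) z y) := by
    intro y hy
    rw [← Finset.mul_sum]
    refine mul_le_mul_of_nonneg_left ?_ (hf y)
    have h2 : ∑ x ∈ (nb H y).filter (· ∈ S), Pr (EI H S) p
        {s | y ∈ Cluster s o ∧ s(x, y) ∈ s ∧ x ∈ Cluster (s \ {s(x, y)}) y} ≤
        ∑ x ∈ (nb H y).filter (· ∈ S), ∑ n ∈ Finset.Icc g S.card,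
          ∑ v ∈ (CS H S n y).filter (fun v => ∀ h : 1 < n + 1, v ⟨1, h⟩ = x),
            ∑ i ∈ Finset.univ.filter (fun i : Fin (n + 1) => i ≠ 0),
              p ^ n * tau H p S o (v i) := by
      refine Finset.sum_le_sum fun x hx => ?_
      rw [Finset.mem_filter, mem_nb hL] at hx
      exact one hPB hFM2 hM3 H hL S o g hg3 hg p hp hp1 y x hy hx.2 hx.1.ne'
    refine h2.trans ?_
    rw [Finset.sum_comm]
    refine Finset.sum_le_sum fun n hn => ?_
    rw [Finset.mem_Icc] at hn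
    exact (once (by omega) y _ fun v => Finset.sum_nonneg fun i _ =>
      mul_nonneg (pow_nonneg hp _) (hT _)).trans (thr hPB hFM3 H hL S o p hp hp1 y n (by omega))
  refine (Finset.sum_le_sum h1).trans (le_of_eq ?_)
  simp only [Rn, Finset.mul_sum]
  refine Finset.sum_comm.trans ?_
  refine Eq.trans ?_ Finset.sum_comm.symm
  refine Finset.sum_congr rfl fun n _ => ?_
  refine Finset.sum_comm.trans ?_
  refine Eq.trans ?_ Finset.sum_comm.symm
  refine Finset.sum_congr rfl fun i _ => ?_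
  refine Finset.sum_comm.trans ?_
  refine Finset.sum_congr rfl fun z _ => Finset.sum_congr rfl fun y _ => ?_
  ring

end Pool.Agent.Work.MP_c58d8b_pr.FC
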