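import Pool.Agent.Work.MP_c58d8b_pr.FC.Stmts
import Pool.Agent.Work.MP_c58d8b_pr.SO.I_MI

/-!
# MP_c58d8b_pr, block FC, item FM5: the sharp main inequality
-/

set_option autoImplicit false

namespace Pool.Agent.Work.MP_c58d8b_pr.FC

open Pool.Agent.Work.MP_c58d8b_pr.SO
open MeasureTheory ProbabilityTheory Set
open scoped ENNReal unitInterval Classical

universe u

open Pool.Agent.Work.MP_c58d8b_pr.SO.IX_MI

/-- item FM5 -/
theorem pr_FM5 (hPB : StPB.{u}) (hWB : StWB.{u}) (hCN : StCN.{u}) (hFM1 : StFM1.{u})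
    (hFM4 : StFM4.{u}) : StFM5.{u} := by
  intro V H hH S o p g hg3 hg h0 h1 f hf
  have hadj := (hWB V H hH).1
  have hc : 0 ≤ 1 - p ^ 2 := by nlinarith
  obtain ⟨A, hA⟩ : ∃ A : V → V → Set (Set (Sym2 V)), ∀ y x,
      A y x = {s | s(x, y) ∈ s ∧ x ∈ Cluster (s \ {s(x, y)}) o} := ⟨_, fun _ _ => rfl⟩
  obtain ⟨B, hB⟩ : ∃ B : V → V → Set (Set (Sym2 V)), ∀ y x,
      B y x = {s | y ∈ Cluster s o ∧ s(x, y) ∈ s ∧ x ∈ Cluster (s \ {s(x, y)}) y} :=
    ⟨_, fun _ _ => rfl⟩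
  have hPr := (hPB (Sym2 V) (EI H S) p h0 h1).2.1
  -- exchange
  have e1 : ∑ x ∈ S, ∑ y ∈ (nb H x).filter (· ∈ S), p * tau H p S o x * f y =
      ∑ y ∈ S, ∑ x ∈ (nb H y).filter (· ∈ S), p * tau H p S o x * f y := by
    refine Finset.sum_comm' ?_
    intro x y
    rw [Finset.mem_filter, Finset.mem_filter, hadj, hadj, H.adj_comm]
    tauto
  -- single terms
  have e2 : ∀ y ∈ S, ∀ x ∈ (nb H y).filter (· ∈ S), p * tau H p S o x * f y ≤
      (1 - p ^ 2) * (Pr (EI H S) p (A y x) * f y) + p ^ 2 * tau H p S o y * f y := by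
    intro y hy x hx
    rw [Finset.mem_filter, hadj] at hx
    have hE : s(x, y) ∈ EI H S := mem_EI H S hx.2 hy hx.1.symm
    have h3 := hFM1 V H S o x y p h0 h1 hE
    rw [← hA y x] at h3
    have h6 := mul_le_mul_of_nonneg_right h3 (hf y)
    calc p * tau H p S o x * f y ≤ _ := h6
      _ = _ := by ring
  have e3 : ∑ y ∈ S, ∑ x ∈ (nb H y).filter (· ∈ S), p * tau H p S o x * f y ≤
      (1 - p ^ 2) * ∑ y ∈ S, ∑ x ∈ (nb H y).filter (· ∈ S), Pr (EI H S) p (A y x) * f y +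
        p ^ 2 * ∑ y ∈ S, (nb H y).card * tau H p S o y * f y := by
    rw [Finset.mul_sum, Finset.mul_sum, ← Finset.sum_add_distrib]
    refine Finset.sum_le_sum fun y hy => ?_
    refine (Finset.sum_le_sum (e2 y hy)).trans ?_
    rw [Finset.sum_add_distrib, Finset.sum_const, nsmul_eq_mul, Finset.mul_sum]
    have h7 : (((nb H y).filter (· ∈ S)).card : ℝ) ≤ ((nb H y).card : ℝ) := by
      exact_mod_cast Finset.card_filter_le _ _
    have h8 : 0 ≤ p ^ 2 * tau H p S o y * f y :=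
      mul_nonneg (mul_nonneg (pow_nonneg h0 2) (hPr _).1) (hf y)
    have h9 := mul_le_mul_of_nonneg_right h7 h8
    have h10 : ((nb H y).card : ℝ) * (p ^ 2 * tau H p S o y * f y) =
        p ^ 2 * ((nb H y).card * tau H p S o y * f y) := by ring
    linarith
  -- expectation
  have e4 : ∑ y ∈ S, ∑ x ∈ (nb H y).filter (· ∈ S), Pr (EI H S) p (A y x) * f y ≤
      ∑ y ∈ S.erase o, tau H p S o y * f y +
        ∑ y ∈ S, ∑ x ∈ (nb H y).filter (· ∈ S), Pr (EI H S) p (B y x) * f y := by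
    have h11 : ∑ y ∈ S.erase o, tau H p S o y * f y =
        ∑ s ∈ (EI H S).powerset, wt (EI H S) p s *
          ∑ y ∈ S.erase o, (if y ∈ Cluster (s : Set (Sym2 V)) o then f y else 0) :=
      ex1 hPB (EI H S) h0 h1 (S.erase o) (fun y => {s | y ∈ Cluster s o}) f
    rw [h11, ex2 hPB (EI H S) h0 h1 S (fun y => (nb H y).filter (· ∈ S)) A f,
      ex2 hPB (EI H S) h0 h1 S (fun y => (nb H y).filter (· ∈ S)) B f, ← Finset.sum_add_distrib]
    refine Finset.sum_le_sum fun s _ => ?_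
    rw [← mul_add]
    refine mul_le_mul_of_nonneg_left ?_ (wt_nn _ h0 h1 s)
    have h12 := hCN V H hH S o f hf (s : Set (Sym2 V))
    refine le_trans (le_of_eq ?_) (h12.trans (le_of_eq ?_))
    · refine Finset.sum_congr rfl fun y _ => Finset.sum_congr rfl fun x _ => ifc ?_
      rw [hA]
      exact Iff.rfl
    · refine congrArg₂ (· + ·) rfl ?_
      refine Finset.sum_congr rfl fun y _ => Finset.sum_congr rfl fun x _ => ifc ?_
      rw [hB]
      exact Iff.rfl
  have e5 : ∑ y ∈ S, ∑ x ∈ (nb H y).filter (· ∈ S), Pr (EI H S) p (B y x) * f y ≤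
      ∑ z ∈ S, tau H p S o z * Rn H p g S f z := by
    refine le_trans (le_of_eq ?_) (hFM4 V H hH S o p g hg3 hg h0 h1 f hf)
    refine Finset.sum_congr rfl fun y _ => Finset.sum_congr rfl fun x _ => ?_
    rw [hB, mul_comm]
  have e6 := mul_le_mul_of_nonneg_left (e4.trans (add_le_add_right e5
    (∑ y ∈ S.erase o, tau H p S o y * f y))) hc
  rw [e1]
  linarith

end Pool.Agent.Work.MP_c58d8b_pr.FC
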