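import Pool.Agent.Work.MP_c58d8b_pr.FC.Stmts

/-!
# MP_c58d8b_pr, block FC, item FR1: numbers
-/

set_option autoImplicit false

namespace Pool.Agent.Work.MP_c58d8b_pr.FC

open Pool.Agent.Work.MP_c58d8b_pr.SO
open MeasureTheory ProbabilityTheory Set
open scoped ENNReal unitInterval Classical

namespace IX_FR1

/-- The larger root of `x² - B x + e`. -/
theorem root (e B x : ℝ) (he : 1 ≤ e) (hB : 2 * √e ≤ B) (hx : x = (B + √(B ^ 2 - 4 * e)) / 2) :
    √e ≤ x ∧ 0 < x ∧ e ≤ x ^ 2 ∧ x + e / x = B := by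
  have h1 : 1 ≤ √e := Real.one_le_sqrt.mpr he
  have h2 : √e ^ 2 = e := Real.sq_sqrt (by linarith)
  have h3 : 0 ≤ B ^ 2 - 4 * e := by nlinarith
  have h4 : 0 ≤ √(B ^ 2 - 4 * e) := Real.sqrt_nonneg _
  have h5 : √(B ^ 2 - 4 * e) ^ 2 = B ^ 2 - 4 * e := Real.sq_sqrt h3
  have h6 : √e ≤ x := by rw [hx]; linarith
  have h7 : 0 < x := by linarith
  have h8 : e ≤ x ^ 2 := by
    rw [← h2]
    exact pow_le_pow_left₀ (by linarith) h6 2
  refine ⟨h6, h7, h8, ?_⟩
  have h9 : x ^ 2 + e = B * x := by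
    rw [hx]
    nlinarith
  field_simp
  linarith

end IX_FR1

open IX_FR1 in
theorem pr_FR1 : StFR1 := by
  intro δ e A s a' α hδ0 hδ1 he hA hAs ha hα
  have h1 : 1 ≤ √e := Real.one_le_sqrt.mpr he
  have hA0 : 0 < A := by linarith
  have hs0 : 0 < s := by
    by_contra hs
    push Not at hs
    nlinarith
  have hsA : A ≤ s := by nlinarith
  obtain ⟨a1, a2, a3, a4⟩ := root e A a' he hA ha
  obtain ⟨b1, b2, b3, b4⟩ := root e s α he (by linarith) hα
  refine ⟨by linarith, a3, a4, b2, b4, ?_⟩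
  by_contra hlt
  push Not at hlt
  have he0 : 0 < e := by linarith
  set b : ℝ := (1 + δ) * a' with hb
  have hb0 : 0 < b := by positivity
  -- monotonicity
  have m1 : s ≤ b + e / b := by
    rw [← b4]
    have m2 : b + e / b - (α + e / α) = (b - α) * (b * α - e) / (b * α) := by
      field_simp
      ring
    have m3 : 0 ≤ (b - α) * (b * α - e) / (b * α) := by
      refine div_nonneg (mul_nonneg (by linarith) ?_) (by positivity)
      nlinarith
    linarith
  have m4 : e / b ≤ (1 + δ) * (e / a') := by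
    rw [div_le_iff₀ hb0, hb]
    have m5 : (1 + δ) * (e / a') * ((1 + δ) * a') = (1 + δ) ^ 2 * e := by
      field_simp
    rw [m5]
    have m10 : 1 ≤ (1 + δ) ^ 2 := by nlinarith
    exact le_mul_of_one_le_left he0.le m10
  have m6 : b + e / b ≤ (1 + δ) * A := by
    rw [← a4, mul_add, ← hb]
    linarith
  have m7 : (1 + δ) * A ≤ (1 + δ) * ((1 - δ) * s) :=
    mul_le_mul_of_nonneg_left hAs (by linarith)
  have m8 : (1 + δ) * ((1 - δ) * s) = s - δ ^ 2 * s := by ring
  have m9 : 0 < δ ^ 2 * s := by positivity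
  linarith

end Pool.Agent.Work.MP_c58d8b_pr.FC
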