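import Pool.Agent.Work.MP_c58d8b_pr.FC.Stmts
import Pool.Agent.Work.MP_c58d8b_pr.SO.I_U0

/-!
# MP_c58d8b_pr, block FC, item FU1: open paths
-/

set_option autoImplicit false

namespace Pool.Agent.Work.MP_c58d8b_pr.FC

open Pool.Agent.Work.MP_c58d8b_pr.SO
open MeasureTheory ProbabilityTheory Set
open scoped ENNReal unitInterval Classical

universe u

namespace IX_FU1

variable {V : Type u}

theorem step (H : SimpleGraph V) [SimpleGraph.LocallyFinite H] (n : ℕ) (x y : V)
    (PP : H.Walk x y → Prop) (QQ : (w : V) → H.Walk w y → Prop) [DecidablePred PP]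
    [∀ w, DecidablePred (QQ w)]
    (h : ∀ (w : V) (hw : H.Adj x w) (q : H.Walk w y), PP (SimpleGraph.Walk.cons hw q) → QQ w q) :
    (((H.finsetWalkLength (n + 1) x y).filter PP).card : ℝ) ≤
      ∑ w : H.neighborSet x, (((H.finsetWalkLength n w y).filter (QQ w)).card : ℝ) := by
  have h2 : ((H.finsetWalkLength (n + 1) x y).filter PP).card ≤
      ∑ w : H.neighborSet x, ((H.finsetWalkLength n w y).filter (QQ w)).card := by
    change ((Finset.univ.biUnion fun (w : H.neighborSet x) =>
      (H.finsetWalkLength n w y).map ⟨fun p => SimpleGraph.Walk.cons w.property p, _⟩).filter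
        PP).card ≤ _
    rw [Finset.filter_biUnion]
    refine Finset.card_biUnion_le.trans (Finset.sum_le_sum fun w _ => ?_)
    rw [Finset.filter_map, Finset.card_map]
    refine Finset.card_le_card fun q hq => ?_
    rw [Finset.mem_filter] at hq ⊢
    exact ⟨hq.1, h w w.2 q hq.2⟩
  exact_mod_cast h2

theorem zero_le (H : SimpleGraph V) [SimpleGraph.LocallyFinite H] (x y : V)
    (PP : H.Walk x y → Prop) [DecidablePred PP] :
    (((H.finsetWalkLength 0 x y).filter PP).card : ℝ) ≤ if x = y then 1 else 0 := by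
  have h1 : (((H.finsetWalkLength 0 x y).filter PP).card : ℝ) ≤
      ((H.finsetWalkLength 0 x y).card : ℝ) := by
    exact_mod_cast Finset.card_filter_le _ _
  refine h1.trans ?_
  by_cases h : x = y
  · subst h
    simp [SimpleGraph.finsetWalkLength]
  · simp [SimpleGraph.finsetWalkLength, h]

theorem card_NF (H : SimpleGraph V) [SimpleGraph.LocallyFinite H]
    (hmem : ∀ x y, y ∈ nb H x ↔ H.Adj x y) (n : ℕ) (u x y : V) :
    (((H.finsetWalkLength n x y).filter (fun w => w.IsPath ∧ u ∉ w.support)).card : ℝ) ≤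
      NF H n u x y := by
  induction n generalizing u x with
  | zero => exact zero_le H x y _
  | succ n ih =>
    refine (step H n x y _ (fun w q => w ≠ u ∧ q.IsPath ∧ x ∉ q.support) ?_).trans ?_
    · intro w hw q hq
      have h1 := SimpleGraph.Walk.cons_isPath_iff hw q
      refine ⟨?_, (h1.1 hq.1).1, (h1.1 hq.1).2⟩
      intro hwu
      apply hq.2
      rw [SimpleGraph.Walk.support_cons, ← hwu]
      exact List.mem_cons_of_mem _ q.start_mem_support
    · have h3 : NF H (n + 1) u x y = ∑ z ∈ (nb H x).erase u, NF H n x z y := rfl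
      have h4 : ∑ z ∈ (nb H x).erase u, NF H n x z y =
          ∑ z ∈ nb H x, if z = u then 0 else NF H n x z y := by
        rw [← Finset.filter_ne', Finset.sum_filter]
        refine Finset.sum_congr rfl fun z _ => ?_
        by_cases hz : z = u
        · rw [if_pos hz, if_neg (not_not.2 hz)]
        · rw [if_neg hz, if_pos hz]
      have h5 : ∑ z ∈ nb H x, (if z = u then 0 else NF H n x z y) =
          ∑ w : H.neighborSet x, if (w : V) = u then 0 else NF H n x w y :=
        Finset.sum_subtype (nb H x) (fun z => hmem x z) (fun z => if z = u then 0 else NF H n x z y)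
      rw [h3, h4, h5]
      refine Finset.sum_le_sum fun w _ => ?_
      by_cases hwu : (w : V) = u
      · rw [if_pos hwu]
        have h6 : (H.finsetWalkLength n w y).filter
            (fun q => (w : V) ≠ u ∧ q.IsPath ∧ x ∉ q.support) = ∅ := by
          refine Finset.filter_eq_empty_iff.2 fun q _ hq => hq.1 hwu
        rw [h6]
        simp
      · rw [if_neg hwu]
        refine le_trans ?_ (ih x w)
        have h6 : ((H.finsetWalkLength n w y).filter
            (fun q => (w : V) ≠ u ∧ q.IsPath ∧ x ∉ q.support)).card ≤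
            ((H.finsetWalkLength n w y).filter (fun q => q.IsPath ∧ x ∉ q.support)).card := by
          refine Finset.card_le_card fun q hq => ?_
          rw [Finset.mem_filter] at hq ⊢
          exact ⟨hq.1, hq.2.2⟩
        exact_mod_cast h6

theorem card_NW (H : SimpleGraph V) [SimpleGraph.LocallyFinite H]
    (hmem : ∀ x y, y ∈ nb H x ↔ H.Adj x y) (n : ℕ) (x y : V) :
    (((H.finsetWalkLength n x y).filter (fun w => w.IsPath)).card : ℝ) ≤ NW H n x y := by
  cases n with
  | zero => exact zero_le H x y _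
  | succ n =>
    refine (step H n x y _ (fun w q => q.IsPath ∧ x ∉ q.support) ?_).trans ?_
    · intro w hw q hq
      exact (SimpleGraph.Walk.cons_isPath_iff hw q).1 hq
    · have h3 : NW H (n + 1) x y = ∑ z ∈ nb H x, NF H n x z y := rfl
      have h5 : ∑ z ∈ nb H x, NF H n x z y = ∑ w : H.neighborSet x, NF H n x w y :=
        Finset.sum_subtype (nb H x) (fun z => hmem x z) (fun z => NF H n x z y)
      rw [h3, h5]
      exact Finset.sum_le_sum fun w _ => card_NF H hmem n x w y

end IX_FU1

open IX_FU1 in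
/-- FU1: open paths. -/
theorem pr_FU1 (hPA : StPA.{u}) (hPM : StPM.{u}) (hWB : StWB.{u}) : StFU1.{u} := by
  intro V _ H _ hlf p x y
  have hmem := (hWB V H hlf).1
  let _ : SimpleGraph.LocallyFinite H := fun x => (hlf x).fintype
  have hp0 : (0 : ℝ) ≤ p := p.2.1
  -- the paths of length `n`
  obtain ⟨F, hF⟩ : ∃ F : ℕ → Finset (H.Walk x y),
      ∀ n, F n = (H.finsetWalkLength n x y).filter (fun w => w.IsPath) := ⟨_, fun _ => rfl⟩
  have hFm : ∀ n (w : H.Walk x y), w ∈ F n ↔ w.length = n ∧ w.IsPath := by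
    intro n w
    rw [hF, Finset.mem_filter, SimpleGraph.mem_finsetWalkLength_iff]
  have hae : ∀ᵐ s ∂(perc H p), s ⊆ H.edgeSet := setBernoulli_ae_subset
  have h1 : perc H p {s | y ∈ Cluster s x} ≤ perc H p (⋃ n : ℕ, ⋃ w ∈ F n,
      {s | ((w.edges.toFinset : Finset (Sym2 V)) : Set (Sym2 V)) ⊆ s}) := by
    refine measure_mono_ae ?_
    filter_upwards [hae] with s hs hy
    have hr : (SimpleGraph.fromEdgeSet s).Reachable x y := hy
    obtain ⟨q, hq⟩ := hr.exists_isPath
    have hqe : ∀ e ∈ q.edges, e ∈ s := by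
      intro e he
      have h2 := q.edges_subset_edgeSet he
      rw [SimpleGraph.edgeSet_fromEdgeSet] at h2
      exact h2.1
    have hqH : ∀ e ∈ q.edges, e ∈ H.edgeSet := fun e he => hs (hqe e he)
    refine Set.mem_iUnion.2 ⟨q.length, Set.mem_iUnion.2 ⟨q.transfer H hqH, Set.mem_iUnion.2 ⟨?_, ?_⟩⟩⟩
    · rw [hFm]
      exact ⟨SimpleGraph.Walk.length_transfer q hqH, hq.transfer hqH⟩
    · intro e he
      rw [Finset.mem_coe, List.mem_toFinset, SimpleGraph.Walk.edges_transfer] at he
      exact hqe e he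
  refine h1.trans ((measure_iUnion_le _).trans (ENNReal.tsum_le_tsum fun n => ?_))
  split_ifs with hn
  · refine (measure_biUnion_finset_le _ _).trans ?_
    have h2 : ∀ w ∈ F n, perc H p {s | ((w.edges.toFinset : Finset (Sym2 V)) : Set (Sym2 V)) ⊆ s} =
        ENNReal.ofReal ((p : ℝ) ^ n) := by
      intro w hw
      rw [hFm] at hw
      have hE : ((w.edges.toFinset : Finset (Sym2 V)) : Set (Sym2 V)) ⊆ H.edgeSet := by
        intro e he
        rw [Finset.mem_coe, List.mem_toFinset] at he
        exact w.edges_subset_edgeSet he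
      rw [SO.IX_U0.all_open hPA hPM H p w.edges.toFinset hE,
        List.toFinset_card_of_nodup hw.2.isTrail.edges_nodup,
        SimpleGraph.Walk.length_edges, hw.1]
    rw [Finset.sum_congr rfl h2, Finset.sum_const, nsmul_eq_mul, ← ENNReal.ofReal_natCast,
      ← ENNReal.ofReal_mul (Nat.cast_nonneg _)]
    refine ENNReal.ofReal_le_ofReal ?_
    rw [mul_comm]
    refine mul_le_mul_of_nonneg_left ?_ (pow_nonneg hp0 n)
    rw [hF]
    exact card_NW H hmem n x y
  · have h3 : (⋃ w ∈ F n, {s | ((w.edges.toFinset : Finset (Sym2 V)) : Set (Sym2 V)) ⊆ s}) = ∅ := by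
      refine Set.eq_empty_of_forall_notMem fun s hs => ?_
      obtain ⟨w, hw⟩ := Set.mem_iUnion.1 hs
      obtain ⟨hw1, _⟩ := Set.mem_iUnion.1 hw
      rw [hFm] at hw1
      apply hn
      rw [← hw1.1]
      exact H.dist_le w
    rw [h3, measure_empty]

end Pool.Agent.Work.MP_c58d8b_pr.FC
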