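import Pool.Agent.Work.MP_c58d8b_pr.FC.Stmts
import Pool.Agent.Work.MP_c58d8b_pr.SO.I_U3

set_option autoImplicit false

namespace Pool.Agent.Work.MP_c58d8b_pr.FC

open Pool.Agent.Work.MP_c58d8b_pr.SO
open MeasureTheory ProbabilityTheory Set
open scoped ENNReal unitInterval Classical

universe u

namespace IX_FU2

/-- The tail of a summable nonnegative sequence, in extended nonnegative reals. -/
theorem tail (f : ℕ → ℝ) (hf0 : ∀ n, 0 ≤ f n) (hf : Summable f) (ε : ℝ) (hε : 0 < ε) :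
    ∃ D : ℕ, (∑' n : ℕ, if D ≤ n then ENNReal.ofReal (f n) else 0) ≤ ENNReal.ofReal ε := by
  have ht : Filter.Tendsto (fun D : ℕ => ∑' n, f (n + D)) Filter.atTop (nhds 0) :=
    tendsto_sum_nat_add f
  obtain ⟨D, hD⟩ := ((ht.eventually (gt_mem_nhds hε)).exists)
  refine ⟨D, ?_⟩
  have h1 : (∑' n : ℕ, if D ≤ n then ENNReal.ofReal (f n) else 0) =
      ∑' n : ℕ, ENNReal.ofReal (f (n + D)) := by
    have h := Summable.sum_add_tsum_nat_add'
      (f := fun n : ℕ => if D ≤ n then ENNReal.ofReal (f n) else 0) (k := D) ENNReal.summable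
    rw [← h]
    have h0 : ∑ i ∈ Finset.range D, (if D ≤ i then ENNReal.ofReal (f i) else 0) = 0 := by
      refine Finset.sum_eq_zero fun i hi => ?_
      rw [if_neg]
      exact not_le.2 (Finset.mem_range.1 hi)
    rw [h0, zero_add]
    refine tsum_congr fun n => ?_
    rw [if_pos (Nat.le_add_left D n)]
  rw [h1, ← ENNReal.ofReal_tsum_of_nonneg (fun n => hf0 _) ((summable_nat_add_iff D).2 hf)]
  exact ENNReal.ofReal_le_ofReal hD.le

theorem summ (r : ℝ) (h0 : 0 ≤ r) (h1 : r < 1) :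
    Summable fun n : ℕ => 2 * ((n : ℝ) + 1) * r ^ n := by
  have hn : ‖r‖ < 1 := by
    rw [Real.norm_eq_abs, abs_of_nonneg h0]
    exact h1
  have ha : Summable fun n : ℕ => (n : ℝ) ^ 1 * r ^ n :=
    summable_pow_mul_geometric_of_norm_lt_one 1 hn
  have hb : Summable fun n : ℕ => r ^ n := summable_geometric_of_lt_one h0 h1
  refine ((ha.add hb).mul_left 2).congr fun n => ?_
  ring

end IX_FU2

theorem pr_FU2 (hU2 : StU2.{u}) (hSM : StSM.{u}) (hFB4 : StFB4.{u}) (hFU1 : StFU1.{u}) :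
    StFU2.{u} := by
  intro V _ _ Γ H hG o a hd ha hda hSp
  have ha0 : 0 < a := lt_of_lt_of_le one_pos ha
  unfold pu
  refine le_csInf ⟨1, 1, rfl, ?_⟩ ?_
  · unfold perc
    rw [setBernoulli_one]
    exact Measure.dirac_apply_of_mem (IX_U3.one_mem H hG.conn)
  · rintro t ⟨p, rfl, hu⟩
    by_contra hlt
    push Not at hlt
    have hp0 : (0 : ℝ) ≤ p := p.2.1
    have hpa : (p : ℝ) * a < 1 := by
      rw [lt_div_iff₀ ha0] at hlt
      exact hlt
    have hpa0 : 0 ≤ (p : ℝ) * a := mul_nonneg hp0 ha0.le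
    refine hU2 V Γ H hG p (fun ε hε => ?_) hu
    obtain ⟨D, hD⟩ := IX_FU2.tail (fun n : ℕ => 2 * ((n : ℝ) + 1) * ((p : ℝ) * a) ^ n)
      (fun n => by positivity) (IX_FU2.summ _ hpa0 hpa) ε hε
    refine ⟨D, fun x y hxy => (hFU1 V H hG.conn hG.lf p x y).trans (le_trans ?_ hD)⟩
    refine ENNReal.tsum_le_tsum fun n => ?_
    by_cases hn : H.dist x y ≤ n
    · rw [if_pos hn, if_pos (hxy.trans hn)]
      refine ENNReal.ofReal_le_ofReal ?_
      have hNW := (hFB4 V H hG.lf (nb H o).card (fun x => (hSM V Γ H hG o x).1) hd a ha hda hSp).1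
        n x y
      calc (p : ℝ) ^ n * NW H n x y ≤ (p : ℝ) ^ n * (2 * ((n : ℝ) + 1) * a ^ n) :=
            mul_le_mul_of_nonneg_left hNW (pow_nonneg hp0 n)
        _ = 2 * ((n : ℝ) + 1) * ((p : ℝ) * a) ^ n := by
            rw [mul_pow]
            ring
    · rw [if_neg hn]
      exact bot_le

end Pool.Agent.Work.MP_c58d8b_pr.FC
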