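import Pool.Agent.Work.MP_c58d8b_pr.FC.Stmts

/-!
# MP_c58d8b_pr, block FC: the theorem
-/

set_option autoImplicit false

namespace Pool.Agent.Work.MP_c58d8b_pr.FC

open Pool.Agent.Work.MP_c58d8b_pr.SO
open MeasureTheory ProbabilityTheory Set
open scoped ENNReal unitInterval Classical

universe u

namespace IX_FZ

lemma nb_nonempty {V : Type u} [Infinite V] (H : SimpleGraph V) (hWB : StWB.{u})
    (hc : H.Connected) (hl : LocFinite H) (o : V) : (nb H o).Nonempty := by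
  obtain ⟨y, hy⟩ := exists_ne o
  obtain ⟨w⟩ := hc.preconnected o y
  cases w with
  | nil => exact absurd rfl hy
  | cons h p => exact ⟨_, ((hWB V H hl).1 o _).2 h⟩

lemma two_le {V : Type u} [Infinite V] (H : SimpleGraph V) (hWB : StWB.{u})
    (hc : H.Connected) (hl : LocFinite H) (o : V) (hreg : ∀ x, (nb H x).card = (nb H o).card) :
    2 ≤ (nb H o).card := by
  have h1 : 1 ≤ (nb H o).card := Finset.card_pos.2 (nb_nonempty H hWB hc hl o)
  by_contra hlt
  have h2 : (nb H o).card = 1 := by omega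
  have hmem := (hWB V H hl).1
  obtain ⟨y, hy⟩ := Finset.card_eq_one.1 h2
  have hoy : H.Adj o y := (hmem o y).1 (by rw [hy]; exact Finset.mem_singleton_self y)
  obtain ⟨z, hz⟩ := Finset.card_eq_one.1 ((hreg y).trans h2)
  have hzo : o = z := by
    have : o ∈ nb H y := (hmem y o).2 hoy.symm
    rw [hz] at this
    exact Finset.mem_singleton.1 this
  have hcl : ∀ u v, H.Adj u v → (u = o ∨ u = y) → (v = o ∨ v = y) := by
    intro u v huv hu
    rcases hu with rfl | rfl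
    · right
      have : v ∈ nb H u := (hmem _ v).2 huv
      rw [hy] at this
      exact Finset.mem_singleton.1 this
    · left
      have : v ∈ nb H u := (hmem _ v).2 huv
      rw [hz] at this
      exact (Finset.mem_singleton.1 this).trans hzo.symm
  have hall : ∀ v, v = o ∨ v = y := by
    intro v
    obtain ⟨w⟩ := hc.preconnected o v
    have key : ∀ (u v : V) (_w : H.Walk u v), (u = o ∨ u = y) → (v = o ∨ v = y) := by
      intro u v w
      induction w with
      | nil => exact id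
      | cons h p ih => exact fun hu => ih (hcl _ _ h hu)
    exact key o v w (Or.inl rfl)
  have hfin : (Set.univ : Set V).Finite := by
    refine Set.Finite.subset (Set.toFinite {o, y}) ?_
    intro v _
    rcases hall v with h | h <;> simp [h]
  exact Set.infinite_univ hfin

end IX_FZ

theorem pr_FZ (hB : Basics.{u}) (hWB : StWB.{u}) (hSM : StSM.{u}) (hFC7 : StFC7.{u})
    (hFU2 : StFU2.{u}) (hFU3 : StFU3.{u}) (hFR1 : StFR1) : StFZ.{u} := by
  intro δ ε hδ hδ1 hε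
  have hs1 : 1 < √(1 + δ) := by
    rw [Real.lt_sqrt zero_le_one]; linarith
  have hs0 : 0 < √(1 + δ) := by linarith
  have hsq : √(1 + δ) ^ 2 = 1 + δ := Real.sq_sqrt (by linarith)
  have hslt : √(1 + δ) < 1 + δ := by nlinarith
  set b : ℝ := 1 / √(1 + δ) with hb
  have hb0 : 0 < b := by positivity
  have hb1 : b < 1 := by rw [hb, div_lt_one hs0]; exact hs1
  have hb2 : b ^ 2 = 1 / (1 + δ) := by rw [hb, div_pow, hsq, one_pow]
  have hbs : 1 / b = √(1 + δ) := by rw [hb, one_div_one_div]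
  set t₂ : ℝ := min (1 + ε) ((1 + √(1 + δ)) / 2) with ht₂
  have h2a : 1 < t₂ := lt_min (by linarith) (by linarith)
  have h2b : t₂ ≤ 1 + ε := min_le_left _ _
  have h2d : t₂ < √(1 + δ) := lt_of_le_of_lt (min_le_right _ _) (by linarith)
  have h2c : t₂ * b < 1 := by
    rw [hb, mul_one_div, div_lt_one hs0]; exact h2d
  obtain ⟨κ, θ, hκ, hθ0, hθ1, hcore⟩ := hFC7 b ((1 + t₂) / 2) t₂ hb0 hb1 (by linarith)
    (by linarith) h2c
  refine ⟨κ, θ, hκ, hθ0, hθ1, ?_⟩
  intro V _ Γ H hg o A a α g hg3 hgirth hA1 hA2 hsp ha h1 h2 hα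
  have : Countable V := hB.countable V H hg.conn hg.lf
  have hreg : ∀ x, (nb H x).card = (nb H o).card := fun x => (hSM V Γ H hg o x).1
  have hd2 := IX_FZ.two_le H hWB hg.conn hg.lf o hreg
  have hd1 : 1 ≤ (nb H o).card := by omega
  have hdr : (2 : ℝ) ≤ (nb H o).card := by exact_mod_cast hd2
  have ha0 : 0 ≤ a := by
    obtain ⟨y, hy⟩ := IX_FZ.nb_nonempty H hWB hg.conn hg.lf o
    exact (abs_nonneg _).trans (ha y hy)
  obtain ⟨r1, r2, r3, r4, r5, r6⟩ := hFR1 δ (((nb H o).card : ℝ) - 1) A (sig Γ H o)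
    ((A + √(A ^ 2 - 4 * (((nb H o).card : ℝ) - 1))) / 2) α hδ hδ1 (by linarith) hA1 hA2 rfl hα
  set a' : ℝ := (A + √(A ^ 2 - 4 * (((nb H o).card : ℝ) - 1))) / 2 with ha'
  have ha'0 : 0 < a' := by linarith
  have hab : a' ≤ b ^ 2 * α := by
    rw [hb2, one_div, inv_mul_eq_div, le_div_iff₀ (by linarith)]
    linarith
  rw [← r3] at hsp
  have hα1 : 1 + δ ≤ α := by nlinarith
  have hpI : t₂ / α ∈ I := ⟨by positivity, (div_le_one r4).2 (by linarith)⟩
  have hperc : 0 < perc H (⟨t₂ / α, hpI⟩ : I) (HeavyEvent Γ) :=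
    hcore V Γ H hg o a α a' g hg3 hgirth hd1 ha0 r1 r4 r2 hab r5.symm hsp ha h1 h2 _ rfl
  have hbdd : BddBelow {t : ℝ | ∃ p : I, (p : ℝ) = t ∧ 0 < perc H p (HeavyEvent Γ)} := by
    refine ⟨0, ?_⟩
    rintro t ⟨p, rfl, _⟩
    exact p.2.1
  have hph1 : ph H Γ ≤ t₂ / α := csInf_le hbdd ⟨_, rfl, hperc⟩
  have hb4 : ((nb H o).card : ℝ) - 1 ≤ b ^ 4 * α ^ 2 := by
    have h3 : a' ^ 2 ≤ (b ^ 2 * α) ^ 2 := pow_le_pow_left₀ ha'0.le hab 2
    have h4 : (b ^ 2 * α) ^ 2 = b ^ 4 * α ^ 2 := by ring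
    linarith
  have hph2 : 1 / α ≤ ph H Γ := by
    refine le_csInf ⟨_, ⟨_, rfl, hperc⟩⟩ ?_
    rintro t ⟨p, rfl, hp⟩
    by_contra hlt
    push Not at hlt
    have h3 : (p : ℝ) * α < 1 := by
      rw [lt_div_iff₀ r4] at hlt; exact hlt
    exact absurd (hFU3 V Γ H hg o p α b hd1 hb0 hb1 r4 hb4 r5.symm h3) hp.ne'
  have hpu1 : 1 / a' ≤ pu H := hFU2 V Γ H hg o a' hd1 r1 r2 hsp
  have e1 : α * (t₂ / α) = t₂ := by field_simp
  have e2 : α * (1 / α) = 1 := by field_simp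
  refine ⟨?_, ?_, ?_, ?_⟩
  · have := mul_le_mul_of_nonneg_left hph2 r4.le
    linarith
  · have := mul_le_mul_of_nonneg_left hph1 r4.le
    linarith
  · have h3 := mul_le_mul_of_nonneg_left hpu1 r4.le
    have h4 : 1 + δ ≤ α * (1 / a') := by
      rw [mul_one_div, le_div_iff₀ ha'0]; exact r6
    linarith
  · refine hph1.trans_lt (lt_of_lt_of_le ?_ hpu1)
    rw [div_lt_div_iff₀ r4 ha'0]
    nlinarith

end Pool.Agent.Work.MP_c58d8b_pr.FC
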