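import Pool.Agent.Work.MP_c58d8b_pr.SO.All
import Pool.Agent.Work.MP_c58d8b_pr.FC.I_FA1
import Pool.Agent.Work.MP_c58d8b_pr.FC.I_FA2
import Pool.Agent.Work.MP_c58d8b_pr.FC.I_FA3
import Pool.Agent.Work.MP_c58d8b_pr.FC.I_FA4
import Pool.Agent.Work.MP_c58d8b_pr.FC.I_FB1
import Pool.Agent.Work.MP_c58d8b_pr.FC.I_FB2
import Pool.Agent.Work.MP_c58d8b_pr.FC.I_FB3
import Pool.Agent.Work.MP_c58d8b_pr.FC.I_FB4
import Pool.Agent.Work.MP_c58d8b_pr.FC.I_FC1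
import Pool.Agent.Work.MP_c58d8b_pr.FC.I_FC2
import Pool.Agent.Work.MP_c58d8b_pr.FC.I_FC3
import Pool.Agent.Work.MP_c58d8b_pr.FC.I_FC4
import Pool.Agent.Work.MP_c58d8b_pr.FC.I_FC6
import Pool.Agent.Work.MP_c58d8b_pr.FC.I_FM1
import Pool.Agent.Work.MP_c58d8b_pr.FC.I_FM2
import Pool.Agent.Work.MP_c58d8b_pr.FC.I_FM3
import Pool.Agent.Work.MP_c58d8b_pr.FC.I_FM4
import Pool.Agent.Work.MP_c58d8b_pr.FC.I_FM5
import Pool.Agent.Work.MP_c58d8b_pr.FC.I_FM6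
import Pool.Agent.Work.MP_c58d8b_pr.FC.I_FC5
import Pool.Agent.Work.MP_c58d8b_pr.FC.I_FC7
import Pool.Agent.Work.MP_c58d8b_pr.FC.I_FU1
import Pool.Agent.Work.MP_c58d8b_pr.FC.I_FU2
import Pool.Agent.Work.MP_c58d8b_pr.FC.I_FU3
import Pool.Agent.Work.MP_c58d8b_pr.FC.I_FR1
import Pool.Agent.Work.MP_c58d8b_pr.FC.I_FZ

/-!
# MP_c58d8b_pr, block FC: assembly
-/

set_option autoImplicit false

namespace Pool.Agent.Work.MP_c58d8b_pr.FC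

universe u

theorem all_FA1 : StFA1.{u} := pr_FA1 SO.all_WB

theorem all_FA2 : StFA2.{u} := pr_FA2 

theorem all_FA3 : StFA3.{u} := pr_FA3 SO.all_WB all_FA1 all_FA2

theorem all_FA4 : StFA4.{u} := pr_FA4 all_FA1 all_FA3

theorem all_FB1 : StFB1.{u} := pr_FB1 

theorem all_FB2 : StFB2.{u} := pr_FB2 all_FB1 SO.all_WB

theorem all_FB3 : StFB3 := pr_FB3 

theorem all_FB4 : StFB4.{u} := pr_FB4 all_FA3 all_FA4 all_FB2 all_FB3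

theorem all_FC1 : StFC1.{u} := pr_FC1 NBASICS.prf (NWEIGHT.prf NBASICS.prf) SO.all_WB SO.all_SM all_FA1 all_FA2

theorem all_FC2 : StFC2 := pr_FC2 

theorem all_FC3 : StFC3.{u} := pr_FC3 SO.all_SM all_FA1 all_FA3 all_FB4 all_FC1 all_FC2

theorem all_FC4 : StFC4.{u} := pr_FC4 (NWEIGHT.prf NBASICS.prf) SO.all_WB all_FA1 all_FC3

theorem all_FC6 : StFC6 := pr_FC6 

theorem all_FM1 : StFM1.{u} := pr_FM1 SO.all_PB SO.all_PI SO.all_PL SO.all_PA SO.all_CB SO.all_CR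

theorem all_FM2 : StFM2.{u} := pr_FM2 SO.all_CB

theorem all_FM3 : StFM3.{u} := pr_FM3 SO.all_WB

theorem all_FM4 : StFM4.{u} := pr_FM4 SO.all_PB SO.all_M3 all_FM2 all_FM3

theorem all_FM5 : StFM5.{u} := pr_FM5 SO.all_PB SO.all_WB SO.all_CN all_FM1 all_FM4

theorem all_FM6 : StFM6.{u} := pr_FM6 SO.all_PB SO.all_CB SO.all_WB all_FM5

theorem all_FC5 : StFC5.{u} := pr_FC5 (NWEIGHT.prf NBASICS.prf) SO.all_WB SO.all_SM SO.all_GA all_FC4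

theorem all_FC7 : StFC7.{u} := pr_FC7 NBASICS.prf (NWEIGHT.prf NBASICS.prf) all_FC5 all_FC6 all_FM6 SO.all_D5 SO.all_HV

theorem all_FU1 : StFU1.{u} := pr_FU1 SO.all_PA SO.all_PM SO.all_WB

theorem all_FU2 : StFU2.{u} := pr_FU2 SO.all_U2 SO.all_SM all_FB4 all_FU1

theorem all_FU3 : StFU3.{u} := pr_FU3 (NWEIGHT.prf NBASICS.prf) NMEAS.prf all_FA1 all_FU1 all_FC1 all_FC2

theorem all_FR1 : StFR1 := pr_FR1 

theorem all_FZ : StFZ.{u} := pr_FZ NBASICS.prf SO.all_WB SO.all_SM all_FC7 all_FU2 all_FU3 all_FR1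

end Pool.Agent.Work.MP_c58d8b_pr.FC
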