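import Pool.Agent.Work.MP_c58d8b_pr.SO.Stmts

/-!
# MP_c58d8b_pr, block FC (graphs with few short cycles; captain helper80): definitions
-/

set_option autoImplicit false

namespace Pool.Agent.Work.MP_c58d8b_pr.FC

open Pool.Agent.Work.MP_c58d8b_pr.SO
open MeasureTheory ProbabilityTheory Set
open scoped ENNReal unitInterval Classical

universe u

variable {V : Type u}

/-- The number of the nonbacktracking walks of length `n` from `x` to `y` whose first step does not
go to `u`. -/
noncomputable def NF (H : SimpleGraph V) : ℕ → V → V → V → ℝ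
  | 0, _, x, y => if x = y then 1 else 0
  | n + 1, u, x, y => ∑ z ∈ (nb H x).erase u, NF H n x z y

/-- The number of the nonbacktracking walks of length `n` from `x` to `y`. -/
noncomputable def NW (H : SimpleGraph V) : ℕ → V → V → ℝ
  | 0, x, y => if x = y then 1 else 0
  | n + 1, x, y => ∑ z ∈ nb H x, NF H n x z y

/-- The cycle term of the sharp main inequality; `g` is a lower bound for the girth. -/
noncomputable def Rn (H : SimpleGraph V) (p : ℝ) (g : ℕ) (S : Finset V) (f : V → ℝ) (z : V) : ℝ :=
  ∑ n ∈ Finset.Icc g S.card, p ^ n * ∑ i ∈ Finset.Icc 1 n, ∑ y ∈ S,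
    f y * NW H i y z * NW H (n - i) z y

/-- The closed walks of length `n` in `S` which start at `y` and do not repeat a vertex (except that
the last vertex is the first one). -/
noncomputable def CS (H : SimpleGraph V) (S : Finset V) (n : ℕ) (y : V) :
    Finset (Fin (n + 1) → V) :=
  (CW H S n y).filter fun v => Function.Injective fun i : Fin n => v i.castSucc

/-- The polynomials `q_0 = 1`, `q_1 = X`, `q_2 = X² - d`, `q_(n+3) = X q_(n+2) - (d - 1) q_(n+1)`. -/
noncomputable def qp (d : ℝ) : ℕ → Polynomial ℝ
  | 0 => 1
  | 1 => Polynomial.X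
  | 2 => Polynomial.X ^ 2 - Polynomial.C d
  | n + 3 => Polynomial.X * qp d (n + 2) - Polynomial.C (d - 1) * qp d (n + 1)

end Pool.Agent.Work.MP_c58d8b_pr.FC
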