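import Pool.Agent.Work.MP_c58d8b_pr.FC.Stmts

/-!
# MP_c58d8b_pr, block FC, item FC1: weighted number of nonbacktracking walks
-/

set_option autoImplicit false

namespace Pool.Agent.Work.MP_c58d8b_pr.FC

open Pool.Agent.Work.MP_c58d8b_pr.SO
open MeasureTheory ProbabilityTheory Set
open scoped ENNReal unitInterval Classical

universe u

theorem pr_FC1 (hB : Basics.{u}) (hW : WeightStmt.{u}) (hWB : StWB.{u}) (hSM : StSM.{u})
    (hFA1 : StFA1.{u}) (hFA2 : StFA2.{u}) : StFC1.{u} := by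
  intro V Γ H hG o z n F
  obtain ⟨hpos, -, hmul⟩ := hW V H Γ hG.conn hG.lf hG.pres
  obtain ⟨wb1, -⟩ := hWB V H hG.lf
  obtain ⟨a1, -, a3, a4, a5⟩ := hFA1 V H hG.lf
  obtain ⟨b1, b2⟩ := hFA2 V H hG.lf (nb H o).card (fun x => (hSM V Γ H hG o x).1)
  set d : ℕ := (nb H o).card with hd
  set sg : ℝ := sig Γ H o with hsg
  -- the sum over the neighbours
  have hnb : ∀ (z : V) (c : ℝ), ∑ v ∈ nb H z, √(weight Γ v o) * c = √(weight Γ z o) * (sg * c) := by
    intro z c
    have h2 : ∀ v ∈ nb H z, √(weight Γ v o) * c = √(weight Γ v z) * (√(weight Γ z o) * c) := by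
      intro v _
      rw [← hmul v z o, Real.sqrt_mul (hpos v z).le, mul_assoc]
    rw [Finset.sum_congr rfl h2, ← Finset.sum_mul, (hSM V Γ H hG o z).2.1]
    ring
  -- balls around the neighbours
  have hball : ∀ (z v : V) (k : ℕ) (F : Finset V), v ∈ nb H z →
      (∀ y, H.dist z y ≤ k + 1 → y ∈ F) → ∀ y, H.dist v y ≤ k → y ∈ F := by
    intro z v k F hv hF y hy
    apply hF
    have h1 : H.dist z v = 1 := SimpleGraph.dist_eq_one_iff_adj.2 ((wb1 z v).1 hv)
    have h2 := hG.conn.dist_triangle (u := z) (v := v) (w := y)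
    omega
  -- one step
  have hstep : ∀ (k : ℕ), (∀ (z : V) (F : Finset V), (∀ y, H.dist z y ≤ k → y ∈ F) →
      ∑ y ∈ F, √(weight Γ y o) * NW H k z y = √(weight Γ z o) * (qp d k).eval sg) →
      ∀ (z : V) (F : Finset V), (∀ y, H.dist z y ≤ k + 1 → y ∈ F) →
      ∑ y ∈ F, √(weight Γ y o) * ∑ v ∈ nb H z, NW H k v y =
        √(weight Γ z o) * (sg * (qp d k).eval sg) := by
    intro k hk z F hF
    have h1 : ∑ y ∈ F, √(weight Γ y o) * ∑ v ∈ nb H z, NW H k v y =
        ∑ v ∈ nb H z, ∑ y ∈ F, √(weight Γ y o) * NW H k v y := by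
      rw [Finset.sum_comm]
      refine Finset.sum_congr rfl fun y _ => ?_
      rw [Finset.mul_sum]
    rw [h1, ← hnb z]
    exact Finset.sum_congr rfl fun v hv => hk v F (hball z v k F hv hF)
  have hP0 : ∀ (z : V) (F : Finset V), (∀ y, H.dist z y ≤ 0 → y ∈ F) →
      ∑ y ∈ F, √(weight Γ y o) * NW H 0 z y = √(weight Γ z o) * (qp d 0).eval sg := by
    intro z F hF
    have hz : z ∈ F := hF z (by rw [SimpleGraph.dist_self])
    have h1 : ∀ y ∈ F, √(weight Γ y o) * NW H 0 z y = if z = y then √(weight Γ z o) else 0 := by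
      intro y _
      rw [a3]
      by_cases h : z = y
      · subst h; simp
      · simp [h]
    rw [Finset.sum_congr rfl h1, Finset.sum_ite_eq, if_pos hz]
    simp [qp]
  have hP1 : ∀ (z : V) (F : Finset V), (∀ y, H.dist z y ≤ 1 → y ∈ F) →
      ∑ y ∈ F, √(weight Γ y o) * NW H 1 z y = √(weight Γ z o) * (qp d 1).eval sg := by
    intro z F hF
    have h1 := hstep 0 hP0 z F (by simpa using hF)
    have h2 : ∀ y ∈ F, √(weight Γ y o) * NW H 1 z y =
        √(weight Γ y o) * ∑ v ∈ nb H z, NW H 0 v y := by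
      intro y _
      rw [a4]
    rw [Finset.sum_congr rfl h2, h1]
    simp [qp]
  have hP2 : ∀ (z : V) (F : Finset V), (∀ y, H.dist z y ≤ 2 → y ∈ F) →
      ∑ y ∈ F, √(weight Γ y o) * NW H 2 z y = √(weight Γ z o) * (qp d 2).eval sg := by
    intro z F hF
    have h1 := hstep 1 hP1 z F hF
    have h3 := hP0 z F (fun y hy => hF y (by omega))
    have h2 : ∀ y ∈ F, √(weight Γ y o) * NW H 2 z y =
        √(weight Γ y o) * ∑ v ∈ nb H z, NW H 1 v y -
          (d : ℝ) * (√(weight Γ y o) * NW H 0 z y) := by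
      intro y _
      rw [b1]
      ring
    rw [Finset.sum_congr rfl h2, Finset.sum_sub_distrib, ← Finset.mul_sum, h1, h3]
    simp only [qp, Polynomial.eval_sub, Polynomial.eval_pow, Polynomial.eval_X,
      Polynomial.eval_C, Polynomial.eval_one]
    ring
  have hP3 : ∀ n : ℕ, (∀ (z : V) (F : Finset V), (∀ y, H.dist z y ≤ n + 1 → y ∈ F) →
      ∑ y ∈ F, √(weight Γ y o) * NW H (n + 1) z y = √(weight Γ z o) * (qp d (n + 1)).eval sg) →
      (∀ (z : V) (F : Finset V), (∀ y, H.dist z y ≤ n + 2 → y ∈ F) →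
      ∑ y ∈ F, √(weight Γ y o) * NW H (n + 2) z y = √(weight Γ z o) * (qp d (n + 2)).eval sg) →
      ∀ (z : V) (F : Finset V), (∀ y, H.dist z y ≤ n + 3 → y ∈ F) →
      ∑ y ∈ F, √(weight Γ y o) * NW H (n + 3) z y =
        √(weight Γ z o) * (qp d (n + 3)).eval sg := by
    intro n hA hC z F hF
    have h1 := hstep (n + 2) hC z F hF
    have h3 := hA z F (fun y hy => hF y (by omega))
    have h2 : ∀ y ∈ F, √(weight Γ y o) * NW H (n + 3) z y =
        √(weight Γ y o) * ∑ v ∈ nb H z, NW H (n + 2) v y -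
          ((d : ℝ) - 1) * (√(weight Γ y o) * NW H (n + 1) z y) := by
      intro y _
      rw [b2]
      ring
    rw [Finset.sum_congr rfl h2, Finset.sum_sub_distrib, ← Finset.mul_sum, h1, h3]
    have h4 : (qp d (n + 3)).eval sg = sg * (qp d (n + 2)).eval sg -
        ((d : ℝ) - 1) * (qp d (n + 1)).eval sg := by
      simp only [qp, Polynomial.eval_sub, Polynomial.eval_mul, Polynomial.eval_X,
        Polynomial.eval_C]
    rw [h4]
    ring
  have hP : ∀ n : ℕ, (∀ (z : V) (F : Finset V), (∀ y, H.dist z y ≤ n → y ∈ F) →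
      ∑ y ∈ F, √(weight Γ y o) * NW H n z y = √(weight Γ z o) * (qp d n).eval sg) ∧
      (∀ (z : V) (F : Finset V), (∀ y, H.dist z y ≤ n + 1 → y ∈ F) →
      ∑ y ∈ F, √(weight Γ y o) * NW H (n + 1) z y = √(weight Γ z o) * (qp d (n + 1)).eval sg) ∧
      (∀ (z : V) (F : Finset V), (∀ y, H.dist z y ≤ n + 2 → y ∈ F) →
      ∑ y ∈ F, √(weight Γ y o) * NW H (n + 2) z y = √(weight Γ z o) * (qp d (n + 2)).eval sg) := by
    intro n
    induction n with
    | zero => exact ⟨hP0, hP1, hP2⟩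
    | succ n ih => exact ⟨ih.2.1, ih.2.2, hP3 n ih.2.1 ih.2.2⟩
  have hfin := hB.ball_finite V H hG.conn hG.lf z n
  have h1 := (hP n).1 z (F ∪ hfin.toFinset) (fun y hy =>
    Finset.mem_union_right _ (hfin.mem_toFinset.2 hy))
  rw [← h1]
  exact Finset.sum_le_sum_of_subset_of_nonneg Finset.subset_union_left
    (fun y _ _ => mul_nonneg (Real.sqrt_nonneg _) (a1 n z y))

end Pool.Agent.Work.MP_c58d8b_pr.FC
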