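import Pool.Agent.Work.MP_c58d8b_pr.FC.Defs

/-!
# MP_c58d8b_pr, block FC (few short cycles; captain helper80): statements with complete proofs

THEOREM FC. For all `0 < δ < 1`, `ε > 0` there are `κ > 0`, `θ < 1` such that for every transitive graph of
degree `d`, girth at least `g ≥ 3`, `σ = ∑_(y ~ o) √w(y)`, adjacency form at most `A`,
`2 √(d - 1) ≤ A ≤ (1 - δ) σ`, with `d θ^g ≤ κ σ²` and `d θ^g a ≤ κ σ mom`:
`1 / α ≤ p_h ≤ (1 + ε) / α`, `p_u ≥ (1 + δ) / α`, where `α + (d - 1) / α = σ` (large root). This contains large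
degree (`g = 3`) and large girth (`d` fixed), unimodular or not.

Item `FX`: statement `StFX`, file `FC/I_FX.lean`, theorem `pr_FX`. The items of block SO are theorems
(`SO/I_X.lean`, `SO.pr_X`); use them as hypotheses `(hX : StX.{u})`. Notation: `w x = weight Γ x o`,
`l x = log (w x)`, `C` = cluster of `o`, `C_e` = cluster of `o` if the edge `e` is removed, `σ = sig Γ H o`,
`d = (nb H o).card`, `NW n = NW H n`. Many items are copies of landed files of SO with `Wk` replaced by `NW`.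
-/

set_option autoImplicit false

namespace Pool.Agent.Work.MP_c58d8b_pr.FC

open Pool.Agent.Work.MP_c58d8b_pr.SO
open MeasureTheory ProbabilityTheory Set
open scoped ENNReal unitInterval Classical

universe u

/-! ## A. Nonbacktracking walks -/

/-- [FA1] (EASY-MEDIUM) Basic facts: induction on `n`; `(nb H x).erase u ⊆ nb H x`. Last part: if
`NF n u x y ≠ 0` or `NW n x y ≠ 0` then `dist x y ≤ n` (`nb H x` = neighbours of `x`). (hWB : StWB) -/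
def StFA1 : Prop := ∀ (V : Type u) (H : SimpleGraph V), LocFinite H →
  (∀ n x y, 0 ≤ NW H n x y) ∧ (∀ n u x y, 0 ≤ NF H n u x y ∧ NF H n u x y ≤ NW H n x y) ∧
  (∀ x y, NW H 0 x y = if x = y then 1 else 0) ∧
  (∀ x y, NW H 1 x y = ∑ z ∈ nb H x, NW H 0 z y) ∧
  (H.Connected → ∀ n x y, NW H n x y ≠ 0 → H.dist x y ≤ n)

/-- [FA2] (EASY-MEDIUM) Recursion in a regular graph. For `m ≥ 1`
`∑_(z ∈ nb x) NW (m+1) z y = ∑_z ∑_(v ∈ nb z) NF m z v y`; the terms with `v ≠ x` give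
`∑_z ∑_(v ∈ nb z erase x) NF m z v y = ∑_z NF (m+1) x z y = NW (m+2) x y`, the terms with `v = x` (`x ∈ nb z`)
give `∑_(z ∈ nb x) NF m z x y`; for `m = k + 1` this is `∑_z ∑_(v ∈ nb x erase z) NF k x v y =
∑_(v ∈ nb x) (d - 1) NF k x v y = (d - 1) NW (k+1) x y`, and for `m = 0` it is `d * [x = y]`. (hWB : StWB) -/
def StFA2 : Prop := ∀ (V : Type u) (H : SimpleGraph V), LocFinite H → ∀ d : ℕ,
  (∀ x, (nb H x).card = d) →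
  (∀ x y, NW H 2 x y = ∑ z ∈ nb H x, NW H 1 z y - d * NW H 0 x y) ∧
  ∀ n x y, NW H (n + 3) x y = ∑ z ∈ nb H x, NW H (n + 2) z y - ((d : ℝ) - 1) * NW H (n + 1) x y

/-- [FA3] (EASY-MEDIUM) `NW n` is a polynomial of the adjacency matrix. Induction (three steps) with
`StFA2`, `Wk (k+1) x y = ∑_(z ∈ nb x) Wk k z y`, `(X * q).coeff (k+1) = q.coeff k`; the degree by induction.
Symmetry: `Wk k x y = Wk k y x` (StWB). (hWB : StWB) (hFA1 : StFA1) (hFA2 : StFA2) -/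
def StFA3 : Prop := ∀ (V : Type u) (H : SimpleGraph V), LocFinite H → ∀ d : ℕ,
  (∀ x, (nb H x).card = d) → (∀ n, (qp d n).natDegree ≤ n) ∧
  (∀ n x y, NW H n x y = ∑ k ∈ Finset.range (n + 1), (qp d n).coeff k * Wk H k x y) ∧
  ∀ n x y, NW H n x y = NW H n y x

/-- [FA4] (EASY) Remove the first and the last step: `NW (n+2) x y = ∑_(z ∈ nb x) NF (n+1) x z y ≤
∑_z NW (n+1) z y = ∑_z NW (n+1) y z = ∑_z ∑_(z' ∈ nb y) NF n y z' z ≤ ∑_z ∑_z' NW n z' z`.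
(hFA1 : StFA1) (hFA3 : StFA3) -/
def StFA4 : Prop := ∀ (V : Type u) (H : SimpleGraph V), LocFinite H → ∀ d : ℕ,
  (∀ x, (nb H x).card = d) → ∀ n x y,
  NW H (n + 2) x y ≤ ∑ z ∈ nb H x, ∑ z' ∈ nb H y, NW H n z z'

/-! ## B. Spectral bounds -/

/-- [FB1] (MEDIUM) Polynomials of a symmetric matrix. Spectral theorem (`Matrix.IsHermitian.spectral_theorem`,
`eigenvectorBasis`; over `ℝ` `conjTranspose = transpose`): with the orthonormal eigenbasis `e_j`,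
`M e_j = λ_j e_j`, `f ⬝ q(M) g = ∑_j q(λ_j) <f, e_j> <g, e_j>`; `|λ_j| ≤ A` (take `g = e_j`), so
`|q(λ_j)| ≤ B`; Cauchy-Schwarz and Parseval. (Alternative: `LinearMap.IsSymmetric` on
`EuclideanSpace ℝ ι`.) -/
def StFB1 : Prop := ∀ (ι : Type u) [Fintype ι] [DecidableEq ι] (M : Matrix ι ι ℝ), M.IsSymm →
  ∀ A B : ℝ, 0 ≤ A → 0 ≤ B → (∀ g : ι → ℝ, |g ⬝ᵥ M.mulVec g| ≤ A * (g ⬝ᵥ g)) →
  ∀ q : Polynomial ℝ, (∀ t : ℝ, |t| ≤ A → |q.eval t| ≤ B) → ∀ f g : ι → ℝ,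
  |f ⬝ᵥ ((Polynomial.aeval M q).mulVec g)| ≤ B * √(f ⬝ᵥ f) * √(g ⬝ᵥ g)

/-- [FB2] (MEDIUM) Walks. `F_0 = F₁ ∪ F₂`, `F_(j+1) = Fn H F_j`, `F = F_n`; `M` = adjacency matrix of `H` on the
subtype `F`. For `x ∈ F_j`, `j + k ≤ n`, `y ∈ F`: `(M^k) x y = Wk k x y` (induction on `k`: `nb x ⊆ F_(j+1)`). So
`(q(M)) x y = ∑_k q.coeff k Wk k x y` for `x ∈ F₁`, `y ∈ F₂` (`Polynomial.aeval_eq_sum_range'`). The hypothesis of
`StFB1`: `g M g ≤ A g g` is `Sp`, and `g M g ≥ - |g| M |g| ≥ - A g g`. Take for `f`, `g` the indicator functions of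
`F₁`, `F₂`. (hFB1 : StFB1) (hWB : StWB) -/
def StFB2 : Prop := ∀ (V : Type u) (H : SimpleGraph V), LocFinite H → ∀ A B : ℝ, 0 ≤ A → 0 ≤ B →
  Sp H A → ∀ (q : Polynomial ℝ) (n : ℕ), q.natDegree ≤ n → (∀ t : ℝ, |t| ≤ A → |q.eval t| ≤ B) →
  ∀ F₁ F₂ : Finset V,
  |∑ x ∈ F₁, ∑ y ∈ F₂, ∑ k ∈ Finset.range (n + 1), q.coeff k * Wk H k x y| ≤
    B * √(F₁.card : ℝ) * √(F₂.card : ℝ)

/-- [FB3] (MEDIUM) Bound for the polynomials. Let `e = d - 1`, `z₁, z₂` the complex roots of `z² - t z + e`,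
`u_n = ∑_(j ≤ n) z₁^(n-j) z₂^j`: `u_0 = 1`, `u_1 = t`, `u_(n+2) = t u_(n+1) - e u_n`, so
`q_n(t) = u_n - u_(n-2)` for `n ≥ 2` (`q_2 = t² - d = u_2 - u_0`), `q_n = u_n` for `n ≤ 1`. `|z_i| ≤ a`: if
`t² < 4 e` the roots are conjugate and `|z_i|² = e ≤ a²`; otherwise they are real, of the same sign, and for
`t ≥ 0` the larger one `z₁` satisfies `z₁ ≥ √e`, and if `z₁ > a ≥ √e` then `t = z₁ + e / z₁ > a + e / a`
(`x + e / x` is increasing for `x ≥ √e`); `t < 0` by symmetry. So `|u_n| ≤ (n + 1) a^n`,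
`|q_n(t)| ≤ (n + 1) a^n + (n - 1) a^(n-2) ≤ 2 (n + 1) a^n`. -/
def StFB3 : Prop := ∀ (d : ℕ) (a : ℝ), 1 ≤ d → 1 ≤ a → (d : ℝ) - 1 ≤ a ^ 2 → ∀ (n : ℕ) (t : ℝ),
  |t| ≤ a + ((d : ℝ) - 1) / a → |(qp d n).eval t| ≤ 2 * (n + 1) * a ^ n

/-- [FB4] (EASY-MEDIUM) Bounds for `NW`. First: `StFA3`, `StFB2` for `F₁ = {x}`, `F₂ = {y}`, `B = 2 (n+1) a^n`
(StFB3). Second: `StFA4`, `StFA3`, `StFB2` for `F₁ = nb x`, `F₂ = nb y`, `√d √d = d`, `n - 2` for `n`.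
(hFA3 : StFA3) (hFA4 : StFA4) (hFB2 : StFB2) (hFB3 : StFB3) -/
def StFB4 : Prop := ∀ (V : Type u) (H : SimpleGraph V), LocFinite H → ∀ d : ℕ,
  (∀ x, (nb H x).card = d) → 1 ≤ d → ∀ a : ℝ, 1 ≤ a → (d : ℝ) - 1 ≤ a ^ 2 →
  Sp H (a + ((d : ℝ) - 1) / a) →
  (∀ n x y, NW H n x y ≤ 2 * (n + 1) * a ^ n) ∧
  ∀ n : ℕ, 2 ≤ n → ∀ x y, NW H n x y ≤ 2 * (n + 1) * d * a ^ (n - 2)

/-! ## C. The test function -/

/-- [FC1] (MEDIUM) Weighted number of nonbacktracking walks. The function `y ↦ NW n z y` vanishes outside the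
ball of radius `n` around `z`, which is finite (Basics, StFA1). For every finite `F` containing this ball the
sum is equal to `√(w z) q_n(σ)`: three-step induction with `StFA2` (for all `z`; choose `F` to contain also
the balls of radius `n` around the neighbours; or use `finsum` / `tsum`), `∑_(v ∈ nb z) √(w v) = √(w z) σ` (StSM and
`weight v o = weight v z * weight z o`). For general `F`: the terms are nonnegative.
(hB : Basics.{u}) (hW : WeightStmt.{u}) (hSM : StSM) (hFA1 : StFA1) (hFA2 : StFA2) -/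
def StFC1 : Prop := ∀ (V : Type u) (Γ : Subgroup (Equiv.Perm V)) (H : SimpleGraph V), Good Γ H →
  ∀ (o z : V) (n : ℕ) (F : Finset V), ∑ y ∈ F, √(weight Γ y o) * NW H n z y ≤
    √(weight Γ z o) * (qp (nb H o).card n).eval (sig Γ H o)

/-- [FC2] (EASY-MEDIUM) Let `γ = (d - 1) / α`, `s_n = q_n(α + γ)`. `s_2 - α s_1 = γ² - 1` (`α γ = d - 1`), and
`s_(n+1) - α s_n = γ (s_n - α s_(n-1))` for `n ≥ 2`, so `s_(n+1) - α s_n = γ^(n-1) (γ² - 1) ≤ γ^(n+1)` for `n ≥ 1`,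
`s_1 - α s_0 = γ`. So `s_n ≤ ∑_(j ≤ n) α^(n-j) γ^j ≤ α^n ∑_j (b^4)^j ≤ α^n / (1 - b^4)` (`0 ≤ γ ≤ b^4 α`). -/
def StFC2 : Prop := ∀ (d : ℕ) (α b : ℝ), 1 ≤ d → 0 < b → b < 1 → 0 < α → (d : ℝ) - 1 ≤ b ^ 4 * α ^ 2 →
  ∀ n, (qp d n).eval (α + ((d : ℝ) - 1) / α) ≤ α ^ n / (1 - b ^ 4)

/-- [FC3] (EASY-MEDIUM) One term. Copy of `SO/I_GK.lean`: `j = max i (n - i) ≥ 2`,
`NW j ≤ 2 (j + 1) d a'^(j-2) ≤ 2 (n + 1) d b^(2(j-2)) α^(j-2)` (StFB4, `a' ≤ b² α`), and for the other factor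
`∑_y √(w y) NW (n-j) z y ≤ √(w z) α^(n-j) / (1 - b^4)` (StFC1, StFC2; `d - 1 ≤ a'² ≤ b^4 α²`); symmetry of `NW`
(StFA3); `b^(2(j-2)) ≤ b^n / b^4` because `2 j ≥ n`. `(nb H x).card = d` for all `x`: StSM. `1 ≤ d`: hypothesis.
(hSM : StSM) (hFA1 : StFA1) (hFA3 : StFA3) (hFB4 : StFB4) (hFC1 : StFC1) (hFC2 : StFC2) -/
def StFC3 : Prop := ∀ (V : Type u) (Γ : Subgroup (Equiv.Perm V)) (H : SimpleGraph V), Good Γ H →
  ∀ (o z : V) (b α a' : ℝ), 1 ≤ (nb H o).card → 0 < b → b < 1 → 1 ≤ a' → 0 < α →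
  ((nb H o).card : ℝ) - 1 ≤ a' ^ 2 → a' ≤ b ^ 2 * α →
  sig Γ H o = α + (((nb H o).card : ℝ) - 1) / α → Sp H (a' + (((nb H o).card : ℝ) - 1) / a') →
  ∀ n : ℕ, 3 ≤ n → ∀ i, i ≤ n → ∀ F : Finset V,
  ∑ y ∈ F, √(weight Γ y o) * (NW H i y z * NW H (n - i) z y) ≤
    √(weight Γ z o) * (2 / (1 - b ^ 4) * (n + 1) * (b ^ n / b ^ 4) * ((nb H o).card / α ^ 2) * α ^ n)

/-- [FC4] (MEDIUM) The cycle term of the test function. Copy of `SO/I_GR.lean` with `StFC3` in place of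
`StGK`: if `NW i y z * NW (n-i) z y ≠ 0` then `|l y - l z| ≤ a n / 2` (StFA1: `dist ≤ min(i, n-i)`), so
`max (L² - (l y)²) 0 ≤ max (L² - (l z)²) 0 + L a n`. So
`p^n ∑_i ∑_y f y NW NW ≤ n (g z + L a n) √(w z) 2/(1-b^4) (n+1) (t b)^n / b^4 (d/α²)` for `p = t / α`, and
`n (g z + L a n) ≤ n² (g z + L a)`. Sum over `n ≥ g`. (hW : WeightStmt.{u}) (hWB : StWB) (hFA1 : StFA1) (hFC3 : StFC3) -/
def StFC4 : Prop := ∀ (V : Type u) (Γ : Subgroup (Equiv.Perm V)) (H : SimpleGraph V), Good Γ H →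
  ∀ (o z : V) (b α a' t a L K : ℝ) (g : ℕ), 1 ≤ (nb H o).card → 0 < b → b < 1 → 1 ≤ a' → 0 < α →
  ((nb H o).card : ℝ) - 1 ≤ a' ^ 2 → a' ≤ b ^ 2 * α →
  sig Γ H o = α + (((nb H o).card : ℝ) - 1) / α → Sp H (a' + (((nb H o).card : ℝ) - 1) / a') →
  0 < t → 0 ≤ a → 0 < L → 3 ≤ g → (∀ y ∈ nb H o, |Real.log (weight Γ y o)| ≤ a) →
  (∀ N : ℕ, ∑ n ∈ Finset.Icc g N,
    2 / (1 - b ^ 4) * ((n : ℝ) + 1) * (n : ℝ) ^ 2 * (t * b) ^ n / b ^ 4 ≤ K) →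
  ∀ S : Finset V, Rn H (t / α) g S (tf Γ o L) z ≤
    √(weight Γ z o) * ((nb H o).card / α ^ 2) * K *
      (max (L ^ 2 - Real.log (weight Γ z o) ^ 2) 0 + L * a)

/-- [FC5] (MEDIUM) The test function satisfies the hypothesis of `StFM6`. Copy of `SO/I_GG.lean`. With
`p = t / α`, `lam = p σ`, `s = l z`, `q y = √(weight y z) / σ`, `v y = log (weight y z)`: the right side divided by
`√(w z)` is `lam ∑ q g(s + v)`; the left side is at most `(1 + p² (d - 1)) g(s) + R` (`0 ≤ 1 - p² ≤ 1`, `R ≥ 0`),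
`R ≤ (d/α²) K (g(s) + L a)` (StFC4). `StGA` with `lam`, `mu` (`mu ≤ lam`) and the two numerical hypotheses give
the claim. (hW : WeightStmt.{u}) (hWB : StWB) (hSM : StSM) (hGA : StGA) (hFA1 : StFA1) (hFC4 : StFC4) -/
def StFC5 : Prop := ∀ (V : Type u) (Γ : Subgroup (Equiv.Perm V)) (H : SimpleGraph V), Good Γ H →
  ∀ (o : V) (b α a' t a L K mu : ℝ) (g : ℕ), 1 ≤ (nb H o).card → 0 < b → b < 1 → 1 ≤ a' → 0 < α →
  ((nb H o).card : ℝ) - 1 ≤ a' ^ 2 → a' ≤ b ^ 2 * α →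
  sig Γ H o = α + (((nb H o).card : ℝ) - 1) / α → Sp H (a' + (((nb H o).card : ℝ) - 1) / a') →
  0 < t → t / α ≤ 1 → 0 ≤ a → 0 < L → 0 < mu → 3 ≤ g →
  (∀ y ∈ nb H o, |Real.log (weight Γ y o)| ≤ a) →
  (∀ N : ℕ, ∑ n ∈ Finset.Icc g N,
    2 / (1 - b ^ 4) * ((n : ℝ) + 1) * (n : ℝ) ^ 2 * (t * b) ^ n / b ^ 4 ≤ K) →
  1 + (t / α) ^ 2 * (((nb H o).card : ℝ) - 1) + (nb H o).card / α ^ 2 * K + mu ≤
    t / α * sig Γ H o →
  (nb H o).card / α ^ 2 * K * L * a + t / α * sig Γ H o * a * (mom Γ H o / sig Γ H o) ≤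
    L * mu * (mom Γ H o / sig Γ H o) / 2 →
  ∀ z ∈ slab Γ o L, ∀ S : Finset V,
    (1 - (t / α) ^ 2) * (tf Γ o L z + Rn H (t / α) g S (tf Γ o L) z) +
      (t / α) ^ 2 * (nb H z).card * tf Γ o L z ≤ t / α * ∑ y ∈ nb H z, tf Γ o L y

/-- [FC6] (EASY) Constants. `(θ²)^n = θ^n θ^n ≤ θ^g θ^n` for `n ≥ g`, and `∑ (n + 1) n² θ^n` converges
(`summable_pow_mul_geometric_of_norm_lt_one`), partial sums are bounded. -/
def StFC6 : Prop := ∀ b θ : ℝ, 0 < b → b < 1 → 0 < θ → θ < 1 → ∃ K : ℝ, 0 < K ∧ ∀ g N : ℕ,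
  ∑ n ∈ Finset.Icc g N, 2 / (1 - b ^ 4) * ((n : ℝ) + 1) * (n : ℝ) ^ 2 * (θ ^ 2) ^ n / b ^ 4 ≤
    K * θ ^ g

/-- [FC7] (MEDIUM) CORE. Copy of `SO/I_CO.lean`. `θ = √(t₂ b)`, `K` from `StFC6`, `mu₀ = (t₁ - 1) (1 - b³)`,
`mu = mu₀ / 2`, `κ = mu₀ / (32 K)`. Given `H`, `u = (d - 1) / α² ≤ b^4` and `α ≤ σ = α (1 + u) ≤ 2 α`. For
`t₁ ≤ t ≤ t₂`: `(t/α) σ = t (1 + u)`, `(t/α)² (d - 1) = t² u`, `t (1 + u) - 1 - t² u = (t - 1)(1 - t u) ≥ mu₀`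
(`t u ≤ t₂ b b³ ≤ b³`), `Σ_(n ≥ g) .. (t b)^n .. ≤ K θ^g =: K'` (as `t b ≤ θ²`), `(d/α²) K' ≤ 4 K d θ^g / σ² ≤
4 K κ ≤ mu₀ / 2`: first condition of `StFC5`. Second: `m = mom / σ`, `(d/α²) K' a ≤ 4 K (d θ^g a) / σ² ≤ 4 K κ m ≤
mu m / 4`, and `(t/α) σ a m ≤ 2 t₂ a m ≤ L mu m / 4` for `L = 8 t₂ a / mu + 1`. `t / α ≤ t₂ / α ≤ t₂ b² ≤ b`
(`α ≥ a' / b² ≥ 1 / b²`). `StFM6` with `U` = slab, `F = exp(L/2) L²`, `f o = L²`:
`phi ≥ (1 - b²) exp(-L/2) = c` for all `q = t/α`, then `StD5` for `within H U` on `[t₁/α, t₂/α]`, and `StHV`.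
(hB : Basics.{u}) (hW : WeightStmt.{u}) (hFC5 : StFC5) (hFC6 : StFC6) (hFM6 : StFM6) (hD5 : StD5) (hHV : StHV) -/
def StFC7 : Prop := ∀ b t₁ t₂ : ℝ, 0 < b → b < 1 → 1 < t₁ → t₁ < t₂ → t₂ * b < 1 →
  ∃ κ θ : ℝ, 0 < κ ∧ 0 < θ ∧ θ < 1 ∧
  ∀ (V : Type u) (Γ : Subgroup (Equiv.Perm V)) (H : SimpleGraph V), Good Γ H →
  ∀ (o : V) (a α a' : ℝ) (g : ℕ), 3 ≤ g → (g : ℕ∞) ≤ H.egirth → 1 ≤ (nb H o).card → 0 ≤ a →
  1 ≤ a' → 0 < α → ((nb H o).card : ℝ) - 1 ≤ a' ^ 2 → a' ≤ b ^ 2 * α →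
  sig Γ H o = α + (((nb H o).card : ℝ) - 1) / α → Sp H (a' + (((nb H o).card : ℝ) - 1) / a') →
  (∀ y ∈ nb H o, |Real.log (weight Γ y o)| ≤ a) →
  (nb H o).card * θ ^ g ≤ κ * sig Γ H o ^ 2 →
  (nb H o).card * θ ^ g * a ≤ κ * sig Γ H o * mom Γ H o →
  ∀ p' : I, (p' : ℝ) = t₂ / α → 0 < perc H p' (HeavyEvent Γ)

/-! ## M. The sharp main inequality -/

/-- [FM1] (MEDIUM) Let `E = EI H S`, `e = xy`, `a = Pr(x ∈ C_e)`, `b = Pr(y ∈ C_e)`, `c = Pr(x, y ∈ C_e)`. The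
events about `C_e` are independent of `{e ∈ s}` (StPI, StPL, StPA, as in `SO/I_M1.lean`). `Pr(e ∈ s, x ∈ C_e) = p a`;
`{x ∈ C}` is the disjoint union of `{x ∈ C_e}` and `{e ∈ s, y ∈ C_e, x ∉ C_e}` (StCR, StCB), so
`tau x = a + p (b - c)`, and `tau y = b + p (a - c)`. So the right side minus the left side is
`(1 - p²) p a + p² (b + p (a - c)) - p (a + p (b - c)) = p² (1 - p) c ≥ 0`.
(hPB : StPB) (hPI : StPI) (hPL : StPL) (hPA : StPA) (hCB : StCB) (hCR : StCR) -/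
def StFM1 : Prop := ∀ (V : Type u) (H : SimpleGraph V) (S : Finset V) (o x y : V) (p : ℝ), 0 ≤ p →
  p ≤ 1 → s(x, y) ∈ EI H S →
  p * tau H p S o x ≤ (1 - p ^ 2) *
    Pr (EI H S) p {s | s(x, y) ∈ s ∧ x ∈ Cluster (s \ {s(x, y)}) o} + p ^ 2 * tau H p S o y

/-- [FM2] (MEDIUM) Open cycles. Copy of `SO/I_CC.lean`: the walk `v = (y, x, ..., y)` given there is a path
from `x` to `y` and the edge `yx`, so its vertices `v 0, ..., v (n-1)` are different, and it is a cycle of `H` of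
length `n` (`SimpleGraph.Walk.cons_isCycle_iff`), so `g ≤ n` (`SimpleGraph.le_egirth`). (hCB : StCB) -/
def StFM2 : Prop := ∀ (V : Type u) (H : SimpleGraph V), LocFinite H → ∀ (S : Finset V) (o : V) (g : ℕ),
  3 ≤ g → (g : ℕ∞) ≤ H.egirth →
  ∀ s : Set (Sym2 V), s ⊆ (EI H S : Set (Sym2 V)) → ∀ y ∈ S, ∀ x ∈ S, x ≠ y → s(x, y) ∈ s →
  y ∈ Cluster s o → x ∈ Cluster (s \ {s(x, y)}) y →
  ∃ n ∈ Finset.Icc g S.card, ∃ v ∈ CS H S n y, (∀ h : 1 < n + 1, v ⟨1, h⟩ = x) ∧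
    (edgs v).card = n ∧ (edgs v : Set (Sym2 V)) ⊆ s ∧
    ∃ i : Fin (n + 1), i ≠ 0 ∧ v i ∈ Cluster (s \ (edgs v : Set (Sym2 V))) o

/-- [FM3] (MEDIUM) Number of the cycles through `z`. For `v ∈ CS H S n y`, `n ≥ 3`, `v (j+2) ≠ v j` for
`j + 2 ≤ n` (injectivity; for `j + 2 = n`: `v n = v 0 ≠ v (n-2)`). The map
`v ↦ (v restricted to [0, i], v restricted to [i, n])` is injective, both parts are nonbacktracking walks in `S`,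
and the number of the functions `u : Fin (m + 1) → V` with values in `S`, `u 0 = x`, `u m = y`, consecutive
values adjacent and `u (j+2) ≠ u j` is at most `NW m x y` (and at most `NF m w x y` if moreover `u 1 ≠ w`):
induction on `m`, remove the first step, as in `SO/I_WC.lean`. (hWB : StWB) (hFA1 : StFA1) -/
def StFM3 : Prop := ∀ (V : Type u) (H : SimpleGraph V), LocFinite H → ∀ (S : Finset V) (n : ℕ),
  3 ≤ n → ∀ (y z : V) (i : Fin (n + 1)),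
  (((CS H S n y).filter fun v => v i = z).card : ℝ) ≤
    NW H (i : ℕ) y z * NW H (n - (i : ℕ)) z y

/-- [FM4] (EASY-MEDIUM) The cycle term. Copy of `SO/I_M4.lean` with `StFM2`, `StFM3` in place of `StCC`,
`StWC`. (hPB : StPB) (hM3 : StM3) (hFA1 : StFA1) (hFM2 : StFM2) (hFM3 : StFM3) -/
def StFM4 : Prop := ∀ (V : Type u) (H : SimpleGraph V), LocFinite H → ∀ (S : Finset V) (o : V) (p : ℝ)
  (g : ℕ), 3 ≤ g → (g : ℕ∞) ≤ H.egirth → 0 ≤ p → p ≤ 1 → ∀ f : V → ℝ, (∀ y, 0 ≤ f y) →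
  ∑ y ∈ S, ∑ x ∈ (nb H y).filter (· ∈ S), f y * Pr (EI H S) p
      {s | y ∈ Cluster s o ∧ s(x, y) ∈ s ∧ x ∈ Cluster (s \ {s(x, y)}) y} ≤
    ∑ z ∈ S, tau H p S o z * Rn H p g S f z

/-- [FM5] (EASY-MEDIUM) THE SHARP MAIN INEQUALITY. Copy of `SO/I_MI.lean`: exchange the sums, `StFM1` times
`f y`, then `StCN` and `StFM4` for the first terms.
(hPB : StPB) (hWB : StWB) (hCN : StCN) (hFM1 : StFM1) (hFM4 : StFM4) -/
def StFM5 : Prop := ∀ (V : Type u) (H : SimpleGraph V), LocFinite H → ∀ (S : Finset V) (o : V) (p : ℝ)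
  (g : ℕ), 3 ≤ g → (g : ℕ∞) ≤ H.egirth → 0 ≤ p → p ≤ 1 → ∀ f : V → ℝ, (∀ y, 0 ≤ f y) →
  ∑ x ∈ S, ∑ y ∈ (nb H x).filter (· ∈ S), p * tau H p S o x * f y ≤
    (1 - p ^ 2) * (∑ y ∈ S.erase o, tau H p S o y * f y + ∑ z ∈ S, tau H p S o z * Rn H p g S f z) +
    p ^ 2 * ∑ y ∈ S, (nb H y).card * tau H p S o y * f y

/-- [FM6] (EASY-MEDIUM) The lower bound for `φ`. Copy of `SO/I_BP.lean` with `StFM5` in place of `StMI`; the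
last line is `(1 - p²) tau o f o = (1 - p²) f o`. (hPB : StPB) (hCB : StCB) (hWB : StWB) (hFM5 : StFM5) -/
def StFM6 : Prop := ∀ (V : Type u) (H : SimpleGraph V), LocFinite H → ∀ (U : Set V) (o : V) (p F : ℝ)
  (g : ℕ) (f : V → ℝ), 3 ≤ g → (g : ℕ∞) ≤ H.egirth → 0 ≤ p → p ≤ 1 → 0 < F → o ∈ U →
  (∀ y, 0 ≤ f y) → (∀ y, f y ≤ F) → (∀ y, y ∉ U → f y = 0) →
  (∀ z ∈ U, ∀ S : Finset V, (1 - p ^ 2) * (f z + Rn H p g S f z) + p ^ 2 * (nb H z).card * f z ≤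
    p * ∑ y ∈ nb H z, f y) →
  ∀ S : Finset V, o ∈ S → (1 - p ^ 2) * (f o / F) ≤ phi (within H U) p S o

/-! ## U. Thresholds -/

/-- [FU1] (EASY-MEDIUM) Copy of `SO/I_U0.lean`: a path is a nonbacktracking walk, and the number of
nonbacktracking walks of length `n` from `x` to `y` is `NW H n x y` (see StFM3).
(hPA : StPA) (hPM : StPM) (hWB : StWB) (hFA1 : StFA1) -/
def StFU1 : Prop := ∀ (V : Type u) [Countable V] (H : SimpleGraph V), H.Connected → LocFinite H →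
  ∀ (p : I) (x y : V), perc H p {s | y ∈ Cluster s x} ≤
    ∑' n : ℕ, if H.dist x y ≤ n then ENNReal.ofReal ((p : ℝ) ^ n * NW H n x y) else 0

/-- [FU2] (MEDIUM) The uniqueness threshold. For `p < 1 / a`: `P(x ↔ y) ≤ ∑_(n ≥ dist) 2 (n + 1) (p a)^n`
(StFU1, StFB4), which tends to `0` as `dist → ∞` (tail of a convergent series), so `StU2` applies; then as in
`SO/I_U3.lean`. (hU2 : StU2) (hCB : StCB) (hSM : StSM) (hFB4 : StFB4) (hFU1 : StFU1) -/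
def StFU2 : Prop := ∀ (V : Type u) [Countable V] [Infinite V] (Γ : Subgroup (Equiv.Perm V))
  (H : SimpleGraph V), Good Γ H → ∀ (o : V) (a : ℝ), 1 ≤ (nb H o).card → 1 ≤ a →
  ((nb H o).card : ℝ) - 1 ≤ a ^ 2 → Sp H (a + (((nb H o).card : ℝ) - 1) / a) → 1 / a ≤ pu H

/-- [FU3] (EASY-MEDIUM) No heavy cluster for `p α < 1`. Copy of `SO/I_L1.lean` with `StFU1`, `StFC1`, `StFC2` in
place of `StU0`, `StWS`: `∑_x P(x ∈ C) √(w x) ≤ ∑_n p^n q_n(σ) ≤ ∑_n (p α)^n / (1 - b^4) < ∞`.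
(hW : WeightStmt.{u}) (hMS : MeasStmt.{u}) (hFA1 : StFA1) (hFU1 : StFU1) (hFC1 : StFC1) (hFC2 : StFC2) -/
def StFU3 : Prop := ∀ (V : Type u) [Countable V] (Γ : Subgroup (Equiv.Perm V)) (H : SimpleGraph V),
  Good Γ H → ∀ (o : V) (p : I) (α b : ℝ), 1 ≤ (nb H o).card → 0 < b → b < 1 → 0 < α →
  ((nb H o).card : ℝ) - 1 ≤ b ^ 4 * α ^ 2 → sig Γ H o = α + (((nb H o).card : ℝ) - 1) / α →
  (p : ℝ) * α < 1 → perc H p (HeavyEvent Γ) = 0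

/-- [FR1] (EASY-MEDIUM) Numbers (`s` for `σ`). `a' = (A + √(A² - 4 e)) / 2`, `α = (σ + √(σ² - 4 e)) / 2` are the larger roots of
`x² - A x + e`, `x² - σ x + e`; `a'² ≥ e` (`a' ≥ A / 2 ≥ √e`), `a' ≥ 1`. If `α < (1 + δ) a'` then, `x + e / x`
being nondecreasing for `x ≥ √e`, `σ = α + e / α ≤ (1 + δ) a' + e / ((1 + δ) a') ≤ (1 + δ) (a' + e / a') =
(1 + δ) A ≤ (1 - δ²) σ < σ`: contradiction. -/
def StFR1 : Prop := ∀ δ e A s a' α : ℝ, 0 < δ → δ < 1 → 1 ≤ e → 2 * √e ≤ A → A ≤ (1 - δ) * s →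
  a' = (A + √(A ^ 2 - 4 * e)) / 2 → α = (s + √(s ^ 2 - 4 * e)) / 2 →
  1 ≤ a' ∧ e ≤ a' ^ 2 ∧ a' + e / a' = A ∧ 0 < α ∧ α + e / α = s ∧ (1 + δ) * a' ≤ α

/-- [FZ] THEOREM FC (captain). -/
def StFZ : Prop := ∀ δ ε : ℝ, 0 < δ → δ < 1 → 0 < ε → ∃ κ θ : ℝ, 0 < κ ∧ 0 < θ ∧ θ < 1 ∧
  ∀ (V : Type u) [Infinite V] (Γ : Subgroup (Equiv.Perm V)) (H : SimpleGraph V), Good Γ H →
  ∀ (o : V) (A a α : ℝ) (g : ℕ), 3 ≤ g → (g : ℕ∞) ≤ H.egirth →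
  2 * √(((nb H o).card : ℝ) - 1) ≤ A → A ≤ (1 - δ) * sig Γ H o → Sp H A →
  (∀ y ∈ nb H o, |Real.log (weight Γ y o)| ≤ a) →
  (nb H o).card * θ ^ g ≤ κ * sig Γ H o ^ 2 →
  (nb H o).card * θ ^ g * a ≤ κ * sig Γ H o * mom Γ H o →
  α = (sig Γ H o + √(sig Γ H o ^ 2 - 4 * (((nb H o).card : ℝ) - 1))) / 2 →
    1 ≤ α * ph H Γ ∧ α * ph H Γ ≤ 1 + ε ∧ 1 + δ ≤ α * pu H ∧ ph H Γ < pu H

end Pool.Agent.Work.MP_c58d8b_pr.FC
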